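import Pool.Agent.LibHLP.GcdCount
import Pool.Agent.LibHall43.Defs

/-! Definitions for the board SQ (Hall's conjecture for `y^2 = x^3 + m^2`). -/

set_option autoImplicit false

open Polynomial Pool.Agent.LibHLP

namespace LibSQ

/-- The coefficients of the binary cubic form `c0 X^3 + 3 c1 X^2 Y + 3 c2 X Y^2 + z Y^3`. -/
def kk (c0 c1 c2 : ℤ) : ℕ → ℤ := fun i => if i = 0 then c0 else if i = 1 then 3 * c1 else 3 * c2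

/-- `k 0 U^3 + k 1 U^2 V + k 2 U V^2 + (z + X) V^3` is a constant times a cube only if `V = 0`. -/
def NonDeg (k : ℕ → ℤ) : Prop := ∀ (z₀ : ℤ) (U V : ℤ[X]),
  (∃ (c : ℚ) (W : ℚ[X]), (Phi 3 k z₀ U V).map (Int.castRingHom ℚ) = C c * W ^ 3) → V = 0

/-- A counted pair `(u, v)` for the coefficients `α`, `β`: `0 < α v^3 - β u^3 ≤ K`. -/
def IsUV (α β : ℕ) (K : ℝ) (s : ℕ × ℕ) : Prop :=
  0 < s.1 ∧ 0 < s.2 ∧ Nat.Coprime s.1 s.2 ∧ β * s.1 ^ 3 < α * s.2 ^ 3 ∧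
    (α : ℝ) * (s.2 : ℝ) ^ 3 - β * (s.1 : ℝ) ^ 3 ≤ K

/-- A pair `(A, B)` of coefficients for which `0 < |A p^3 - B q^3| ≤ C1`, `log q ≤ L` is soluble. -/
def IsPair (C1 L : ℝ) (P : ℕ × ℕ) : Prop :=
  ∃ p q : ℕ, 0 < p ∧ 0 < q ∧ Nat.Coprime p q ∧ (P.1 : ℤ) * p ^ 3 ≠ P.2 * q ^ 3 ∧
    |(((P.1 : ℤ) * p ^ 3 - P.2 * q ^ 3 : ℤ) : ℝ)| ≤ C1 ∧ Real.log q ≤ L

end LibSQ
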