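import Pool.Agent.LibSQ78.R1a

/-!
R1. Proof. Suppose `V ≠ 0`.
* `l ≠ 0` (its degree is 1), so `l * V^3 ≠ 0` has natDegree `1 + 3 deg V`, which is `1` mod `3`.
* If `P = 0`: then `C c * W^3 = - (l * V^3) ≠ 0`, so `c ≠ 0`, and degrees give `3 deg W = 1 + 3 deg V`: contradiction.
* If `C c * W^3 = 0`: `C a * P^3 = l * V^3`, so `3 deg P = 1 + 3 deg V`: contradiction. So `c ≠ 0`, `W ≠ 0`, `P ≠ 0`.
* Let `g = gcd P V` (`EuclideanDomain.gcd`, or `exists_gcd...`: `IsBezout`/`extract_gcd`), `P = g P'`, `V = g V'`,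
  `IsCoprime P' V'`, `g ≠ 0`. `g^3 ∣ C c * W^3`, `C c` a unit, so `g^3 ∣ W^3`, so `g ∣ W`
  (`pow_dvd_pow_iff` for UFD / normalized gcd monoids, `(pow_dvd_pow_iff three_ne_zero).mp`). `W = g W'`. Cancel `g^3 ≠ 0` and apply
  `mason_coprime` to `P', V', W'`.
-/

set_option autoImplicit false

open Polynomial

namespace LibSQ

/-- Mason-Stothers for `a P^3 - l V^3 = c W^3`, `l` linear. -/
theorem mason_cubic (a c : ℚ) (ha : a ≠ 0) (l P V W : ℚ[X]) (hl : l.natDegree = 1)
    (h : C a * P ^ 3 - l * V ^ 3 = C c * W ^ 3) : V = 0 := by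
  classical
  by_contra hV
  have hl0 : l ≠ 0 := by
    rintro rfl
    rw [natDegree_zero] at hl
    exact zero_ne_one hl
  have hd : (l * V ^ 3).natDegree = 1 + 3 * V.natDegree := by
    rw [natDegree_mul hl0 (pow_ne_zero 3 hV), natDegree_pow, hl]
  have hlV : l * V ^ 3 ≠ 0 := mul_ne_zero hl0 (pow_ne_zero 3 hV)
  by_cases hP : P = 0
  · have h1 : -(l * V ^ 3) = C c * W ^ 3 := by
      rw [← h, hP]
      ring
    have h2 : C c * W ^ 3 ≠ 0 := by
      rw [← h1]
      exact neg_ne_zero.2 hlV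
    have h3 : (C c * W ^ 3).natDegree = 3 * W.natDegree := by
      rw [natDegree_mul (left_ne_zero_of_mul h2) (right_ne_zero_of_mul h2), natDegree_C,
        natDegree_pow, zero_add]
    have h4 : (-(l * V ^ 3)).natDegree = 1 + 3 * V.natDegree := by
      rw [natDegree_neg, hd]
    rw [h1, h3] at h4
    omega
  by_cases hcW : C c * W ^ 3 = 0
  · have h1 : C a * P ^ 3 = l * V ^ 3 := by
      rw [hcW] at h
      exact sub_eq_zero.1 h
    have h2 : (C a * P ^ 3).natDegree = 3 * P.natDegree := by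
      rw [natDegree_mul (C_ne_zero.2 ha) (pow_ne_zero 3 hP), natDegree_C, natDegree_pow, zero_add]
    rw [h1, hd] at h2
    omega
  have hc : c ≠ 0 := C_ne_zero.1 (left_ne_zero_of_mul hcW)
  have hW : W ≠ 0 := by
    rintro rfl
    apply hcW
    rw [zero_pow three_ne_zero, mul_zero]
  obtain ⟨P', hP'⟩ := EuclideanDomain.gcd_dvd_left P V
  obtain ⟨V', hV'⟩ := EuclideanDomain.gcd_dvd_right P V
  have hbez := EuclideanDomain.gcd_eq_gcd_ab P V
  generalize EuclideanDomain.gcd P V = g at hP' hV' hbez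
  have hg : g ≠ 0 := by
    rintro rfl
    rw [zero_mul] at hV'
    exact hV hV'
  have hcop : IsCoprime P' V' := by
    refine ⟨EuclideanDomain.gcdA P V, EuclideanDomain.gcdB P V, mul_left_cancel₀ hg ?_⟩
    generalize EuclideanDomain.gcdA P V = u at hbez ⊢
    generalize EuclideanDomain.gcdB P V = v at hbez ⊢
    rw [hP', hV'] at hbez
    linear_combination -hbez
  have hdvd : g ^ 3 ∣ W ^ 3 := by
    have h1 : g ^ 3 ∣ C c * W ^ 3 := by
      rw [← h, hP', hV']
      exact ⟨C a * P' ^ 3 - l * V' ^ 3, by ring⟩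
    exact ((isUnit_C.2 (isUnit_iff_ne_zero.2 hc)).dvd_mul_left).1 h1
  obtain ⟨W', hW'⟩ := (IsIntegrallyClosed.pow_dvd_pow_iff three_ne_zero).1 hdvd
  refine mason_coprime a c ha hc l P' V' W' hl ?_ ?_ ?_ hcop ?_
  · rintro rfl
    apply hP
    rw [hP', mul_zero]
  · rintro rfl
    apply hV
    rw [hV', mul_zero]
  · rintro rfl
    apply hW
    rw [hW', mul_zero]
  · have h1 : g ^ 3 * (C a * P' ^ 3 - l * V' ^ 3) = g ^ 3 * (C c * W' ^ 3) := by
      have h2 := h
      rw [hP', hV', hW'] at h2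
      linear_combination h2
    exact mul_left_cancel₀ (pow_ne_zero 3 hg) h1

end LibSQ
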