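import Pool.Agent.LibSQ78.Defs

/-!
R10a. Proof (reals). Let `c = α v^3 - β u^3`, `c' = α v'^3 - β u'^3`, `0 < c, c' ≤ K`. `D = u v' - u' v`, `a = u v'`, `b = u' v`.
`α D (a^2 + a b + b^2) = α (a^3 - b^3) = u^3 c' - u'^3 c`. As `0 ≤ u^3 c', u'^3 c ≤ u'^3 K` (`u ≤ u'`), `|..| ≤ u'^3 K`. So
`|D| α u'^2 v^2 ≤ |D| α (a^2 + ab + b^2) ≤ u'^3 K`, that is `|D| α v^2 ≤ u' K`. And `α v^2 ≥ u √(α β u v)`:
`(α v^2)^2 = α v (α v^3) ≥ α v (β u^3) = u^2 (α β u v)` (`Real.le_sqrt`, `Real.sqrt_le_left`..).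
-/

set_option autoImplicit false

namespace LibSQ

theorem det_bound (α β : ℕ) (K : ℝ) (s s' : ℕ × ℕ) (hα : 0 < α) (hs : IsUV α β K s)
    (hs' : IsUV α β K s') (hle : s.1 ≤ s'.1) :
    |(s.1 : ℝ) * s'.2 - s'.1 * s.2| * (s.1 * √((α : ℝ) * β * s.1 * s.2)) ≤ s'.1 * K := by
  obtain ⟨u, v⟩ := s
  obtain ⟨u', v'⟩ := s'
  obtain ⟨hu, hv, -, hc0, hcK⟩ := hs
  obtain ⟨hu', hv', -, hc0', hcK'⟩ := hs'
  simp only at *
  have hαR : (0 : ℝ) < α := by exact_mod_cast hα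
  have hβR : (0 : ℝ) ≤ β := by positivity
  have huR : (0 : ℝ) < u := by exact_mod_cast hu
  have hvR : (0 : ℝ) < v := by exact_mod_cast hv
  have huR' : (0 : ℝ) < u' := by exact_mod_cast hu'
  have hvR' : (0 : ℝ) < v' := by exact_mod_cast hv'
  have hleR : (u : ℝ) ≤ u' := by exact_mod_cast hle
  have hcR : (β : ℝ) * (u : ℝ) ^ 3 < α * (v : ℝ) ^ 3 := by exact_mod_cast hc0
  have hcR' : (β : ℝ) * (u' : ℝ) ^ 3 < α * (v' : ℝ) ^ 3 := by exact_mod_cast hc0'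
  generalize (u : ℝ) = x at *
  generalize (v : ℝ) = y at *
  generalize (u' : ℝ) = x' at *
  generalize (v' : ℝ) = y' at *
  generalize (α : ℝ) = a at *
  generalize (β : ℝ) = b at *
  have hK : 0 ≤ K := by linarith
  have hx3 : x ^ 3 ≤ x' ^ 3 := pow_le_pow_left₀ huR.le hleR 3
  -- the identity
  have key : a * (x * y' - x' * y) * ((x * y') ^ 2 + (x * y') * (x' * y) + (x' * y) ^ 2)
      = x ^ 3 * (a * y' ^ 3 - b * x' ^ 3) - x' ^ 3 * (a * y ^ 3 - b * x ^ 3) := by ring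
  have h1 : |a * (x * y' - x' * y) * ((x * y') ^ 2 + (x * y') * (x' * y) + (x' * y) ^ 2)|
      ≤ x' ^ 3 * K := by
    rw [key, abs_le]
    have e1 : 0 ≤ x ^ 3 * (a * y' ^ 3 - b * x' ^ 3) :=
      mul_nonneg (by positivity) (by linarith)
    have e2 : 0 ≤ x' ^ 3 * (a * y ^ 3 - b * x ^ 3) :=
      mul_nonneg (by positivity) (by linarith)
    have e3 : x ^ 3 * (a * y' ^ 3 - b * x' ^ 3) ≤ x' ^ 3 * K :=
      mul_le_mul hx3 hcK' (by linarith) (by positivity)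
    have e4 : x' ^ 3 * (a * y ^ 3 - b * x ^ 3) ≤ x' ^ 3 * K :=
      mul_le_mul_of_nonneg_left hcK (by positivity)
    constructor <;> linarith
  have h2 : |x * y' - x' * y| * (a * (x' ^ 2 * y ^ 2)) ≤ x' ^ 3 * K := by
    refine le_trans ?_ h1
    rw [abs_mul, abs_mul, abs_of_pos hαR,
      abs_of_nonneg (by positivity : 0 ≤ (x * y') ^ 2 + (x * y') * (x' * y) + (x' * y) ^ 2)]
    have h3 : x' ^ 2 * y ^ 2 ≤ (x * y') ^ 2 + (x * y') * (x' * y) + (x' * y) ^ 2 := by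
      have : 0 ≤ (x * y') ^ 2 + (x * y') * (x' * y) := by positivity
      nlinarith
    calc |x * y' - x' * y| * (a * (x' ^ 2 * y ^ 2))
        = a * |x * y' - x' * y| * (x' ^ 2 * y ^ 2) := by ring
      _ ≤ a * |x * y' - x' * y| * ((x * y') ^ 2 + (x * y') * (x' * y) + (x' * y) ^ 2) :=
          mul_le_mul_of_nonneg_left h3 (by positivity)
  have h4 : |x * y' - x' * y| * (a * y ^ 2) ≤ x' * K := by
    have h5 : x' ^ 2 * (|x * y' - x' * y| * (a * y ^ 2)) ≤ x' ^ 2 * (x' * K) := by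
      calc x' ^ 2 * (|x * y' - x' * y| * (a * y ^ 2))
          = |x * y' - x' * y| * (a * (x' ^ 2 * y ^ 2)) := by ring
        _ ≤ x' ^ 3 * K := h2
        _ = x' ^ 2 * (x' * K) := by ring
    exact le_of_mul_le_mul_left h5 (by positivity)
  have h6 : x * √(a * b * x * y) ≤ a * y ^ 2 := by
    have h7 : x * √(a * b * x * y) = √(x ^ 2 * (a * b * x * y)) := by
      rw [Real.sqrt_mul (sq_nonneg x), Real.sqrt_sq huR.le]
    rw [h7]
    apply Real.sqrt_le_iff.mpr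
    refine ⟨by positivity, ?_⟩
    calc x ^ 2 * (a * b * x * y) = a * y * (b * x ^ 3) := by ring
      _ ≤ a * y * (a * y ^ 3) := mul_le_mul_of_nonneg_left hcR.le (by positivity)
      _ = (a * y ^ 2) ^ 2 := by ring
  exact le_trans (mul_le_mul_of_nonneg_left h6 (abs_nonneg _)) h4

end LibSQ
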