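import Pool.Agent.LibSQ78.R10a

/-!
R10b. Proof. For `s, s' ∈ S`, `det s s' = s.1 s'.2 - s'.1 s.2` (integer). By `det_bound` (with the smaller first coordinate `u` first;
`u' ≤ 2 u`, `u > 0`, `√(α β u v) ≥ √X0 > 0`): `|det| ≤ 2 K / √X0`. If `S` is empty done (`K ≥ 0` follows from.. in that case use the hypothesis
`hK : 0 ≤ K`). Fix `s0 = (u0, v0) ∈ S`. The map `s ↦ det s0 s` is injective on `S`: if `u0 v - u v0 = u0 v' - u' v0` then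
`u0 (v - v') = (u - u') v0`, `u0 ∣ u - u'` (coprime to `v0`) and `|u - u'| < U ≤ u0`, so `u = u'` and `v = v'`. Its values are integers in
`[-D, D]`, `D = 2 K / √X0`: at most `2 D + 1` of them.
-/

set_option autoImplicit false

namespace LibSQ

theorem block_uv (α β : ℕ) (K X0 : ℝ) (U : ℕ) (hα : 0 < α) (hK : 0 ≤ K) (hX0 : 0 < X0)
    (S : Finset (ℕ × ℕ)) (hS : ∀ s ∈ S, IsUV α β K s ∧ X0 ≤ (α : ℝ) * β * s.1 * s.2 ∧
      U ≤ s.1 ∧ s.1 < 2 * U) : (S.card : ℝ) ≤ 1 + 4 * K / √X0 := by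
  have hsq : 0 < √X0 := Real.sqrt_pos.mpr hX0
  obtain ⟨D, hD⟩ : ∃ D : ℝ, D = 2 * K / √X0 := ⟨_, rfl⟩
  have hD0 : 0 ≤ D := by rw [hD]; positivity
  have key : ∀ s ∈ S, ∀ s' ∈ S, s.1 ≤ s'.1 → |(s.1 : ℝ) * s'.2 - s'.1 * s.2| ≤ D := by
    intro s hs s' hs' hle
    obtain ⟨h1, h2, h3, h4⟩ := hS s hs
    obtain ⟨h1', h2', h3', h4'⟩ := hS s' hs'
    have hb := det_bound α β K s s' hα h1 h1' hle
    have hu : (0 : ℝ) < s.1 := by exact_mod_cast h1.1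
    have hu' : (s'.1 : ℝ) ≤ 2 * s.1 := by exact_mod_cast (by omega : s'.1 ≤ 2 * s.1)
    have hsX : √X0 ≤ √((α : ℝ) * β * s.1 * s.2) := Real.sqrt_le_sqrt h2
    rw [hD, le_div_iff₀ hsq]
    have habs := abs_nonneg ((s.1 : ℝ) * s'.2 - s'.1 * s.2)
    have h5 : (s.1 : ℝ) * (|(s.1 : ℝ) * s'.2 - s'.1 * s.2| * √X0) ≤ s.1 * (2 * K) := by
      calc (s.1 : ℝ) * (|(s.1 : ℝ) * s'.2 - s'.1 * s.2| * √X0)
          ≤ s.1 * (|(s.1 : ℝ) * s'.2 - s'.1 * s.2| * √((α : ℝ) * β * s.1 * s.2)) := by gcongr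
        _ = |(s.1 : ℝ) * s'.2 - s'.1 * s.2| * (s.1 * √((α : ℝ) * β * s.1 * s.2)) := by ring
        _ ≤ s'.1 * K := hb
        _ ≤ (2 * s.1) * K := by gcongr
        _ = s.1 * (2 * K) := by ring
    exact le_of_mul_le_mul_left h5 hu
  rcases S.eq_empty_or_nonempty with rfl | ⟨s0, hs0⟩
  · simp only [Finset.card_empty, Nat.cast_zero]; positivity
  have hf : ∀ s ∈ S, ((s0.1 : ℤ) * s.2 - s.1 * s0.2) ∈ Finset.Icc (-⌊D⌋) ⌊D⌋ := by
    intro s hs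
    have h1 : |(s0.1 : ℝ) * s.2 - s.1 * s0.2| ≤ D := by
      rcases le_total s0.1 s.1 with h | h
      · exact key s0 hs0 s hs h
      · have := key s hs s0 hs0 h
        rw [abs_sub_comm] at this
        exact this
    have h2 : |((s0.1 : ℤ) * s.2 - s.1 * s0.2)| ≤ ⌊D⌋ := by
      rw [Int.le_floor]; push_cast; exact h1
    rw [Finset.mem_Icc]; exact abs_le.mp h2
  have hinj : Set.InjOn (fun s : ℕ × ℕ => ((s0.1 : ℤ) * s.2 - s.1 * s0.2)) S := by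
    rintro ⟨u, v⟩ hs ⟨u', v'⟩ hs' h
    simp only at h
    obtain ⟨h1, h2, h3, h4⟩ := hS _ hs
    obtain ⟨h1', h2', h3', h4'⟩ := hS _ hs'
    obtain ⟨h10, h20, h30, h40⟩ := hS _ hs0
    simp only at h3 h4 h3' h4'
    have h6 : (s0.1 : ℤ) * ((v : ℤ) - v') = ((u : ℤ) - u') * s0.2 := by linarith
    have hc : IsCoprime (s0.1 : ℤ) (s0.2 : ℤ) := Nat.isCoprime_iff_coprime.mpr h10.2.2.1
    have h7 : (s0.1 : ℤ) ∣ (u : ℤ) - u' := hc.dvd_of_dvd_mul_right ⟨_, h6.symm⟩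
    have h8 : (u : ℤ) - u' = 0 := by
      apply Int.eq_zero_of_abs_lt_dvd h7
      rw [abs_lt]; constructor <;> omega
    have h9 : (0 : ℤ) < s0.1 := by exact_mod_cast h10.1
    rw [h8, zero_mul] at h6
    have h11 : (v : ℤ) - v' = 0 := by
      rcases mul_eq_zero.mp h6 with h | h
      · omega
      · exact h
    rw [Prod.mk.injEq]; constructor <;> omega
  have hcard : S.card ≤ (Finset.Icc (-⌊D⌋) ⌊D⌋).card :=
    Finset.card_le_card_of_injOn _ hf hinj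
  have hfl : 0 ≤ ⌊D⌋ := Int.floor_nonneg.mpr hD0
  rw [Int.card_Icc] at hcard
  have h12 : ((⌊D⌋ + 1 - -⌊D⌋).toNat : ℤ) = 2 * ⌊D⌋ + 1 := by
    rw [Int.toNat_of_nonneg (by omega)]; ring
  have h13 : (S.card : ℤ) ≤ 2 * ⌊D⌋ + 1 := by
    rw [← h12]; exact_mod_cast hcard
  have h14 : (S.card : ℝ) ≤ 2 * (⌊D⌋ : ℝ) + 1 := by exact_mod_cast h13
  have h15 : (⌊D⌋ : ℝ) ≤ D := Int.floor_le D
  have h16 : 4 * K / √X0 = 2 * D := by rw [hD]; ring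
  rw [h16]; linarith

end LibSQ
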