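import Pool.Agent.LibSQ78.R10a

/-!
R10c. The gap principle.
-/

set_option autoImplicit false

namespace LibSQ

private theorem log54 : (1 : ℝ) / 5 ≤ Real.log (5 / 4) := by
  rw [Real.le_log_iff_exp_le (by norm_num)]
  have h1 : Real.exp (1 / 5) ^ 5 = Real.exp 1 := by
    rw [← Real.exp_nat_mul]; norm_num
  have h2 : Real.exp (1 / 5) ^ 5 ≤ (5 / 4 : ℝ) ^ 5 := by
    rw [h1]
    have := Real.exp_one_lt_d9
    norm_num
    linarith
  exact le_of_pow_le_pow_left₀ (by norm_num) (by norm_num) h2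

/-- two different coprime pairs have non-zero determinant -/
private theorem det_ne (s s' : ℕ × ℕ) (h1 : 0 < s.1) (h1' : 0 < s'.1) (h2 : 0 < s.2)
    (h2' : 0 < s'.2)
    (hc : Nat.Coprime s.1 s.2) (hc' : Nat.Coprime s'.1 s'.2) (hne : s ≠ s') :
    1 ≤ |(s.1 : ℝ) * s'.2 - s'.1 * s.2| := by
  have h3 : s.1 * s'.2 ≠ s'.1 * s.2 := by
    intro he
    apply hne
    have e1 : s.1 ∣ s'.1 := hc.dvd_of_dvd_mul_right ⟨s'.2, he.symm⟩
    have e2 : s'.1 ∣ s.1 := hc'.dvd_of_dvd_mul_right ⟨s.2, he⟩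
    have e3 : s.1 = s'.1 := Nat.dvd_antisymm e1 e2
    have e4 : s.2 = s'.2 := by
      rw [e3] at he
      exact (Nat.eq_of_mul_eq_mul_left h1' he).symm
    exact Prod.ext e3 e4
  have h4 : ((s.1 * s'.2 - s'.1 * s.2 : ℤ)) ≠ 0 := by
    intro he
    apply h3
    have : (s.1 * s'.2 : ℤ) = s'.1 * s.2 := by linarith
    exact_mod_cast this
  have h5 := Int.one_le_abs h4
  have h6 : ((1 : ℤ) : ℝ) ≤ ((|(s.1 * s'.2 - s'.1 * s.2 : ℤ)| : ℤ) : ℝ) := by exact_mod_cast h5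
  rw [Int.cast_abs] at h6
  push_cast at h6
  exact h6

theorem gap_uv (α β : ℕ) (K L : ℝ) (hα : 0 < α) (hβ : 0 < β) (hK : 1 ≤ K) (hL : 1 ≤ L)
    (S : Finset (ℕ × ℕ)) (hS : ∀ s ∈ S, IsUV α β K s ∧ 3 ≤ s.1 ∧ K ^ 4 ≤ (s.1 : ℝ) ∧
      Real.log s.1 ≤ L) : (S.card : ℝ) ≤ 5 * Real.log L + 1 := by
  -- the gap
  have hgap : ∀ s ∈ S, ∀ s' ∈ S, s ≠ s' → s.1 ≤ s'.1 →
      5 * Real.log (Real.log s.1) + 1 ≤ 5 * Real.log (Real.log s'.1) := by
    intro s hs s' hs' hne hle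
    obtain ⟨hu, h3, h4, -⟩ := hS s hs
    obtain ⟨hu', -, -, -⟩ := hS s' hs'
    have hdet := det_ne s s' hu.1 hu'.1 hu.2.1 hu'.2.1 hu.2.2.1 hu'.2.2.1 hne
    have hb := det_bound α β K s s' hα hu hu' hle
    have hu3 : (3 : ℝ) ≤ s.1 := by exact_mod_cast h3
    have hupos : (0 : ℝ) < s.1 := by linarith
    have hz : (s.1 : ℝ) ≤ (α : ℝ) * β * s.1 * s.2 := by
      have e1 : (1 : ℝ) ≤ α := by exact_mod_cast hα
      have e2 : (1 : ℝ) ≤ β := by exact_mod_cast hβ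
      have e3 : (1 : ℝ) ≤ s.2 := by exact_mod_cast hu.2.1
      have e4 : (1 : ℝ) ≤ (α : ℝ) * β := by nlinarith
      calc (s.1 : ℝ) = 1 * s.1 * 1 := by ring
        _ ≤ (α : ℝ) * β * s.1 * s.2 := by gcongr
    have h5 : (s.1 : ℝ) * √(s.1 : ℝ) ≤ s'.1 * K := by
      calc (s.1 : ℝ) * √(s.1 : ℝ) ≤ s.1 * √((α : ℝ) * β * s.1 * s.2) := by gcongr
        _ = 1 * (s.1 * √((α : ℝ) * β * s.1 * s.2)) := (one_mul _).symm
        _ ≤ |(s.1 : ℝ) * s'.2 - s'.1 * s.2| * (s.1 * √((α : ℝ) * β * s.1 * s.2)) := by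
            gcongr
        _ ≤ s'.1 * K := hb
    -- fourth roots
    obtain ⟨r, hr0, hr⟩ : ∃ r : ℝ, 0 < r ∧ r ^ 4 = s.1 := by
      refine ⟨(s.1 : ℝ) ^ (1 / 4 : ℝ), Real.rpow_pos_of_pos hupos _, ?_⟩
      rw [← Real.rpow_natCast, ← Real.rpow_mul hupos.le]
      norm_num
    have hKr : K ≤ r := by
      rw [← hr] at h4
      exact le_of_pow_le_pow_left₀ (by norm_num) hr0.le h4
    have hsq : √(s.1 : ℝ) = r ^ 2 := by
      rw [← hr, show r ^ 4 = (r ^ 2) ^ 2 by ring, Real.sqrt_sq (by positivity)]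
    rw [hsq] at h5
    have h6 : r ^ 5 ≤ (s'.1 : ℝ) := by
      have h7 : r ^ 6 ≤ s'.1 * r := by
        calc r ^ 6 = s.1 * r ^ 2 := by rw [← hr]; ring
          _ ≤ s'.1 * K := h5
          _ ≤ s'.1 * r := by gcongr
      have h8 : r ^ 5 * r ≤ s'.1 * r := by
        calc r ^ 5 * r = r ^ 6 := by ring
          _ ≤ _ := h7
      exact le_of_mul_le_mul_right h8 hr0
    have hr1 : 1 < r := by
      by_contra hcon
      push Not at hcon
      have : r ^ 4 ≤ 1 := pow_le_one₀ hr0.le hcon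
      rw [hr] at this
      linarith
    have hlr : 0 < Real.log r := Real.log_pos hr1
    have hl1 : Real.log (s.1 : ℝ) = 4 * Real.log r := by
      rw [← hr, Real.log_pow]; norm_num
    have hl2 : 5 * Real.log r ≤ Real.log (s'.1 : ℝ) := by
      have := Real.log_le_log (by positivity) h6
      rw [Real.log_pow] at this
      push_cast at this
      exact this
    have hl3 : (5 / 4 : ℝ) * Real.log (s.1 : ℝ) ≤ Real.log (s'.1 : ℝ) := by
      rw [hl1]; linarith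
    have hl4 : 0 < Real.log (s.1 : ℝ) := by rw [hl1]; linarith
    have hl5 := Real.log_le_log (by positivity) hl3
    rw [Real.log_mul (by norm_num) hl4.ne'] at hl5
    have := log54
    linarith
  have hnn : ∀ s ∈ S, 0 ≤ 5 * Real.log (Real.log s.1) := by
    intro s hs
    obtain ⟨-, h3, -, -⟩ := hS s hs
    have hu3 : (3 : ℝ) ≤ s.1 := by exact_mod_cast h3
    have h1 : 1 ≤ Real.log (s.1 : ℝ) := by
      rw [Real.le_log_iff_exp_le (by linarith)]
      have := Real.exp_one_lt_d9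
      linarith
    have := Real.log_nonneg h1
    linarith
  set f : ℕ × ℕ → ℕ := fun s => ⌊5 * Real.log (Real.log s.1)⌋₊ with hf
  have hinj : Set.InjOn f (S : Set (ℕ × ℕ)) := by
    intro s hs s' hs' heq
    by_contra hne
    have key : ∀ a ∈ S, ∀ b ∈ S, a ≠ b → a.1 ≤ b.1 → f a ≠ f b := by
      intro a ha b hb hab hle he
      have g1 := hgap a ha b hb hab hle
      have g2 : (⌊5 * Real.log (Real.log a.1)⌋₊ : ℝ) ≤ 5 * Real.log (Real.log a.1) :=
        Nat.floor_le (hnn a ha)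
      have g3 := Nat.lt_floor_add_one (5 * Real.log (Real.log b.1))
      have g4 : ⌊5 * Real.log (Real.log a.1)⌋₊ + 1 ≤ ⌊5 * Real.log (Real.log b.1)⌋₊ := by
        apply Nat.le_floor
        push_cast
        linarith
      simp only [hf] at he
      omega
    rcases le_total s.1 s'.1 with h | h
    · exact key s hs s' hs' hne h heq
    · exact key s' hs' s hs (Ne.symm hne) h heq.symm
  have hmaps : ∀ s ∈ S, f s ∈ Finset.range (⌊5 * Real.log L⌋₊ + 1) := by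
    intro s hs
    rw [Finset.mem_range]
    obtain ⟨-, h3, -, h4⟩ := hS s hs
    have hu3 : (3 : ℝ) ≤ s.1 := by exact_mod_cast h3
    have h1 : 0 < Real.log (s.1 : ℝ) := Real.log_pos (by linarith)
    have h5 : Real.log (Real.log (s.1 : ℝ)) ≤ Real.log L := Real.log_le_log h1 h4
    have h6 : ⌊5 * Real.log (Real.log s.1)⌋₊ ≤ ⌊5 * Real.log L⌋₊ :=
      Nat.floor_le_floor (by linarith)
    simp only [hf]
    omega
  have hcard : S.card ≤ ⌊5 * Real.log L⌋₊ + 1 := by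
    rw [← Finset.card_range (⌊5 * Real.log L⌋₊ + 1)]
    exact Finset.card_le_card_of_injOn f hmaps hinj
  have hLn : 0 ≤ 5 * Real.log L := by
    have := Real.log_nonneg hL
    linarith
  calc (S.card : ℝ) ≤ ((⌊5 * Real.log L⌋₊ + 1 : ℕ) : ℝ) := by exact_mod_cast hcard
    _ = (⌊5 * Real.log L⌋₊ : ℝ) + 1 := by push_cast; ring
    _ ≤ _ := by
      have := Nat.floor_le hLn
      linarith

end LibSQ
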