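import Pool.Agent.LibSQ78.R10b
import Pool.Agent.LibSQ78.R10c

/-!
R10d. `uv_count`: combination of R10b and R10c.
-/

set_option autoImplicit false

namespace LibSQ

theorem uv_count : ∃ T0 : ℝ, 1 ≤ T0 ∧ ∀ T : ℝ, T0 ≤ T → ∀ (α β : ℕ) (K X0 : ℝ), 0 < α → 0 < β →
    1 ≤ K → K ≤ 2 * T ^ 100000 → 0 < X0 → ∀ S : Finset (ℕ × ℕ),
    (∀ s ∈ S, IsUV α β K s ∧ X0 ≤ (α : ℝ) * β * s.1 * s.2 ∧ Real.log s.1 ≤ T ^ 250) →
    (S.card : ℝ) ≤ T * (1 + 4 * K / √X0) := by
  classical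
  have hev : ∀ᶠ T : ℝ in Filter.atTop, ‖Real.log T‖ ≤ (1 / 4000000 : ℝ) * ‖T‖ :=
    Real.isLittleO_log_id_atTop.def (by norm_num)
  obtain ⟨T1, hT1⟩ := Filter.eventually_atTop.mp hev
  refine ⟨max T1 100, le_max_of_le_right (by norm_num), ?_⟩
  intro T hT α β K X0 hα hβ hK hKT hX0 S hS
  have hT100 : (100 : ℝ) ≤ T := (le_max_right _ _).trans hT
  have hTpos : (0 : ℝ) < T := by linarith
  have hlog0 : 0 ≤ Real.log T := Real.log_nonneg (by linarith)
  have hlog : Real.log T ≤ T / 4000000 := by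
    have h1 := hT1 T ((le_max_left _ _).trans hT)
    rw [Real.norm_of_nonneg hlog0, Real.norm_of_nonneg hTpos.le] at h1
    linarith
  set c : ℝ := 4 * K / √X0 with hc
  have hc0 : 0 ≤ c := by positivity
  -- the large pairs
  have h2 : ((S.filter fun s => 3 ≤ s.1 ∧ K ^ 4 ≤ (s.1 : ℝ)).card : ℝ) ≤ T / 2 := by
    have hL : (1 : ℝ) ≤ T ^ 250 := one_le_pow₀ (by linarith)
    have h := gap_uv α β K (T ^ 250) hα hβ hK hL
      (S.filter fun s => 3 ≤ s.1 ∧ K ^ 4 ≤ (s.1 : ℝ)) (by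
        intro s hs
        obtain ⟨hsS, hs3, hsK⟩ := Finset.mem_filter.mp hs
        obtain ⟨g1, -, g3⟩ := hS s hsS
        exact ⟨g1, hs3, hsK, g3⟩)
    rw [Real.log_pow] at h
    push_cast at h
    linarith
  -- the small pairs
  have h1 : ((S.filter fun s => ¬ (3 ≤ s.1 ∧ K ^ 4 ≤ (s.1 : ℝ))).card : ℝ) ≤ T / 2 * (1 + c) := by
    set S1 := S.filter fun s => ¬ (3 ≤ s.1 ∧ K ^ 4 ≤ (s.1 : ℝ)) with hS1
    set J : Finset ℕ := Finset.range (⌊6 + 600000 * Real.log T⌋₊ + 1) with hJ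
    have hmaps : ∀ s ∈ S1, Nat.log 2 s.1 ∈ J := by
      intro s hs
      obtain ⟨hsS, hsn⟩ := Finset.mem_filter.mp hs
      have hpos : 0 < s.1 := (hS s hsS).1.1
      have hK4 : (1 : ℝ) ≤ K ^ 4 := one_le_pow₀ hK
      have hlt : (s.1 : ℝ) < 3 * K ^ 4 := by
        by_cases hs3 : 3 ≤ s.1
        · have : ¬ K ^ 4 ≤ (s.1 : ℝ) := fun h => hsn ⟨hs3, h⟩
          push Not at this
          linarith
        · have : (s.1 : ℝ) < 3 := by
            push Not at hs3
            exact_mod_cast hs3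
          linarith
      have hKle : K ^ 4 ≤ 16 * T ^ 400000 := by
        calc K ^ 4 ≤ (2 * T ^ 100000) ^ 4 := pow_le_pow_left₀ (by linarith) hKT 4
          _ = 16 * T ^ 400000 := by
            rw [mul_pow, ← pow_mul]
            norm_num
      have hT4 : (0 : ℝ) < T ^ 400000 := pow_pos hTpos _
      have hlt2 : (s.1 : ℝ) ≤ 64 * T ^ 400000 := by
        have : (s.1 : ℝ) < 3 * (16 * T ^ 400000) := hlt.trans_le (by linarith)
        linarith
      have hpow : ((2 : ℝ)) ^ (Nat.log 2 s.1) ≤ (s.1 : ℝ) := by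
        exact_mod_cast Nat.pow_log_le_self 2 hpos.ne'
      have hlg : (Nat.log 2 s.1 : ℝ) * Real.log 2 ≤ 6 * Real.log 2 + 400000 * Real.log T := by
        have e1 : Real.log ((2 : ℝ) ^ (Nat.log 2 s.1)) ≤ Real.log (64 * T ^ 400000) :=
          Real.log_le_log (by positivity) (hpow.trans hlt2)
        rw [Real.log_pow, Real.log_mul (by norm_num) hT4.ne', Real.log_pow,
          show (64 : ℝ) = 2 ^ 6 by norm_num, Real.log_pow] at e1
        push_cast at e1
        exact e1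
      have hl2 : (2 : ℝ) / 3 ≤ Real.log 2 := by
        have := Real.log_two_gt_d9
        linarith
      have hl2' : 0 < Real.log 2 := by linarith
      have hfin : (Nat.log 2 s.1 : ℝ) ≤ 6 + 600000 * Real.log T := by
        have e2 : 400000 * Real.log T ≤ 600000 * Real.log T * Real.log 2 := by
          nlinarith
        have e3 : (Nat.log 2 s.1 : ℝ) * Real.log 2 ≤ (6 + 600000 * Real.log T) * Real.log 2 := by
          linarith
        exact le_of_mul_le_mul_right e3 hl2'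
      rw [hJ, Finset.mem_range]
      exact Nat.lt_succ_of_le (Nat.le_floor hfin)
    have hcard : S1.card = ∑ j ∈ J, (S1.filter fun s => Nat.log 2 s.1 = j).card :=
      Finset.card_eq_sum_card_fiberwise hmaps
    have hfib : ∀ j ∈ J, ((S1.filter fun s => Nat.log 2 s.1 = j).card : ℝ) ≤ 1 + c := by
      intro j _
      refine block_uv α β K X0 (2 ^ j) hα (by linarith) hX0 _ ?_
      intro s hs
      obtain ⟨hs1, hsj⟩ := Finset.mem_filter.mp hs
      obtain ⟨g1, g2, -⟩ := hS s (Finset.mem_filter.mp hs1).1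
      refine ⟨g1, g2, ?_, ?_⟩
      · rw [← hsj]
        exact Nat.pow_log_le_self 2 g1.1.ne'
      · rw [← hsj]
        have := Nat.lt_pow_succ_log_self (b := 2) (by norm_num) s.1
        rwa [pow_succ, mul_comm] at this
    have hJc : (J.card : ℝ) ≤ T / 2 := by
      rw [hJ, Finset.card_range]
      push_cast
      have := Nat.floor_le (a := 6 + 600000 * Real.log T) (by positivity)
      linarith
    rw [hcard]
    push_cast
    calc ∑ j ∈ J, ((S1.filter fun s => Nat.log 2 s.1 = j).card : ℝ)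
        ≤ ∑ _j ∈ J, (1 + c) := Finset.sum_le_sum hfib
      _ = J.card * (1 + c) := by rw [Finset.sum_const, nsmul_eq_mul]
      _ ≤ T / 2 * (1 + c) := mul_le_mul_of_nonneg_right hJc (by linarith)
  have hsplit : (S.card : ℝ) = ((S.filter fun s => 3 ≤ s.1 ∧ K ^ 4 ≤ (s.1 : ℝ)).card : ℝ) +
      ((S.filter fun s => ¬ (3 ≤ s.1 ∧ K ^ 4 ≤ (s.1 : ℝ))).card : ℝ) := by
    rw [← Finset.card_filter_add_card_filter_not (s := S)
      (p := fun s => 3 ≤ s.1 ∧ K ^ 4 ≤ (s.1 : ℝ))]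
    push_cast
    rfl
  rw [hsplit]
  have hTc : 0 ≤ T / 2 * c := by positivity
  nlinarith

end LibSQ
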