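import Pool.Agent.LibHLP.DivBound

/-!
R11. Proof. `exists_card_divisors_le ε` with `ε = 1/300`: `d(n) ≤ C n^ε` for `n ≥ 1`. For `t = (m, x, y) ∈ S` let `e = y + m`:
`(y - m) (y + m) = x^3 ≠ 0`, so `e ≠ 0`, `e ∣ x^3`, and `y - m = x^3 / e`: `(x, e)` determines `(m, x, y)`. So `t ↦ (x, e)` is injective on `S`, with
`x ∈ Icc (-R) R`, `R = ⌊T^98000⌋`, `x ≠ 0`, `e.natAbs ∈ (x.natAbs^3).divisors`: map further to
`(x, e ≥ 0 ?, e.natAbs)`: for each `x` at most `2 d(|x|^3) ≤ 2 C (T^294000)^(1/300) = 2 C T^980` values, and at most `2 R + 1 ≤ 3 T^98000` values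
of `x`. Total `≤ 6 C T^98980 ≤ 6 C T^99000`.
-/

set_option autoImplicit false

open Pool.Agent.LibHLP

namespace LibSQ

/-- the fibre over one `x` has at most `2 d(|x|^3)` elements -/
theorem R11_fibre (x : ℤ) (hx : x ≠ 0) (F : Finset (ℤ × ℤ × ℤ))
    (hF : ∀ t ∈ F, t.2.1 = x ∧ t.2.2 ^ 2 = t.2.1 ^ 3 + t.1 ^ 2) :
    F.card ≤ 2 * ((x.natAbs ^ 3).divisors).card := by
  classical
  set D : Finset ℕ := (x.natAbs ^ 3).divisors with hD
  set A : Finset ℤ := D.image (fun n : ℕ => (n : ℤ)) with hA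
  set B : Finset ℤ := D.image (fun n : ℕ => -(n : ℤ)) with hB
  have hfac : ∀ t ∈ F, (t.2.2 - t.1) * (t.2.2 + t.1) = x ^ 3 := by
    intro t ht
    obtain ⟨h1, h2⟩ := hF t ht
    rw [h1] at h2
    linear_combination h2
  have hx3 : x ^ 3 ≠ 0 := pow_ne_zero 3 hx
  have hmaps : ∀ t ∈ F, (t.2.2 + t.1) ∈ A ∪ B := by
    intro t ht
    have h := hfac t ht
    have hdvd : (t.2.2 + t.1) ∣ x ^ 3 := Dvd.intro_left _ h
    have hn : (t.2.2 + t.1).natAbs ∈ D := by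
      rw [hD, Nat.mem_divisors]
      refine ⟨?_, pow_ne_zero 3 (Int.natAbs_ne_zero.mpr hx)⟩
      have := Int.natAbs_dvd_natAbs.mpr hdvd
      rwa [Int.natAbs_pow] at this
    rcases Int.natAbs_eq (t.2.2 + t.1) with h1 | h1
    · refine Finset.mem_union_left _ ?_
      rw [hA, Finset.mem_image]
      exact ⟨_, hn, h1.symm⟩
    · refine Finset.mem_union_right _ ?_
      rw [hB, Finset.mem_image]
      exact ⟨_, hn, h1.symm⟩
  have hinj : ∀ s ∈ F, ∀ t ∈ F, (s.2.2 + s.1) = (t.2.2 + t.1) → s = t := by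
    intro s hs t ht he
    have h1 := hfac s hs
    have h2 := hfac t ht
    have hne : (t.2.2 + t.1) ≠ 0 := by
      intro h0
      rw [h0, mul_zero] at h2
      exact hx3 h2.symm
    have h3 : (s.2.2 - s.1) = (t.2.2 - t.1) := by
      apply mul_right_cancel₀ hne
      rw [h2, ← he, h1]
    have hy : s.2.2 = t.2.2 := by linarith
    have hm : s.1 = t.1 := by linarith
    have hxx : s.2.1 = t.2.1 := by rw [(hF s hs).1, (hF t ht).1]
    exact Prod.ext hm (Prod.ext hxx hy)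
  have hc : F.card ≤ (A ∪ B).card :=
    Finset.card_le_card_of_injOn (fun t => t.2.2 + t.1) hmaps
      (fun s hs t ht he => hinj s hs t ht he)
  calc F.card ≤ (A ∪ B).card := hc
    _ ≤ A.card + B.card := Finset.card_union_le _ _
    _ ≤ D.card + D.card := Nat.add_le_add Finset.card_image_le Finset.card_image_le
    _ = 2 * D.card := by ring

theorem small_count : ∃ C : ℝ, 0 < C ∧ ∀ T : ℝ, 1 ≤ T → ∀ S : Finset (ℤ × ℤ × ℤ),
    (∀ t ∈ S, 1 ≤ t.1 ∧ t.2.1 ≠ 0 ∧ |(t.2.1 : ℝ)| ≤ T ^ 98000 ∧ t.2.2 ^ 2 = t.2.1 ^ 3 + t.1 ^ 2) →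
    (S.card : ℝ) ≤ C * T ^ 99000 := by
  classical
  obtain ⟨C, hC1, hC⟩ := exists_card_divisors_le (((300 : ℕ) : ℝ)⁻¹) (by norm_num)
  refine ⟨6 * C, by linarith, ?_⟩
  intro T hT S hS
  have hT0 : 0 ≤ T := by linarith
  have hTp : ∀ n : ℕ, 1 ≤ T ^ n := fun n => one_le_pow₀ hT
  -- bound of the fibres
  set N : ℕ := ⌊2 * C * T ^ 980⌋₊ with hN
  have hNle : (N : ℝ) ≤ 2 * C * T ^ 980 :=
    Nat.floor_le (by have := hTp 980; positivity)
  have hfib : ∀ a ∈ S.image (fun t : ℤ × ℤ × ℤ => t.2.1),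
      (S.filter (fun t => t.2.1 = a)).card ≤ N := by
    intro a ha
    obtain ⟨t0, ht0, rfl⟩ := Finset.mem_image.mp ha
    obtain ⟨-, hx0, hxT, -⟩ := hS t0 ht0
    have h1 := R11_fibre t0.2.1 hx0 (S.filter (fun t => t.2.1 = t0.2.1)) (by
      intro t ht
      obtain ⟨h1, h2⟩ := Finset.mem_filter.mp ht
      exact ⟨h2, (hS t h1).2.2.2⟩)
    have h2 := hC (t0.2.1.natAbs ^ 3) (pow_ne_zero 3 (Int.natAbs_ne_zero.mpr hx0))
    have h3 : (((t0.2.1.natAbs ^ 3 : ℕ) : ℝ)) ≤ (T ^ 980) ^ 300 := by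
      have e1 : ((t0.2.1.natAbs : ℕ) : ℝ) = |(t0.2.1 : ℝ)| := by
        rw [Nat.cast_natAbs, Int.cast_abs]
      rw [Nat.cast_pow, e1]
      calc |(t0.2.1 : ℝ)| ^ 3 ≤ (T ^ 98000) ^ 3 := pow_le_pow_left₀ (abs_nonneg _) hxT 3
        _ = (T ^ 980) ^ 300 := by rw [← pow_mul, ← pow_mul]
    have h4 : (((t0.2.1.natAbs ^ 3 : ℕ) : ℝ)) ^ (((300 : ℕ) : ℝ)⁻¹) ≤ T ^ 980 := by
      calc (((t0.2.1.natAbs ^ 3 : ℕ) : ℝ)) ^ (((300 : ℕ) : ℝ)⁻¹)
          ≤ ((T ^ 980) ^ 300) ^ (((300 : ℕ) : ℝ)⁻¹) :=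
            Real.rpow_le_rpow (Nat.cast_nonneg _) h3 (by norm_num)
        _ = T ^ 980 := Real.pow_rpow_inv_natCast (by positivity) (by norm_num)
    apply Nat.le_floor
    have h5 : ((S.filter (fun t => t.2.1 = t0.2.1)).card : ℝ)
        ≤ 2 * (((t0.2.1.natAbs ^ 3).divisors).card : ℝ) := by exact_mod_cast h1
    calc ((S.filter (fun t => t.2.1 = t0.2.1)).card : ℝ)
        ≤ 2 * (((t0.2.1.natAbs ^ 3).divisors).card : ℝ) := h5
      _ ≤ 2 * (C * T ^ 980) := by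
          have : C * (((t0.2.1.natAbs ^ 3 : ℕ) : ℝ)) ^ (((300 : ℕ) : ℝ)⁻¹) ≤ C * T ^ 980 :=
            mul_le_mul_of_nonneg_left h4 (by linarith)
          linarith
      _ = 2 * C * T ^ 980 := by ring
  have hcard := Finset.card_le_mul_card_image (f := fun t : ℤ × ℤ × ℤ => t.2.1) S N hfib
  -- number of values of x
  set R : ℤ := ⌊T ^ 98000⌋ with hR
  have hsub : S.image (fun t : ℤ × ℤ × ℤ => t.2.1) ⊆ Finset.Icc (-R) R := by
    intro a ha
    obtain ⟨t0, ht0, rfl⟩ := Finset.mem_image.mp ha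
    obtain ⟨-, hx0, hxT, -⟩ := hS t0 ht0
    rw [Finset.mem_Icc]
    have := abs_le.mp hxT
    constructor
    · have h1 : -t0.2.1 ≤ R := by
        rw [hR, Int.le_floor]
        push_cast
        linarith [this.1]
      linarith
    · rw [hR, Int.le_floor]
      exact this.2
  have hR1 : (1 : ℤ) ≤ R := by
    rw [hR, Int.le_floor]
    push_cast
    exact hTp _
  have hRle : (R : ℝ) ≤ T ^ 98000 := Int.floor_le _
  have himg : ((S.image (fun t : ℤ × ℤ × ℤ => t.2.1)).card : ℝ) ≤ 3 * T ^ 98000 := by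
    have h1 := Finset.card_le_card hsub
    rw [Int.card_Icc] at h1
    have h2 : ((R + 1 - -R).toNat : ℝ) = 2 * (R : ℝ) + 1 := by
      have h3 : (((R + 1 - -R).toNat : ℤ)) = R + 1 - -R := Int.toNat_of_nonneg (by linarith)
      have h4 : (((R + 1 - -R).toNat : ℤ) : ℝ) = ((R + 1 - -R : ℤ) : ℝ) := by rw [h3]
      rw [Int.cast_natCast] at h4
      rw [h4]
      push_cast
      ring
    have h3 : ((S.image (fun t : ℤ × ℤ × ℤ => t.2.1)).card : ℝ) ≤ ((R + 1 - -R).toNat : ℝ) := by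
      exact_mod_cast h1
    have := hTp 98000
    linarith
  have h6 : (S.card : ℝ) ≤ (N : ℝ) * ((S.image (fun t : ℤ × ℤ × ℤ => t.2.1)).card : ℝ) := by
    exact_mod_cast hcard
  have hT980 := hTp 980
  have hT98000 := hTp 98000
  calc (S.card : ℝ) ≤ (N : ℝ) * ((S.image (fun t : ℤ × ℤ × ℤ => t.2.1)).card : ℝ) := h6
    _ ≤ (2 * C * T ^ 980) * (3 * T ^ 98000) :=
        mul_le_mul hNle himg (Nat.cast_nonneg _) (by positivity)
    _ = 6 * C * T ^ 98980 := by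
        rw [show (98980 : ℕ) = 980 + 98000 from rfl, pow_add]; ring
    _ ≤ 6 * C * T ^ 99000 :=
        mul_le_mul_of_nonneg_left (pow_le_pow_right₀ hT (by norm_num)) (by linarith)

end LibSQ
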