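import Mathlib

/-!
R12a. Proof. `T0` so large that `(2 + 200000 log T)^2 ≤ T` and `log (2 T^100000) ≤ 200000 log T` for `T ≥ T0`.
(1) The pairs lie in `Icc 1 R ×ˢ Icc 1 R`, `R = ⌊2 T^100000⌋₊`; `∑ 1/(a b) ≤ (∑_{a ≤ R} 1/a)^2 ≤ (1 + log R)^2 ≤ T`
(`harmonic_le_one_add_log`; the sum over a product Finset is the product of the sums).
(2) `1 ≤ P / (a b)` for each pair, so `card S ≤ ∑ P / (a b) ≤ T * P` by (1) (if `S` is nonempty, `P ≥ 1`; the pairs have `a, b ≤ P ≤ 2 T^100000`).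
-/

set_option autoImplicit false

namespace LibSQ

open Finset Filter

private theorem ev_log : ∀ᶠ T : ℝ in atTop, (2 + 100000 * Real.log T) ^ 2 ≤ T := by
  have h1 : (fun x : ℝ => 2 + 100000 * Real.log x) =o[atTop] fun x : ℝ => x ^ (1 / 2 : ℝ) := by
    refine Asymptotics.IsLittleO.add ?_ ?_
    · exact Asymptotics.isLittleO_const_left.2 (Or.inr
        (tendsto_norm_atTop_atTop.comp (tendsto_rpow_atTop (by norm_num))))
    · exact (isLittleO_log_rpow_atTop (by norm_num : (0 : ℝ) < 1 / 2)).const_mul_left _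
  have h2 := h1.bound (by norm_num : (0 : ℝ) < 1)
  filter_upwards [h2, eventually_ge_atTop (1 : ℝ)] with x hx hx1
  have hx0 : (0 : ℝ) ≤ x := by linarith
  rw [one_mul, Real.norm_eq_abs, Real.norm_eq_abs, abs_of_nonneg (Real.rpow_nonneg hx0 _)] at hx
  calc (2 + 100000 * Real.log x) ^ 2 = |2 + 100000 * Real.log x| ^ 2 := (sq_abs _).symm
    _ ≤ (x ^ (1 / 2 : ℝ)) ^ 2 := pow_le_pow_left₀ (abs_nonneg _) hx 2
    _ = x := by
      rw [← Real.rpow_natCast, ← Real.rpow_mul hx0]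
      norm_num

private theorem sum_inv_le (R : ℕ) : ∑ a ∈ Icc 1 R, 1 / (a : ℝ) ≤ 1 + Real.log R := by
  have h := harmonic_le_one_add_log R
  rw [harmonic_eq_sum_Icc] at h
  push_cast at h
  simpa [one_div] using h

theorem pair_sums : ∃ T0 : ℝ, 1 ≤ T0 ∧ ∀ T : ℝ, T0 ≤ T → ∀ S : Finset (ℕ × ℕ),
    ((∀ s ∈ S, 1 ≤ s.1 ∧ 1 ≤ s.2 ∧ (s.1 : ℝ) ≤ 2 * T ^ 100000 ∧ (s.2 : ℝ) ≤ 2 * T ^ 100000) →
      ∑ s ∈ S, 1 / ((s.1 : ℝ) * s.2) ≤ T) ∧
    (∀ P : ℝ, 0 ≤ P → P ≤ 2 * T ^ 100000 → (∀ s ∈ S, 1 ≤ s.1 ∧ 1 ≤ s.2 ∧ (s.1 : ℝ) * s.2 ≤ P) →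
      (S.card : ℝ) ≤ T * P) := by
  obtain ⟨T1, hT1⟩ := (eventually_atTop.mp ev_log)
  refine ⟨max T1 1, le_max_right _ _, ?_⟩
  intro T hT S
  have hT1' : T1 ≤ T := le_trans (le_max_left _ _) hT
  have hT1'' : (1 : ℝ) ≤ T := le_trans (le_max_right _ _) hT
  have hlog := hT1 T hT1'
  have hTpos : (0 : ℝ) < T := by linarith
  have hpow : (1 : ℝ) ≤ T ^ 100000 := one_le_pow₀ hT1''
  -- part 1
  have part1 : (∀ s ∈ S, 1 ≤ s.1 ∧ 1 ≤ s.2 ∧ (s.1 : ℝ) ≤ 2 * T ^ 100000 ∧ (s.2 : ℝ) ≤ 2 * T ^ 100000) →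
      ∑ s ∈ S, 1 / ((s.1 : ℝ) * s.2) ≤ T := by
    intro hS
    generalize hR : ⌊2 * T ^ 100000⌋₊ = R
    have hR0 : (0 : ℝ) ≤ 2 * T ^ 100000 := by linarith
    have hsub : S ⊆ Icc 1 R ×ˢ Icc 1 R := by
      intro s hs
      obtain ⟨h1, h2, h3, h4⟩ := hS s hs
      rw [mem_product, mem_Icc, mem_Icc]
      refine ⟨⟨h1, ?_⟩, h2, ?_⟩
      · rw [← hR]; exact Nat.le_floor h3
      · rw [← hR]; exact Nat.le_floor h4
    have hR1 : 1 ≤ R := by
      rw [← hR]; apply Nat.le_floor; push_cast; linarith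
    have hRle : (R : ℝ) ≤ 2 * T ^ 100000 := by
      rw [← hR]; exact Nat.floor_le hR0
    have hRpos : (0 : ℝ) < R := by exact_mod_cast hR1
    have hlogR : Real.log R ≤ 1 + 100000 * Real.log T := by
      calc Real.log R ≤ Real.log (2 * T ^ 100000) := Real.log_le_log hRpos hRle
        _ = Real.log 2 + 100000 * Real.log T := by
          rw [Real.log_mul (by norm_num) (by positivity), Real.log_pow]
          norm_num
        _ ≤ 1 + 100000 * Real.log T := by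
          have := Real.log_two_lt_d9
          linarith
    have hlogR0 : 0 ≤ Real.log R := Real.log_nonneg (by exact_mod_cast hR1)
    calc ∑ s ∈ S, 1 / ((s.1 : ℝ) * s.2)
        ≤ ∑ s ∈ Icc 1 R ×ˢ Icc 1 R, 1 / ((s.1 : ℝ) * s.2) :=
          sum_le_sum_of_subset_of_nonneg hsub (fun _ _ _ => by positivity)
      _ = (∑ a ∈ Icc 1 R, 1 / (a : ℝ)) * (∑ b ∈ Icc 1 R, 1 / (b : ℝ)) := by
          rw [sum_mul_sum, sum_product]
          refine sum_congr rfl fun a _ => sum_congr rfl fun b _ => ?_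
          rw [one_div_mul_one_div]
      _ ≤ (1 + Real.log R) * (1 + Real.log R) :=
          mul_le_mul (sum_inv_le R) (sum_inv_le R) (sum_nonneg fun _ _ => by positivity)
            (by linarith)
      _ ≤ (2 + 100000 * Real.log T) * (2 + 100000 * Real.log T) :=
          mul_le_mul (by linarith) (by linarith) (by linarith) (by linarith)
      _ = (2 + 100000 * Real.log T) ^ 2 := by ring
      _ ≤ T := hlog
  refine ⟨part1, ?_⟩
  intro P hP0 hP hS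
  have hb : ∀ s ∈ S, (1 : ℝ) ≤ s.1 ∧ (1 : ℝ) ≤ s.2 := fun s hs =>
    ⟨by exact_mod_cast (hS s hs).1, by exact_mod_cast (hS s hs).2.1⟩
  have h1 : ∑ s ∈ S, 1 / ((s.1 : ℝ) * s.2) ≤ T := by
    apply part1
    intro s hs
    obtain ⟨e1, e2, e3⟩ := hS s hs
    obtain ⟨f1, f2⟩ := hb s hs
    refine ⟨e1, e2, ?_, ?_⟩
    · nlinarith
    · nlinarith
  calc (S.card : ℝ) = ∑ s ∈ S, (1 : ℝ) := by simp
    _ ≤ ∑ s ∈ S, P * (1 / ((s.1 : ℝ) * s.2)) := by
        refine sum_le_sum fun s hs => ?_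
        obtain ⟨e1, e2, e3⟩ := hS s hs
        obtain ⟨f1, f2⟩ := hb s hs
        rw [mul_one_div, le_div_iff₀ (by positivity), one_mul]
        exact e3
    _ = P * ∑ s ∈ S, 1 / ((s.1 : ℝ) * s.2) := by rw [mul_sum]
    _ ≤ P * T := mul_le_mul_of_nonneg_left h1 hP0
    _ = T * P := by ring

end LibSQ
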