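import Pool.Agent.LibSQ78.R12a

/-!
R12b1. Proof. `j = (g, α, β)`. `T0` = that of `pair_sums` (`≥ 10`). In all cases `α, β ≤ α β g^3 ≤ 2 T^100000`.
* Second claim: group by `g` (`Finset.sum_fiberwise`/`card_eq_sum_card_image` style, or inject `J` in `G ×ˢ S`, `G` = image of `j ↦ g`, `S` = image of `j ↦ (α, β)`:
  `∑_J 1/(α β g^2) ≤ (∑_G 1/g^2) (∑_S 1/(α β)) ≤ 2 * T`, by `pair_sums` (1) and `∑_{g ∈ G} 1/g^2 ≤ 2` for a Finset `G` of positive naturals
  (`sum_Ioo_inv_sq_le` with `k = 0`: `∑_{0 < i < n} 1/i^2 ≤ 2`).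
* First claim. For fixed `g ≤ T^4` the pairs `(α, β)` with `α β ≤ T^99988` number `≤ T * T^99988` (`pair_sums` (2)); there are at most `T^4` such `g`:
  total `≤ T^99993`. For fixed `g > T^4`: `α β ≤ 2 T^100000 / g^3`, so at most `T * 2 T^100000 / g^3` pairs, and
  `∑_{g > T^4} 1/g^3 ≤ (1/T^4) ∑_{g > T^4} 1/g^2 ≤ 2 / T^8` (`sum_Ioo_inv_sq_le k n : ∑_{k < i < n} 1/i^2 ≤ 2/(k+1)` with `k = ⌊T^4⌋₊`):
  total `≤ 4 T^99993`. So `card J ≤ 5 T^99993 ≤ T^99994`.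
-/

set_option autoImplicit false

namespace LibSQ

private theorem sq_r12b1_inv (k : ℕ) (G : Finset ℕ) (hG : ∀ g ∈ G, k < g) :
    ∑ g ∈ G, 1 / (g : ℝ) ^ 2 ≤ 2 / ((k : ℝ) + 1) := by
  have h1 : G ⊆ Finset.Ioo k (G.sup id + 1) := by
    intro g hg
    rw [Finset.mem_Ioo]
    exact ⟨hG g hg, Nat.lt_succ_of_le (Finset.le_sup (f := id) hg)⟩
  calc ∑ g ∈ G, 1 / (g : ℝ) ^ 2 ≤ ∑ g ∈ Finset.Ioo k (G.sup id + 1), 1 / (g : ℝ) ^ 2 :=
        Finset.sum_le_sum_of_subset_of_nonneg h1 fun i _ _ => by positivity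
    _ = ∑ g ∈ Finset.Ioo k (G.sup id + 1), ((g : ℝ) ^ 2)⁻¹ :=
        Finset.sum_congr rfl fun i _ => one_div _
    _ ≤ 2 / ((k : ℝ) + 1) := sum_Ioo_inv_sq_le k _

/-- `j = (g, α, β)`. -/
theorem triple_sums : ∃ T0 : ℝ, 10 ≤ T0 ∧ ∀ T : ℝ, T0 ≤ T → ∀ J : Finset (ℕ × ℕ × ℕ),
    (∀ j ∈ J, 0 < j.1 ∧ 0 < j.2.1 ∧ 0 < j.2.2 ∧
      (j.2.1 : ℝ) * j.2.2 * (j.1 : ℝ) ^ 3 ≤ 2 * T ^ 100000 ∧
      ((j.2.1 : ℝ) * j.2.2 ≤ T ^ 99988 ∨ T ^ 4 < (j.1 : ℝ))) →
    (J.card : ℝ) ≤ T ^ 99994 ∧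
      ∑ j ∈ J, 1 / ((j.2.1 : ℝ) * j.2.2 * (j.1 : ℝ) ^ 2) ≤ 2 * T := by
  classical
  obtain ⟨T1, hT1, hps⟩ := pair_sums
  refine ⟨max T1 10, le_max_right _ _, fun T hT J hJ => ?_⟩
  have hTT1 : T1 ≤ T := (le_max_left _ _).trans hT
  have hT10 : (10 : ℝ) ≤ T := (le_max_right _ _).trans hT
  have hT0 : (0 : ℝ) < T := by linarith
  have hT1' : (1 : ℝ) ≤ T := by linarith
  -- the powers
  obtain ⟨B, hB⟩ : ∃ B : ℝ, B = T ^ 99988 := ⟨_, rfl⟩
  have hB0 : 0 < B := by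
    rw [hB]
    exact pow_pos hT0 _
  have e0 : T ^ 100000 = B * T ^ 12 := by
    rw [hB, ← pow_add]
  have e4 : T ^ 99994 = B * T ^ 6 := by
    rw [hB, ← pow_add]
  rw [e4]
  -- elementary facts for the elements
  have hpos : ∀ j ∈ J, (1 : ℝ) ≤ j.1 ∧ (1 : ℝ) ≤ j.2.1 ∧ (1 : ℝ) ≤ j.2.2 := by
    intro j hj
    obtain ⟨h1, h2, h3, -⟩ := hJ j hj
    exact ⟨by exact_mod_cast h1, by exact_mod_cast h2, by exact_mod_cast h3⟩
  have hab : ∀ j ∈ J, (j.2.1 : ℝ) ≤ 2 * T ^ 100000 ∧ (j.2.2 : ℝ) ≤ 2 * T ^ 100000 := by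
    intro j hj
    obtain ⟨p1, p2, p3⟩ := hpos j hj
    obtain ⟨-, -, -, h4, -⟩ := hJ j hj
    have q1 : (1 : ℝ) ≤ (j.1 : ℝ) ^ 3 := one_le_pow₀ p1
    have q2 : (j.2.1 : ℝ) * j.2.2 ≤ (j.2.1 : ℝ) * j.2.2 * (j.1 : ℝ) ^ 3 :=
      le_mul_of_one_le_right (by positivity) q1
    have q3 : (j.2.1 : ℝ) ≤ (j.2.1 : ℝ) * j.2.2 := le_mul_of_one_le_right (by positivity) p3
    have q4 : (j.2.2 : ℝ) ≤ (j.2.1 : ℝ) * j.2.2 := le_mul_of_one_le_left (by positivity) p2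
    exact ⟨q3.trans (q2.trans h4), q4.trans (q2.trans h4)⟩
  constructor
  · -- the number of triples
    set J1 := J.filter fun j => (j.1 : ℝ) ≤ T ^ 4 with hJ1
    set J2 := J.filter fun j => ¬ (j.1 : ℝ) ≤ T ^ 4 with hJ2
    have hcard : J.card = J1.card + J2.card := (Finset.card_filter_add_card_filter_not _).symm
    have c1 : (J1.card : ℝ) ≤ B * T ^ 5 := by
      have hS := (hps T hTT1 (J1.image Prod.snd)).2 B hB0.le (by
        rw [e0]
        have : (1 : ℝ) ≤ T ^ 12 := one_le_pow₀ hT1'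
        nlinarith) (by
        intro s hs
        rw [Finset.mem_image] at hs
        obtain ⟨j, hj, rfl⟩ := hs
        rw [hJ1, Finset.mem_filter] at hj
        obtain ⟨h1, h2, h3, h4, h5⟩ := hJ j hj.1
        refine ⟨h2, h3, ?_⟩
        rcases h5 with h5 | h5
        · rw [hB]
          exact h5
        · exact absurd h5 (not_lt.2 hj.2))
      have hsub : J1 ⊆ Finset.Icc 1 ⌊T ^ 4⌋₊ ×ˢ J1.image Prod.snd := by
        intro j hj
        rw [Finset.mem_product, Finset.mem_Icc]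
        refine ⟨⟨?_, ?_⟩, Finset.mem_image_of_mem _ hj⟩
        · rw [hJ1, Finset.mem_filter] at hj
          exact (hJ j hj.1).1
        · rw [hJ1, Finset.mem_filter] at hj
          exact Nat.le_floor hj.2
      have h1 := Finset.card_le_card hsub
      rw [Finset.card_product, Nat.card_Icc, Nat.add_sub_cancel] at h1
      have h2 : (J1.card : ℝ) ≤ (⌊T ^ 4⌋₊ : ℝ) * ((J1.image Prod.snd).card : ℝ) := by
        exact_mod_cast h1
      have h3 : (⌊T ^ 4⌋₊ : ℝ) ≤ T ^ 4 := Nat.floor_le (by positivity)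
      calc (J1.card : ℝ) ≤ (⌊T ^ 4⌋₊ : ℝ) * ((J1.image Prod.snd).card : ℝ) := h2
        _ ≤ T ^ 4 * (T * B) := mul_le_mul h3 hS (by positivity) (by positivity)
        _ = B * T ^ 5 := by ring
    have c2 : (J2.card : ℝ) ≤ 4 * (B * T ^ 5) := by
      have hG : ∀ g ∈ J2.image Prod.fst, T ^ 4 < (g : ℝ) := by
        intro g hg
        rw [Finset.mem_image] at hg
        obtain ⟨j, hj, rfl⟩ := hg
        rw [hJ2, Finset.mem_filter] at hj
        exact not_le.1 hj.2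
      have hfib : ∀ g ∈ J2.image Prod.fst,
          ((J2.filter fun j => j.1 = g).card : ℝ) ≤ 2 * B * T ^ 9 * (1 / (g : ℝ) ^ 2) := by
        intro g hg
        have hTg := hG g hg
        have hg0 : (0 : ℝ) < g := lt_trans (by positivity) hTg
        have hg1 : (1 : ℝ) ≤ (g : ℝ) := by
          have : (1 : ℝ) ≤ T ^ 4 := one_le_pow₀ hT1'
          linarith
        have hinj : Set.InjOn Prod.snd ((J2.filter fun j => j.1 = g : Finset (ℕ × ℕ × ℕ)) :
            Set (ℕ × ℕ × ℕ)) := by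
          intro j hj j' hj' he
          rw [Finset.mem_coe, Finset.mem_filter] at hj hj'
          exact Prod.ext (hj.2.trans hj'.2.symm) he
        rw [← Finset.card_image_of_injOn hinj]
        have hg3 : (1 : ℝ) ≤ (g : ℝ) ^ 3 := one_le_pow₀ hg1
        have h0 : (0 : ℝ) ≤ 2 * T ^ 100000 := by
          rw [e0]
          positivity
        have hS := (hps T hTT1 ((J2.filter fun j => j.1 = g).image Prod.snd)).2
          (2 * T ^ 100000 / (g : ℝ) ^ 3) (div_nonneg h0 (by positivity)) (div_le_self h0 hg3) (by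
          intro s hs
          rw [Finset.mem_image] at hs
          obtain ⟨j, hj, rfl⟩ := hs
          rw [Finset.mem_filter, hJ2, Finset.mem_filter] at hj
          obtain ⟨⟨hjJ, -⟩, rfl⟩ := hj
          obtain ⟨h1, h2, h3, h4, h5⟩ := hJ j hjJ
          refine ⟨h2, h3, ?_⟩
          rw [le_div_iff₀ (by positivity)]
          exact h4)
        refine hS.trans ?_
        rw [e0]
        have k1 : T * (2 * (B * T ^ 12) / (g : ℝ) ^ 3) = 2 * B * T ^ 9 * T ^ 4 / (g : ℝ) ^ 3 := by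
          ring
        have k2 : 2 * B * T ^ 9 * (1 / (g : ℝ) ^ 2) = 2 * B * T ^ 9 * (g : ℝ) / (g : ℝ) ^ 3 := by
          field_simp
        rw [k1, k2]
        exact div_le_div_of_nonneg_right (mul_le_mul_of_nonneg_left hTg.le (by positivity))
          (by positivity)
      have h1 : (J2.card : ℝ) =
          ∑ g ∈ J2.image Prod.fst, ((J2.filter fun j => j.1 = g).card : ℝ) := by
        exact_mod_cast Finset.card_eq_sum_card_image Prod.fst J2
      have h2 := sq_r12b1_inv ⌊T ^ 4⌋₊ (J2.image Prod.fst) (by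
        intro g hg
        exact (Nat.floor_lt (by positivity)).2 (hG g hg))
      have h3 : (2 : ℝ) / ((⌊T ^ 4⌋₊ : ℝ) + 1) ≤ 2 / T ^ 4 :=
        div_le_div_of_nonneg_left (by norm_num) (by positivity) (Nat.lt_floor_add_one _).le
      calc (J2.card : ℝ) = ∑ g ∈ J2.image Prod.fst, ((J2.filter fun j => j.1 = g).card : ℝ) := h1
        _ ≤ ∑ g ∈ J2.image Prod.fst, 2 * B * T ^ 9 * (1 / (g : ℝ) ^ 2) := Finset.sum_le_sum hfib
        _ = 2 * B * T ^ 9 * ∑ g ∈ J2.image Prod.fst, 1 / (g : ℝ) ^ 2 := by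
          rw [Finset.mul_sum]
        _ ≤ 2 * B * T ^ 9 * (2 / T ^ 4) :=
          mul_le_mul_of_nonneg_left (h2.trans h3) (by positivity)
        _ = 4 * (B * T ^ 5) := by
          field_simp
          ring
    rw [hcard, Nat.cast_add]
    have h5 : 5 * (B * T ^ 5) ≤ T * (B * T ^ 5) :=
      mul_le_mul_of_nonneg_right (by linarith) (by positivity)
    calc (J1.card : ℝ) + J2.card ≤ B * T ^ 5 + 4 * (B * T ^ 5) := add_le_add c1 c2
      _ = 5 * (B * T ^ 5) := by ring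
      _ ≤ T * (B * T ^ 5) := h5
      _ = B * T ^ 6 := by ring
  · -- the sum
    have hsub : J ⊆ J.image Prod.fst ×ˢ J.image Prod.snd := by
      intro j hj
      rw [Finset.mem_product]
      exact ⟨Finset.mem_image_of_mem _ hj, Finset.mem_image_of_mem _ hj⟩
    have hS := (hps T hTT1 (J.image Prod.snd)).1 (by
      intro s hs
      rw [Finset.mem_image] at hs
      obtain ⟨j, hj, rfl⟩ := hs
      obtain ⟨h1, h2, h3, -⟩ := hJ j hj
      exact ⟨h2, h3, hab j hj⟩)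
    have hG := sq_r12b1_inv 0 (J.image Prod.fst) (by
      intro g hg
      rw [Finset.mem_image] at hg
      obtain ⟨j, hj, rfl⟩ := hg
      exact (hJ j hj).1)
    have hG' : ∑ g ∈ J.image Prod.fst, 1 / (g : ℝ) ^ 2 ≤ 2 := by
      refine hG.trans ?_
      norm_num
    calc ∑ j ∈ J, 1 / ((j.2.1 : ℝ) * j.2.2 * (j.1 : ℝ) ^ 2)
        ≤ ∑ j ∈ J.image Prod.fst ×ˢ J.image Prod.snd,
          1 / ((j.2.1 : ℝ) * j.2.2 * (j.1 : ℝ) ^ 2) :=
          Finset.sum_le_sum_of_subset_of_nonneg hsub fun i _ _ => by positivity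
      _ = ∑ g ∈ J.image Prod.fst, ∑ s ∈ J.image Prod.snd,
          1 / (g : ℝ) ^ 2 * (1 / ((s.1 : ℝ) * s.2)) := by
          rw [Finset.sum_product]
          refine Finset.sum_congr rfl fun g _ => Finset.sum_congr rfl fun s _ => ?_
          rw [one_div_mul_one_div, mul_comm]
      _ = (∑ g ∈ J.image Prod.fst, 1 / (g : ℝ) ^ 2) *
          ∑ s ∈ J.image Prod.snd, 1 / ((s.1 : ℝ) * s.2) := by
          rw [Finset.sum_mul_sum]
      _ ≤ 2 * T := mul_le_mul hG' hS (Finset.sum_nonneg fun i _ => by positivity) (by norm_num)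

end LibSQ
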