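import Pool.Agent.LibSQ78.Defs
import Pool.Agent.LibSQ78.R12b1
import Pool.Agent.LibSQ78.R10d

/-!
R12b. Proof. `J` = the image of `𝓠` under `t ↦ (g, α, β)`. For `j = (g, α, β) ∈ J` the fibre, mapped to `(u, v)` (injective), satisfies the
hypotheses of `uv_count` with `K = 2 T^100000 / (α β g^3)`, `X0 = T^98000 / g^2`: `1 ≤ K` because `α v^3 - β u^3 ≥ 1` (integers) and it is `≤ K`;
`K ≤ 2 T^100000`. `√X0 = T^49000 / g`. So the fibre has at most `T (1 + 4 K / √X0) = T + 8 T^51001 / (α β g^2)` elements.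
Sum over `j ∈ J` (`Finset.card_eq_sum_card_image` or `card_eq_sum_card_fiberwise`): `card 𝓠 ≤ T * card J + 8 T^51001 ∑_J 1/(α β g^2)`
`≤ T * T^99994 + 16 T^51002 ≤ 2 T^99995` by `triple_sums` (`α β g^3 ≤ 2 T^100000` is `1 ≤ K`).
-/

set_option autoImplicit false

namespace LibSQ

open Finset

private theorem fibre_K {T : ℝ} (hT : 1 ≤ T) {g α β : ℕ} {s : ℕ × ℕ} (hg : 0 < g) (hα : 0 < α)
    (hβ : 0 < β) (h : IsUV α β (2 * T ^ 100000 / (α * β * (g : ℝ) ^ 3)) s) :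
    1 ≤ 2 * T ^ 100000 / (α * β * (g : ℝ) ^ 3) ∧
      2 * T ^ 100000 / (α * β * (g : ℝ) ^ 3) ≤ 2 * T ^ 100000 ∧
      (α : ℝ) * β * (g : ℝ) ^ 3 ≤ 2 * T ^ 100000 := by
  obtain ⟨-, -, -, h4, h5⟩ := h
  have hT0 : (0 : ℝ) < T := by linarith
  have hg1 : (1 : ℝ) ≤ g := by exact_mod_cast hg
  have hα1 : (1 : ℝ) ≤ α := by exact_mod_cast hα
  have hβ1 : (1 : ℝ) ≤ β := by exact_mod_cast hβ
  have h6 : (β : ℝ) * (s.1 : ℝ) ^ 3 + 1 ≤ α * (s.2 : ℝ) ^ 3 := by exact_mod_cast h4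
  have h7 : 1 ≤ 2 * T ^ 100000 / (α * β * (g : ℝ) ^ 3) := by linarith
  have hP : (0 : ℝ) < 2 * T ^ 100000 := by positivity
  have hden : (1 : ℝ) ≤ α * β * (g : ℝ) ^ 3 := by
    have e1 : (1 : ℝ) ≤ (g : ℝ) ^ 3 := one_le_pow₀ hg1
    have e2 : (1 : ℝ) ≤ α * β := one_le_mul_of_one_le_of_one_le hα1 hβ1
    exact one_le_mul_of_one_le_of_one_le e2 e1
  refine ⟨h7, div_le_self hP.le hden, ?_⟩
  rw [le_div_iff₀ (by linarith), one_mul] at h7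
  exact h7

private theorem fibre_val {T : ℝ} (hT : 1 ≤ T) {g α β : ℕ} (hg : 0 < g) (hα : 0 < α)
    (hβ : 0 < β) :
    T * (1 + 4 * (2 * T ^ 100000 / (α * β * (g : ℝ) ^ 3)) / √(T ^ 98000 / (g : ℝ) ^ 2)) =
      T + 8 * T ^ 51001 * (1 / ((α : ℝ) * β * (g : ℝ) ^ 2)) := by
  have hT0 : (0 : ℝ) < T := by linarith
  have hg0 : (0 : ℝ) < g := by exact_mod_cast hg
  have hα0 : (0 : ℝ) < α := by exact_mod_cast hα
  have hβ0 : (0 : ℝ) < β := by exact_mod_cast hβ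
  have h1 : T ^ 98000 / (g : ℝ) ^ 2 = (T ^ 49000 / g) ^ 2 := by
    rw [div_pow, ← pow_mul]
  have h2 : T ^ 100000 = T ^ 49000 * T ^ 51000 := by rw [← pow_add]
  have h3 : T ^ 51001 = T * T ^ 51000 := by rw [← pow_succ']
  have hA : (0 : ℝ) < T ^ 49000 := by positivity
  rw [h1, Real.sqrt_sq (by positivity), h2, h3]
  generalize T ^ 49000 = A at hA
  generalize T ^ 51000 = B
  field_simp
  ring

/-- The solutions with `α β` small or `g` large. `t = (g, α, β, u, v)`. -/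
theorem caseI : ∃ T0 : ℝ, 1 ≤ T0 ∧ ∀ T : ℝ, T0 ≤ T → ∀ 𝓠 : Finset (ℕ × ℕ × ℕ × ℕ × ℕ),
    (∀ t ∈ 𝓠, 0 < t.1 ∧ 0 < t.2.1 ∧ 0 < t.2.2.1 ∧
      IsUV t.2.1 t.2.2.1 (2 * T ^ 100000 / (t.2.1 * t.2.2.1 * (t.1 : ℝ) ^ 3)) t.2.2.2 ∧
      T ^ 98000 / (t.1 : ℝ) ^ 2 ≤ (t.2.1 : ℝ) * t.2.2.1 * t.2.2.2.1 * t.2.2.2.2 ∧
      Real.log t.2.2.2.1 ≤ T ^ 250 ∧
      ((t.2.1 : ℝ) * t.2.2.1 ≤ T ^ 99988 ∨ T ^ 4 < (t.1 : ℝ))) →
    (𝓠.card : ℝ) ≤ 2 * T ^ 99995 := by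
  obtain ⟨T1, hT1, H1⟩ := uv_count
  obtain ⟨T2, hT2, H2⟩ := triple_sums
  refine ⟨max T1 T2, le_trans hT1 (le_max_left _ _), ?_⟩
  intro T hT 𝓠 hQ
  have hTT1 : T1 ≤ T := le_trans (le_max_left _ _) hT
  have hTT2 : T2 ≤ T := le_trans (le_max_right _ _) hT
  have hT10 : (10 : ℝ) ≤ T := le_trans hT2 hTT2
  have hTone : (1 : ℝ) ≤ T := by linarith
  have hT0 : (0 : ℝ) < T := by linarith
  set f : ℕ × ℕ × ℕ × ℕ × ℕ → ℕ × ℕ × ℕ := fun t => (t.1, t.2.1, t.2.2.1) with hf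
  have hcard : (𝓠.card : ℝ) = ∑ j ∈ 𝓠.image f, ((𝓠.filter fun t => f t = j).card : ℝ) := by
    rw [card_eq_sum_card_image f 𝓠]
    push_cast
    rfl
  -- the fibres
  have hfib : ∀ j ∈ 𝓠.image f, ((𝓠.filter fun t => f t = j).card : ℝ) ≤
      T + 8 * T ^ 51001 * (1 / ((j.2.1 : ℝ) * j.2.2 * (j.1 : ℝ) ^ 2)) := by
    intro j hj
    obtain ⟨t0, ht0, rfl⟩ := mem_image.mp hj
    obtain ⟨g0, a0, b0, e4, -, -, -⟩ := hQ t0 ht0
    obtain ⟨k1, k2, -⟩ := fibre_K hTone g0 a0 b0 e4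
    have hinj : Set.InjOn (fun t : ℕ × ℕ × ℕ × ℕ × ℕ => t.2.2.2)
        ((𝓠.filter fun t => f t = f t0) : Set (ℕ × ℕ × ℕ × ℕ × ℕ)) := by
      intro t ht t' ht' htt
      have h1 : f t = f t0 := (mem_filter.mp ht).2
      have h2 : f t' = f t0 := (mem_filter.mp ht').2
      have h3 : f t = f t' := h1.trans h2.symm
      rw [hf] at h3
      simp only [Prod.mk.injEq] at h3
      obtain ⟨p1, p2, p3⟩ := h3
      exact Prod.ext p1 (Prod.ext p2 (Prod.ext p3 htt))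
    rw [← card_image_of_injOn hinj]
    have hg0R : (0 : ℝ) < (t0.1 : ℝ) := by exact_mod_cast g0
    have := H1 T hTT1 t0.2.1 t0.2.2.1 (2 * T ^ 100000 / (t0.2.1 * t0.2.2.1 * (t0.1 : ℝ) ^ 3))
      (T ^ 98000 / (t0.1 : ℝ) ^ 2) a0 b0 k1 k2 (by positivity)
      (image (fun t : ℕ × ℕ × ℕ × ℕ × ℕ => t.2.2.2) (𝓠.filter fun t => f t = f t0)) ?_
    · rw [fibre_val hTone g0 a0 b0] at this
      exact this
    · intro s hs
      obtain ⟨t, ht, rfl⟩ := mem_image.mp hs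
      obtain ⟨htQ, hft⟩ := mem_filter.mp ht
      rw [hf] at hft
      simp only [Prod.mk.injEq] at hft
      obtain ⟨p1, p2, p3⟩ := hft
      obtain ⟨-, -, -, q4, q5, q6, -⟩ := hQ t htQ
      rw [p1, p2, p3] at q4 q5
      exact ⟨q4, q5, q6⟩
  have hJ : ∀ j ∈ 𝓠.image f, 0 < j.1 ∧ 0 < j.2.1 ∧ 0 < j.2.2 ∧
      (j.2.1 : ℝ) * j.2.2 * (j.1 : ℝ) ^ 3 ≤ 2 * T ^ 100000 ∧
      ((j.2.1 : ℝ) * j.2.2 ≤ T ^ 99988 ∨ T ^ 4 < (j.1 : ℝ)) := by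
    intro j hj
    obtain ⟨t0, ht0, rfl⟩ := mem_image.mp hj
    obtain ⟨g0, a0, b0, e4, -, -, e7⟩ := hQ t0 ht0
    obtain ⟨-, -, k3⟩ := fibre_K hTone g0 a0 b0 e4
    exact ⟨g0, a0, b0, k3, e7⟩
  obtain ⟨J1, J2⟩ := H2 T hTT2 (𝓠.image f) hJ
  have hA : (0 : ℝ) ≤ 8 * T ^ 51001 := by positivity
  calc (𝓠.card : ℝ) = ∑ j ∈ 𝓠.image f, ((𝓠.filter fun t => f t = j).card : ℝ) := hcard
    _ ≤ ∑ j ∈ 𝓠.image f, (T + 8 * T ^ 51001 * (1 / ((j.2.1 : ℝ) * j.2.2 * (j.1 : ℝ) ^ 2))) :=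
        sum_le_sum hfib
    _ = T * ((𝓠.image f).card : ℝ) +
        8 * T ^ 51001 * ∑ j ∈ 𝓠.image f, 1 / ((j.2.1 : ℝ) * j.2.2 * (j.1 : ℝ) ^ 2) := by
        rw [sum_add_distrib, sum_const, nsmul_eq_mul, mul_sum, mul_comm T]
    _ ≤ T * T ^ 99994 + 8 * T ^ 51001 * (2 * T) :=
        add_le_add (mul_le_mul_of_nonneg_left J1 hT0.le) (mul_le_mul_of_nonneg_left J2 hA)
    _ ≤ 2 * T ^ 99995 := by
        have e1 : T * T ^ 99994 = T ^ 99995 := by rw [← pow_succ']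
        have e2 : 8 * T ^ 51001 * (2 * T) = 16 * T ^ 51002 := by
          rw [show (51002 : ℕ) = 51001 + 1 from rfl, pow_succ]
          generalize T ^ 51001 = B
          ring
        have e3 : 16 * T ^ 51002 ≤ T ^ 99995 := by
          have e4 : T ^ 99995 = T ^ 48993 * T ^ 51002 := by rw [← pow_add]
          have e5 : (16 : ℝ) ≤ T ^ 48993 := by
            calc (16 : ℝ) ≤ T ^ 2 := by nlinarith
              _ ≤ T ^ 48993 := pow_le_pow_right₀ hTone (by norm_num)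
          rw [e4]
          exact mul_le_mul_of_nonneg_right e5 (by positivity)
        rw [e1, e2]
        linarith

end LibSQ
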