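import Pool.Agent.LibSQ78.R8
import Pool.Agent.LibSQ78.R10d

/-!
R12c. Proof. `J` = the image of `𝓠` under `t ↦ (α, β)`, then `card J ≤ 2 T^99950`: let `J1 = {α ≤ β}`, `J2 = {β < α}`. `pairs_large` applies to `J1` and to
the swap of `J2`: with `(A, B) = (min, max)`. The conditions: `A ≥ 1`; `A B = α β ≤ 2 T^100000` (from `αβ g^3 (αv^3-βu^3) ≤ 2 T^100000`,
that is from `IsUV`: `1 ≤ α v^3 - β u^3 ≤ K`); `B^2 ≥ A B > T^99988` so `B ≥ T^49994`; `IsPair (2 T^12) (T^250)`: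
for `J1` take `(p, q) = (v, u)`, for `J2` take `(p, q) = (u, v)`;
`|A p^3 - B q^3| = α v^3 - β u^3 ≤ 2 T^100000 / (α β g^3) ≤ 2 T^12`, it is nonzero; `log q ≤ T^250` (both `log u`, `log v ≤ T^250`).
For fixed `(α, β)` and `g` (`g ≤ T^4`: at most `T^4` values) the number of `(u, v)` is at most `T (1 + 4 K / √X0)` by `uv_count`, with
`K = 2 T^100000 / (α β g^3) ≤ 2 T^12`, `X0 = T^98000 / g^2 ≥ T^97992`, so at most `2 T`. So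
`card 𝓠 ≤ 2 T^99950 * T^4 * 2 T = 4 T^99955 ≤ T^99995`.
-/

set_option autoImplicit false

namespace LibSQ

/-- The hypotheses on one element. -/
def Pt (T : ℝ) (t : ℕ × ℕ × ℕ × ℕ × ℕ) : Prop :=
  0 < t.1 ∧ 0 < t.2.1 ∧ 0 < t.2.2.1 ∧
      IsUV t.2.1 t.2.2.1 (2 * T ^ 100000 / (t.2.1 * t.2.2.1 * (t.1 : ℝ) ^ 3)) t.2.2.2 ∧
      T ^ 98000 / (t.1 : ℝ) ^ 2 ≤ (t.2.1 : ℝ) * t.2.2.1 * t.2.2.2.1 * t.2.2.2.2 ∧
      Real.log t.2.2.2.1 ≤ T ^ 250 ∧ Real.log t.2.2.2.2 ≤ T ^ 250 ∧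
      T ^ 99988 < (t.2.1 : ℝ) * t.2.2.1 ∧ (t.1 : ℝ) ≤ T ^ 4

theorem IsUV.one_le {α β : ℕ} {K : ℝ} {s : ℕ × ℕ} (h : IsUV α β K s) :
    1 ≤ (α : ℝ) * (s.2 : ℝ) ^ 3 - β * (s.1 : ℝ) ^ 3 := by
  have h1 : β * s.1 ^ 3 + 1 ≤ α * s.2 ^ 3 := h.2.2.2.1
  have h2 : ((β : ℝ) * (s.1 : ℝ) ^ 3 + 1) ≤ α * (s.2 : ℝ) ^ 3 := by exact_mod_cast h1
  linarith

/-- Bounds for `K`, `α β`. -/
theorem Pt.bounds {T : ℝ} (hT : 2 ≤ T) {t : ℕ × ℕ × ℕ × ℕ × ℕ} (h : Pt T t) :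
    1 ≤ 2 * T ^ 100000 / (t.2.1 * t.2.2.1 * (t.1 : ℝ) ^ 3) ∧
    2 * T ^ 100000 / (t.2.1 * t.2.2.1 * (t.1 : ℝ) ^ 3) ≤ 2 * T ^ 12 ∧
    (t.2.1 : ℝ) * t.2.2.1 ≤ 2 * T ^ 100000 := by
  obtain ⟨g, α, β, u, v⟩ := t
  obtain ⟨h1, h2, h3, h4, h5, h6, h7, h8, h9⟩ := h
  simp only at h1 h2 h3 h4 h5 h6 h7 h8 h9 ⊢
  have hg : (1 : ℝ) ≤ g := by exact_mod_cast h1
  have hα : (1 : ℝ) ≤ α := by exact_mod_cast h2
  have hβ : (1 : ℝ) ≤ β := by exact_mod_cast h3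
  have hg3 : (1 : ℝ) ≤ (g : ℝ) ^ 3 := one_le_pow₀ hg
  have hK : 1 ≤ 2 * T ^ 100000 / (α * β * (g : ℝ) ^ 3) := le_trans h4.one_le h4.2.2.2.2
  have hαβ : (0 : ℝ) < α * β := by positivity
  have hD : (0 : ℝ) < α * β * (g : ℝ) ^ 3 := by positivity
  refine ⟨hK, ?_, ?_⟩
  · rw [div_le_iff₀ hD]
    have h10 : T ^ 99988 ≤ α * β * (g : ℝ) ^ 3 := by
      calc T ^ 99988 ≤ (α : ℝ) * β := h8.le
        _ = (α * β) * 1 := (mul_one _).symm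
        _ ≤ α * β * (g : ℝ) ^ 3 := by gcongr
    calc 2 * T ^ 100000 = 2 * T ^ 12 * T ^ 99988 := by rw [mul_assoc, ← pow_add]
      _ ≤ 2 * T ^ 12 * (α * β * (g : ℝ) ^ 3) := by gcongr
  · rw [le_div_iff₀ hD] at hK
    calc (α : ℝ) * β = (α * β) * 1 := (mul_one _).symm
      _ ≤ α * β * (g : ℝ) ^ 3 := by gcongr
      _ ≤ 2 * T ^ 100000 := by linarith

/-- The larger coefficient is large. -/
theorem large_coef {T a b : ℝ} (hT : 2 ≤ T) (ha : 1 ≤ a) (hab : a ≤ b) (h : T ^ 99988 < a * b) :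
    T ^ 49994 ≤ b := by
  by_contra hcon
  push Not at hcon
  have h0 : 0 ≤ b := by linarith
  have h1 : a * b ≤ T ^ 99988 := by
    calc a * b ≤ b * b := by gcongr
      _ ≤ T ^ 49994 * T ^ 49994 := by gcongr
      _ = T ^ 99988 := by rw [← pow_add]
  linarith

/-- The number of pairs `(α, β)`. -/
theorem pair_count (T : ℝ) (hT : 2 ≤ T)
    (hPL : ∀ 𝓟 : Finset (ℕ × ℕ),
      (∀ P ∈ 𝓟, 1 ≤ P.1 ∧ P.1 ≤ P.2 ∧ (P.1 : ℝ) * P.2 ≤ 2 * T ^ 100000 ∧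
        T ^ 49994 ≤ (P.2 : ℝ) ∧ IsPair (2 * T ^ 12) (T ^ 250) P) → (𝓟.card : ℝ) ≤ T ^ 99950)
    (𝓠 : Finset (ℕ × ℕ × ℕ × ℕ × ℕ)) (h𝓠 : ∀ t ∈ 𝓠, Pt T t) :
    ((𝓠.image (fun t => (t.2.1, t.2.2.1))).card : ℝ) ≤ 2 * T ^ 99950 := by
  classical
  obtain ⟨J, hJ⟩ : ∃ J, J = 𝓠.image (fun t => (t.2.1, t.2.2.1)) := ⟨_, rfl⟩
  rw [← hJ]
  have hmem : ∀ P ∈ J, ∃ t ∈ 𝓠, P = (t.2.1, t.2.2.1) := by
    intro P hP
    rw [hJ] at hP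
    obtain ⟨t, ht, h⟩ := Finset.mem_image.mp hP
    exact ⟨t, ht, h.symm⟩
  have h1 : ((J.filter (fun P => P.1 ≤ P.2)).card : ℝ) ≤ T ^ 99950 := by
    apply hPL
    intro P hP
    obtain ⟨hP1, hP2⟩ := Finset.mem_filter.mp hP
    obtain ⟨t, ht, rfl⟩ := hmem P hP1
    have hpt := h𝓠 t ht
    obtain ⟨hK1, hK2, hK3⟩ := hpt.bounds hT
    obtain ⟨a1, a2, a3, a4, a5, a6, a7, a8, a9⟩ := hpt
    have hα : (1 : ℝ) ≤ t.2.1 := by exact_mod_cast a2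
    have hle : (t.2.1 : ℝ) ≤ t.2.2.1 := by exact_mod_cast hP2
    refine ⟨a2, hP2, hK3, large_coef hT hα hle a8, t.2.2.2.2, t.2.2.2.1, a4.2.1, a4.1,
      a4.2.2.1.symm, ?_, ?_, a6⟩
    · have h5 := a4.2.2.2.1
      have h6 : ((t.2.2.1 : ℤ) * (t.2.2.2.1 : ℤ) ^ 3) < (t.2.1 : ℤ) * (t.2.2.2.2 : ℤ) ^ 3 := by
        exact_mod_cast h5
      exact ne_of_gt h6
    · have h5 := a4.one_le
      have h6 := a4.2.2.2.2
      push_cast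
      rw [abs_of_nonneg (by linarith)]
      linarith
  have h2 : ((J.filter (fun P => ¬ P.1 ≤ P.2)).card : ℝ) ≤ T ^ 99950 := by
    have hc : ((J.filter (fun P => ¬ P.1 ≤ P.2)).image Prod.swap).card =
        (J.filter (fun P => ¬ P.1 ≤ P.2)).card :=
      Finset.card_image_of_injective _ Prod.swap_injective
    rw [← hc]
    apply hPL
    intro P hP
    obtain ⟨P', hP', rfl⟩ := Finset.mem_image.mp hP
    obtain ⟨hP1, hP2⟩ := Finset.mem_filter.mp hP'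
    obtain ⟨t, ht, rfl⟩ := hmem P' hP1
    have hpt := h𝓠 t ht
    obtain ⟨hK1, hK2, hK3⟩ := hpt.bounds hT
    obtain ⟨a1, a2, a3, a4, a5, a6, a7, a8, a9⟩ := hpt
    simp only [not_le] at hP2
    have hβ : (1 : ℝ) ≤ t.2.2.1 := by exact_mod_cast a3
    have hle : (t.2.2.1 : ℝ) ≤ t.2.1 := by exact_mod_cast hP2.le
    have a8' : T ^ 99988 < (t.2.2.1 : ℝ) * t.2.1 := by rw [mul_comm]; exact a8
    refine ⟨a3, hP2.le, ?_, large_coef hT hβ hle a8', t.2.2.2.1, t.2.2.2.2, a4.1, a4.2.1,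
      a4.2.2.1, ?_, ?_, a7⟩
    · show (t.2.2.1 : ℝ) * t.2.1 ≤ _
      rw [mul_comm]; exact hK3
    · have h5 := a4.2.2.2.1
      have h6 : ((t.2.2.1 : ℤ) * (t.2.2.2.1 : ℤ) ^ 3) < (t.2.1 : ℤ) * (t.2.2.2.2 : ℤ) ^ 3 := by
        exact_mod_cast h5
      exact ne_of_lt h6
    · have h5 := a4.one_le
      have h6 := a4.2.2.2.2
      show |(((t.2.2.1 : ℤ) * (t.2.2.2.1 : ℤ) ^ 3 - t.2.1 * (t.2.2.2.2 : ℤ) ^ 3 : ℤ) : ℝ)| ≤ _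
      push_cast
      rw [abs_of_nonpos (by linarith)]
      linarith
  have hsplit := Finset.card_filter_add_card_filter_not (s := J) (p := fun P : ℕ × ℕ => P.1 ≤ P.2)
  have h3 : (J.card : ℝ) = (J.filter (fun P => P.1 ≤ P.2)).card +
      (J.filter (fun P => ¬ P.1 ≤ P.2)).card := by
    rw [← hsplit]; push_cast; ring
  rw [h3]
  linarith

/-- The fibre over `(g, α, β)`. -/
theorem fibre_count (T : ℝ) (hT : 2 ≤ T)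
    (hUV : ∀ (α β : ℕ) (K X0 : ℝ), 0 < α → 0 < β →
      1 ≤ K → K ≤ 2 * T ^ 100000 → 0 < X0 → ∀ S : Finset (ℕ × ℕ),
      (∀ s ∈ S, IsUV α β K s ∧ X0 ≤ (α : ℝ) * β * s.1 * s.2 ∧ Real.log s.1 ≤ T ^ 250) →
      (S.card : ℝ) ≤ T * (1 + 4 * K / √X0))
    (𝓠 : Finset (ℕ × ℕ × ℕ × ℕ × ℕ)) (h𝓠 : ∀ t ∈ 𝓠, Pt T t) (j : ℕ × ℕ × ℕ) :
    ((𝓠.filter (fun t => (t.1, t.2.1, t.2.2.1) = j)).card : ℝ) ≤ 2 * T := by
  classical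
  rcases (𝓠.filter (fun t => (t.1, t.2.1, t.2.2.1) = j)).eq_empty_or_nonempty with h0 | ⟨t₀, ht₀⟩
  · rw [h0, Finset.card_empty]
    push_cast
    linarith
  obtain ⟨ht1, ht2⟩ := Finset.mem_filter.mp ht₀
  have hpt := h𝓠 t₀ ht1
  obtain ⟨hK1, hK2, -⟩ := hpt.bounds hT
  obtain ⟨a1, a2, a3, -, -, -, -, -, a9⟩ := hpt
  obtain ⟨g, α, β⟩ := j
  simp only [Prod.mk.injEq] at ht2
  obtain ⟨e1, e2, e3⟩ := ht2
  rw [e1] at a1 a9 hK1 hK2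
  rw [e2] at a2 hK1 hK2
  rw [e3] at a3 hK1 hK2
  have hg : (0 : ℝ) < g := by exact_mod_cast a1
  have hinj : Set.InjOn (fun t : ℕ × ℕ × ℕ × ℕ × ℕ => t.2.2.2)
      ((𝓠.filter (fun t => (t.1, t.2.1, t.2.2.1) = (g, α, β))) : Set _) := by
    intro t ht t' ht' h
    have h1 := (Finset.mem_filter.mp (Finset.mem_coe.mp ht)).2
    have h2 := (Finset.mem_filter.mp (Finset.mem_coe.mp ht')).2
    simp only [Prod.mk.injEq] at h1 h2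
    simp only at h
    exact Prod.ext (h1.1.trans h2.1.symm)
      (Prod.ext (h1.2.1.trans h2.2.1.symm) (Prod.ext (h1.2.2.trans h2.2.2.symm) h))
  rw [← Finset.card_image_of_injOn hinj]
  have hT0 : 0 < T := by linarith
  have hX0 : 0 < T ^ 98000 / (g : ℝ) ^ 2 := by positivity
  have hK3 : 2 * T ^ 100000 / (α * β * (g : ℝ) ^ 3) ≤ 2 * T ^ 100000 := by
    have h1 : T ^ 12 ≤ T ^ 100000 := pow_le_pow_right₀ (by linarith) (by norm_num)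
    linarith
  refine (hUV α β (2 * T ^ 100000 / (α * β * (g : ℝ) ^ 3)) (T ^ 98000 / (g : ℝ) ^ 2) a2 a3 hK1
    hK3 hX0 _ ?_).trans ?_
  · intro s hs
    obtain ⟨t, ht, rfl⟩ := Finset.mem_image.mp hs
    obtain ⟨ht3, ht4⟩ := Finset.mem_filter.mp ht
    obtain ⟨b1, b2, b3, b4, b5, b6, b7, b8, b9⟩ := h𝓠 t ht3
    simp only [Prod.mk.injEq] at ht4
    obtain ⟨f1, f2, f3⟩ := ht4
    rw [f1, f2, f3] at b4 b5
    exact ⟨b4, b5, b6⟩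
  · have hsq : T ^ 48996 ≤ √(T ^ 98000 / (g : ℝ) ^ 2) := by
      apply Real.le_sqrt_of_sq_le
      rw [le_div_iff₀ (by positivity)]
      calc (T ^ 48996) ^ 2 * (g : ℝ) ^ 2 ≤ (T ^ 48996) ^ 2 * (T ^ 4) ^ 2 := by gcongr
        _ = T ^ 98000 := by rw [← pow_mul, ← pow_mul, ← pow_add]
    have hs0 : 0 < T ^ 48996 := by positivity
    have h1 : 4 * (2 * T ^ 100000 / (α * β * (g : ℝ) ^ 3)) / √(T ^ 98000 / (g : ℝ) ^ 2) ≤ 1 := by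
      rw [div_le_one (lt_of_lt_of_le hs0 hsq)]
      calc 4 * (2 * T ^ 100000 / (α * β * (g : ℝ) ^ 3)) ≤ 4 * (2 * T ^ 12) := by gcongr
        _ = 2 ^ 3 * T ^ 12 := by ring
        _ ≤ T ^ 3 * T ^ 12 := by gcongr
        _ = T ^ 15 := by rw [← pow_add]
        _ ≤ T ^ 48996 := pow_le_pow_right₀ (by linarith) (by norm_num)
        _ ≤ _ := hsq
    calc T * (1 + 4 * (2 * T ^ 100000 / (α * β * (g : ℝ) ^ 3)) / √(T ^ 98000 / (g : ℝ) ^ 2))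
        ≤ T * (1 + 1) := by gcongr
      _ = 2 * T := by ring

/-- The solutions with `α β` large and `g` small. `t = (g, α, β, u, v)`. -/
theorem caseII : ∃ T0 : ℝ, 1 ≤ T0 ∧ ∀ T : ℝ, T0 ≤ T → ∀ 𝓠 : Finset (ℕ × ℕ × ℕ × ℕ × ℕ),
    (∀ t ∈ 𝓠, 0 < t.1 ∧ 0 < t.2.1 ∧ 0 < t.2.2.1 ∧
      IsUV t.2.1 t.2.2.1 (2 * T ^ 100000 / (t.2.1 * t.2.2.1 * (t.1 : ℝ) ^ 3)) t.2.2.2 ∧
      T ^ 98000 / (t.1 : ℝ) ^ 2 ≤ (t.2.1 : ℝ) * t.2.2.1 * t.2.2.2.1 * t.2.2.2.2 ∧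
      Real.log t.2.2.2.1 ≤ T ^ 250 ∧ Real.log t.2.2.2.2 ≤ T ^ 250 ∧
      T ^ 99988 < (t.2.1 : ℝ) * t.2.2.1 ∧ (t.1 : ℝ) ≤ T ^ 4) →
    (𝓠.card : ℝ) ≤ T ^ 99995 := by
  classical
  obtain ⟨T1, hT1, h1⟩ := pairs_large
  obtain ⟨T2, hT2, h2⟩ := uv_count
  refine ⟨max (max T1 T2) 2, le_trans (by norm_num) (le_max_right _ _), ?_⟩
  intro T hT 𝓠 h𝓠
  have hTT1 : T1 ≤ T := le_trans (le_trans (le_max_left _ _) (le_max_left _ _)) hT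
  have hTT2 : T2 ≤ T := le_trans (le_trans (le_max_right _ _) (le_max_left _ _)) hT
  have hT2' : 2 ≤ T := le_trans (le_max_right _ _) hT
  have hT0 : 0 < T := by linarith
  have hPt : ∀ t ∈ 𝓠, Pt T t := h𝓠
  have hJ := pair_count T hT2' (h1 T hTT1) 𝓠 hPt
  have hfib := fibre_count T hT2' (h2 T hTT2) 𝓠 hPt
  have hcard := Finset.card_le_mul_card_image (f := fun t : ℕ × ℕ × ℕ × ℕ × ℕ =>
    (t.1, t.2.1, t.2.2.1)) 𝓠 ⌊2 * T⌋₊ (by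
      intro j _
      exact Nat.le_floor (hfib j))
  have himg : 𝓠.image (fun t => (t.1, t.2.1, t.2.2.1)) ⊆
      Finset.Icc 1 ⌊T ^ 4⌋₊ ×ˢ 𝓠.image (fun t => (t.2.1, t.2.2.1)) := by
    intro j hj
    obtain ⟨t, ht, rfl⟩ := Finset.mem_image.mp hj
    rw [Finset.mem_product, Finset.mem_Icc]
    exact ⟨⟨(hPt t ht).1, Nat.le_floor (hPt t ht).2.2.2.2.2.2.2.2⟩,
      Finset.mem_image.mpr ⟨t, ht, rfl⟩⟩
  have himc := Finset.card_le_card himg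
  rw [Finset.card_product, Nat.card_Icc, Nat.add_sub_cancel] at himc
  have hf1 : ((⌊2 * T⌋₊ : ℕ) : ℝ) ≤ 2 * T := Nat.floor_le (by linarith)
  have hf2 : ((⌊T ^ 4⌋₊ : ℕ) : ℝ) ≤ T ^ 4 := Nat.floor_le (by positivity)
  have himc' : ((𝓠.image (fun t => (t.1, t.2.1, t.2.2.1))).card : ℝ) ≤
      T ^ 4 * (2 * T ^ 99950) := by
    calc ((𝓠.image (fun t => (t.1, t.2.1, t.2.2.1))).card : ℝ) ≤
        ((⌊T ^ 4⌋₊ : ℕ) : ℝ) * (𝓠.image (fun t => (t.2.1, t.2.2.1))).card := by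
          exact_mod_cast himc
      _ ≤ T ^ 4 * (2 * T ^ 99950) := by gcongr
  calc (𝓠.card : ℝ) ≤ ((⌊2 * T⌋₊ : ℕ) : ℝ) *
        (𝓠.image (fun t => (t.1, t.2.1, t.2.2.1))).card := by exact_mod_cast hcard
    _ ≤ (2 * T) * (T ^ 4 * (2 * T ^ 99950)) := by gcongr
    _ = 2 ^ 2 * (T ^ 1 * T ^ 4 * T ^ 99950) := by ring
    _ = 2 ^ 2 * T ^ 99955 := by rw [← pow_add, ← pow_add]
    _ ≤ T ^ 2 * T ^ 99955 := by gcongr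
    _ = T ^ 99957 := by rw [← pow_add]
    _ ≤ T ^ 99995 := pow_le_pow_right₀ (by linarith) (by norm_num)

end LibSQ
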