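import Pool.Agent.LibSQ78.R9
import Pool.Agent.LibSQ78.R12b
import Pool.Agent.LibSQ78.R12c

/-!
R13a. Proof. `T0` = the maximum of those of `caseI`, `caseII`. For `t = (m, x, y) ∈ S` (naturals) choose by `decomp` the numbers `α β g u v`, and map
`t ↦ (g, α, β, u, v)`; it is injective, because these numbers determine `x = α β g^2 u v`, then `2 m` (last identity of `decomp`), then `y`.
Let `𝓠` be the image; split in `𝓠1 = {α β ≤ T^99988 ∨ T^4 < g}` and the rest `𝓠2`. Conditions: `IsUV α β K (u, v)` with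
`K = 2 T^100000 / (α β g^3)`: `u, v > 0` coprime, `β u^3 < α v^3` because `m > 0`; `α β g^3 (α v^3 - β u^3) = 2 m ≤ 2 T^100000`.
`α β u v = x / g^2 ≥ T^98000 / g^2`. `u ≤ x`, `v ≤ x` so `log u, log v ≤ log x ≤ T^250` (`x ≤ exp (T^250)`, `Real.log_le_log`, `Real.log_exp`).
So `card S = card 𝓠 ≤ 2 T^99995 + T^99995`.
-/

set_option autoImplicit false

namespace LibSQ

/-- The image point of one solution. -/
theorem large_point (P Q L : ℝ) (m x y α β g u v : ℕ) (hm : 0 < m)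
    (hmP : (m : ℝ) ≤ P) (hxQ : Q ≤ (x : ℝ)) (hx : 0 < x) (hxL : (x : ℝ) ≤ Real.exp L)
    (hα : 0 < α) (hβ : 0 < β) (hg : 0 < g) (hu : 0 < u) (hv : 0 < v) (huv : Nat.Coprime u v)
    (hx2 : x = α * β * g ^ 2 * u * v)
    (h2m : 2 * m + α * β * g ^ 3 * (β * u ^ 3) = α * β * g ^ 3 * (α * v ^ 3)) :
    IsUV α β (2 * P / (α * β * (g : ℝ) ^ 3)) (u, v) ∧ Q / (g : ℝ) ^ 2 ≤ (α : ℝ) * β * u * v ∧
      Real.log u ≤ L ∧ Real.log v ≤ L := by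
  have hαR : (0 : ℝ) < α := by exact_mod_cast hα
  have hβR : (0 : ℝ) < β := by exact_mod_cast hβ
  have hgR : (0 : ℝ) < g := by exact_mod_cast hg
  have huR : (0 : ℝ) < u := by exact_mod_cast hu
  have hvR : (0 : ℝ) < v := by exact_mod_cast hv
  have hD : 0 < α * β * g ^ 3 := by positivity
  refine ⟨⟨hu, hv, huv, ?_, ?_⟩, ?_, ?_, ?_⟩
  · show β * u ^ 3 < α * v ^ 3
    by_contra hcon
    have h1 : α * β * g ^ 3 * (α * v ^ 3) ≤ α * β * g ^ 3 * (β * u ^ 3) :=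
      Nat.mul_le_mul_left _ (not_lt.mp hcon)
    omega
  · show (α : ℝ) * (v : ℝ) ^ 3 - β * (u : ℝ) ^ 3 ≤ 2 * P / (α * β * (g : ℝ) ^ 3)
    rw [le_div_iff₀ (by positivity)]
    have h2 : (2 * (m : ℝ) + α * β * g ^ 3 * (β * u ^ 3)) = α * β * g ^ 3 * (α * v ^ 3) := by
      exact_mod_cast h2m
    nlinarith
  · have h3 : (x : ℝ) = α * β * g ^ 2 * u * v := by exact_mod_cast hx2
    rw [div_le_iff₀ (by positivity)]
    calc Q ≤ x := hxQ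
      _ = (α : ℝ) * β * u * v * (g : ℝ) ^ 2 := by rw [h3]; ring
  · have h4 : u ≤ x := by
      rw [hx2]
      have : 0 < α * β * g ^ 2 * v := by positivity
      calc u = 1 * u := (one_mul u).symm
        _ ≤ (α * β * g ^ 2 * v) * u := Nat.mul_le_mul_right _ this
        _ = α * β * g ^ 2 * u * v := by ring
    have h5 : (u : ℝ) ≤ Real.exp L := le_trans (by exact_mod_cast h4) hxL
    calc Real.log u ≤ Real.log (Real.exp L) := Real.log_le_log huR h5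
      _ = L := Real.log_exp L
  · have h4 : v ≤ x := by
      rw [hx2]
      exact Nat.le_mul_of_pos_left _ (by positivity)
    have h5 : (v : ℝ) ≤ Real.exp L := le_trans (by exact_mod_cast h4) hxL
    calc Real.log v ≤ Real.log (Real.exp L) := Real.log_le_log hvR h5
      _ = L := Real.log_exp L

/-- The solutions in natural numbers with `x` large. -/
theorem large_count : ∃ T0 : ℝ, 1 ≤ T0 ∧ ∀ T : ℝ, T0 ≤ T → ∀ S : Finset (ℕ × ℕ × ℕ),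
    (∀ t ∈ S, 0 < t.1 ∧ (t.1 : ℝ) ≤ T ^ 100000 ∧ T ^ 98000 ≤ (t.2.1 : ℝ) ∧
      (t.2.1 : ℝ) ≤ Real.exp (T ^ 250) ∧ t.2.2 ^ 2 = t.2.1 ^ 3 + t.1 ^ 2) →
    (S.card : ℝ) ≤ 3 * T ^ 99995 := by
  classical
  obtain ⟨T1, hT1, h1⟩ := caseI
  obtain ⟨T2, hT2, h2⟩ := caseII
  refine ⟨max T1 T2, le_trans hT1 (le_max_left _ _), ?_⟩
  intro T hT S hS
  have hTT1 : T1 ≤ T := le_trans (le_max_left _ _) hT
  have hTT2 : T2 ≤ T := le_trans (le_max_right _ _) hT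
  have hT0 : 1 ≤ T := hT1.trans hTT1
  have hxpos : ∀ t ∈ S, 0 < t.2.1 := by
    intro t ht
    have h3 := (hS t ht).2.2.1
    have h4 : (1 : ℝ) ≤ T ^ 98000 := one_le_pow₀ hT0
    have h5 : (0 : ℝ) < (t.2.1 : ℝ) := by linarith
    exact_mod_cast h5
  have key : ∀ t : ℕ × ℕ × ℕ, ∃ α β g u v : ℕ, t ∈ S → (0 < α ∧ 0 < β ∧ 0 < g ∧ 0 < u ∧ 0 < v ∧
      Nat.Coprime u v ∧ t.2.2 = t.1 + α * β ^ 2 * (g * u) ^ 3 ∧
      t.2.1 = α * β * g ^ 2 * u * v ∧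
      2 * t.1 + α * β * g ^ 3 * (β * u ^ 3) = α * β * g ^ 3 * (α * v ^ 3)) := by
    intro t
    by_cases ht : t ∈ S
    · obtain ⟨α, β, g, u, v, a1, a2, a3, a4, a5, a6, a7, -, a9, a10⟩ :=
        decomp t.1 t.2.1 t.2.2 (hS t ht).1 (hxpos t ht) (hS t ht).2.2.2.2
      exact ⟨α, β, g, u, v, fun _ => ⟨a1, a2, a3, a4, a5, a6, a7, a9, a10⟩⟩
    · exact ⟨0, 0, 0, 0, 0, fun h => absurd h ht⟩
  choose α β g u v hk using key
  obtain ⟨F, hF⟩ : ∃ F : ℕ × ℕ × ℕ → ℕ × ℕ × ℕ × ℕ × ℕ,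
      F = fun t => (g t, α t, β t, u t, v t) := ⟨_, rfl⟩
  have hinj : Set.InjOn F (S : Set (ℕ × ℕ × ℕ)) := by
    intro t ht t' ht' hFF
    rw [hF] at hFF
    simp only [Prod.mk.injEq] at hFF
    obtain ⟨e1, e2, e3, e4, e5⟩ := hFF
    obtain ⟨-, -, -, -, -, -, b7, b8, b9⟩ := hk t (Finset.mem_coe.mp ht)
    obtain ⟨-, -, -, -, -, -, c7, c8, c9⟩ := hk t' (Finset.mem_coe.mp ht')
    rw [e1, e2, e3, e4, e5] at b8 b9
    rw [e1, e2, e3, e4] at b7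
    have f2 : t.2.1 = t'.2.1 := by rw [b8, c8]
    have f1 : t.1 = t'.1 := by omega
    have f3 : t.2.2 = t'.2.2 := by rw [b7, c7, f1]
    exact Prod.ext f1 (Prod.ext f2 f3)
  have hcard : S.card = (S.image F).card := (Finset.card_image_of_injOn hinj).symm
  obtain ⟨p, hp⟩ : ∃ p : ℕ × ℕ × ℕ × ℕ × ℕ → Prop,
      p = fun t => ((t.2.1 : ℝ) * t.2.2.1 ≤ T ^ 99988 ∨ T ^ 4 < (t.1 : ℝ)) := ⟨_, rfl⟩
  have hsplit := Finset.card_filter_add_card_filter_not (s := S.image F) (p := p)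
  have hall : ∀ t ∈ S.image F, 0 < t.1 ∧ 0 < t.2.1 ∧ 0 < t.2.2.1 ∧
      IsUV t.2.1 t.2.2.1 (2 * T ^ 100000 / (t.2.1 * t.2.2.1 * (t.1 : ℝ) ^ 3)) t.2.2.2 ∧
      T ^ 98000 / (t.1 : ℝ) ^ 2 ≤ (t.2.1 : ℝ) * t.2.2.1 * t.2.2.2.1 * t.2.2.2.2 ∧
      Real.log t.2.2.2.1 ≤ T ^ 250 ∧ Real.log t.2.2.2.2 ≤ T ^ 250 := by
    intro t ht
    obtain ⟨s, hs, rfl⟩ := Finset.mem_image.mp ht
    rw [hF]
    obtain ⟨b1, b2, b3, b4, b5, b6, -, b8, b9⟩ := hk s hs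
    obtain ⟨d1, d2, d3, d4, -⟩ := hS s hs
    obtain ⟨e1, e2, e3, e4⟩ := large_point (T ^ 100000) (T ^ 98000) (T ^ 250) s.1 s.2.1 s.2.2
      (α s) (β s) (g s) (u s) (v s) d1 d2 d3 (hxpos s hs) d4 b1 b2 b3 b4 b5 b6 b8 b9
    exact ⟨b3, b1, b2, e1, e2, e3, e4⟩
  have hI := h1 T hTT1 ((S.image F).filter p) (by
    intro t ht
    obtain ⟨ht1, ht2⟩ := Finset.mem_filter.mp ht
    obtain ⟨q1, q2, q3, q4, q5, q6, -⟩ := hall t ht1
    rw [hp] at ht2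
    exact ⟨q1, q2, q3, q4, q5, q6, ht2⟩)
  have hII := h2 T hTT2 ((S.image F).filter (fun t => ¬ p t)) (by
    intro t ht
    obtain ⟨ht1, ht2⟩ := Finset.mem_filter.mp ht
    obtain ⟨q1, q2, q3, q4, q5, q6, q7⟩ := hall t ht1
    rw [hp] at ht2
    simp only [not_or, not_le, not_lt] at ht2
    exact ⟨q1, q2, q3, q4, q5, q6, q7, ht2.1, ht2.2⟩)
  have hfin : (S.card : ℝ) = ((S.image F).filter p).card +
      ((S.image F).filter (fun t => ¬ p t)).card := by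
    rw [hcard, ← hsplit]
    push_cast
    ring
  rw [hfin]
  linarith

end LibSQ
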