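import Pool.Agent.LibSQ78.R11
import Pool.Agent.LibSQ78.R13a

/-!
R13b. Proof. `T0` from `large_count` (`T0 ≥ 1`), `C0` from `small_count`. First, for `T ≥ T0`, every Finset `S` of triples `(m, x, y)` with `1 ≤ m ≤ T^100000`, `x ≠ 0`,
`|x| ≤ exp (T^250)`, `y^2 = x^3 + m^2` has `card ≤ C0 T^99000 + 6 T^99995 ≤ (C0 + 6) T^99995`: split `S` in
`S1 = {|x| ≤ T^98000}` (`small_count`) and the rest; if `|x| > T^98000` then `x > 0`: for `x < 0` we would have `|x|^3 = m^2 - y^2 ≤ m^2 ≤ T^200000`, but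
`|x|^3 > T^294000`. The rest maps to `(m, x, |y|)` in naturals, with fibres of at most 2 elements (`y` or `-y`): `large_count`.
Now `N ≥ 1` real, `T = N^(1/100000)` (rpow), `T^100000 = N`, `T^250 = N^0.0025`, `T^99995 = N^0.99995`.
`fin_set`: for every real `N` the set is finite: it is contained in a box (`|m| ≤ N`, `|x| ≤ E := exp (N^0.0025)`, `|y| ≤ y^2 = x^3 + m^2 ≤ E^3 + N^2`).
If `T ≥ T0`: `ncard = card of toFinset ≤ (C0 + 6) T^99995`. If `T < T0`, i.e. `N < N0 := T0^100000`: the set is contained in that for `N0` (monotone), so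
`ncard ≤ C1 :=` the `ncard` of the set for `N0`, and `N^0.99995 ≥ 1`. So `C = C0 + 6 + C1` works.
-/

set_option autoImplicit false

namespace LibSQ

open Finset

theorem fin_set (N : ℝ) : {t : ℤ × ℤ × ℤ | 1 ≤ t.1 ∧ (t.1 : ℝ) ≤ N ∧ t.2.1 ≠ 0 ∧
    |(t.2.1 : ℝ)| ≤ Real.exp (N ^ (0.0025 : ℝ)) ∧ t.2.2 ^ 2 = t.2.1 ^ 3 + t.1 ^ 2}.Finite := by
  generalize Real.exp (N ^ (0.0025 : ℝ)) = E
  apply Set.Finite.subset
    ((Icc (1 : ℤ) ⌊N⌋ ×ˢ (Icc (-⌊E⌋) ⌊E⌋ ×ˢ Icc (-⌊E ^ 3 + N ^ 2⌋) ⌊E ^ 3 + N ^ 2⌋)).finite_toSet)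
  rintro ⟨m, x, y⟩ ⟨h1, h2, -, h4, h5⟩
  simp only at h1 h2 h4 h5
  rw [mem_coe, mem_product, mem_product, mem_Icc, mem_Icc, mem_Icc]
  have hm1 : (1 : ℝ) ≤ m := by exact_mod_cast h1
  obtain ⟨hx1, hx2⟩ := abs_le.mp h4
  have hE : 0 ≤ E := le_trans (abs_nonneg _) h4
  have hy : |(y : ℝ)| ≤ E ^ 3 + N ^ 2 := by
    have e1 : |(y : ℝ)| ≤ (y : ℝ) ^ 2 := by
      have e2 : |y| ≤ y ^ 2 := by
        rw [← sq_abs y]
        have := abs_nonneg y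
        rcases eq_or_lt_of_le this with h | h
        · rw [← h]; simp
        · nlinarith [Int.add_one_le_iff.mpr h]
      exact_mod_cast e2
    have e3 : (y : ℝ) ^ 2 = (x : ℝ) ^ 3 + (m : ℝ) ^ 2 := by exact_mod_cast h5
    have e4 : (x : ℝ) ^ 3 ≤ E ^ 3 := by
      calc (x : ℝ) ^ 3 ≤ |(x : ℝ) ^ 3| := le_abs_self _
        _ = |(x : ℝ)| ^ 3 := abs_pow _ _
        _ ≤ E ^ 3 := pow_le_pow_left₀ (abs_nonneg _) h4 3
    have e5 : (m : ℝ) ^ 2 ≤ N ^ 2 := pow_le_pow_left₀ (by linarith) h2 2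
    linarith
  obtain ⟨hy1, hy2⟩ := abs_le.mp hy
  refine ⟨⟨h1, Int.le_floor.mpr h2⟩, ⟨?_, Int.le_floor.mpr hx2⟩, ?_, Int.le_floor.mpr hy2⟩
  · have : -x ≤ ⌊E⌋ := Int.le_floor.mpr (by push_cast; linarith)
    simp only
    linarith
  · have : -y ≤ ⌊E ^ 3 + N ^ 2⌋ := Int.le_floor.mpr (by push_cast; linarith)
    simp only
    linarith

private theorem xpos {T : ℝ} (hT : 1 ≤ T) {m x y : ℤ} (hm : 1 ≤ m) (hmT : (m : ℝ) ≤ T ^ 100000)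
    (hx : T ^ 98000 < |(x : ℝ)|) (h : y ^ 2 = x ^ 3 + m ^ 2) : 0 < x := by
  by_contra hneg
  push Not at hneg
  have hT0 : (0 : ℝ) < T := by linarith
  have hx0 : (x : ℝ) ≤ 0 := by exact_mod_cast hneg
  rw [abs_of_nonpos hx0] at hx
  have hR : (y : ℝ) ^ 2 = (x : ℝ) ^ 3 + (m : ℝ) ^ 2 := by exact_mod_cast h
  have hm0 : (0 : ℝ) ≤ m := by
    have : (1 : ℝ) ≤ m := by exact_mod_cast hm
    linarith
  have h1 : (m : ℝ) ^ 2 ≤ T ^ 200000 := by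
    calc (m : ℝ) ^ 2 ≤ (T ^ 100000) ^ 2 := pow_le_pow_left₀ hm0 hmT 2
      _ = T ^ 200000 := by rw [← pow_mul]
  have h2 : T ^ 294000 < (-(x : ℝ)) ^ 3 := by
    calc T ^ 294000 = (T ^ 98000) ^ 3 := by rw [← pow_mul]
      _ < (-(x : ℝ)) ^ 3 := pow_lt_pow_left₀ hx (by positivity) (by norm_num)
  have h3 : T ^ 200000 ≤ T ^ 294000 := pow_le_pow_right₀ hT (by norm_num)
  have h4 : (-(x : ℝ)) ^ 3 = -(x : ℝ) ^ 3 := by ring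
  have h5 : 0 ≤ (y : ℝ) ^ 2 := sq_nonneg _
  linarith

private theorem core : ∃ T0 : ℝ, 1 ≤ T0 ∧ ∃ C0 : ℝ, 0 < C0 ∧ ∀ T : ℝ, T0 ≤ T →
    ∀ S : Finset (ℤ × ℤ × ℤ),
    (∀ t ∈ S, 1 ≤ t.1 ∧ (t.1 : ℝ) ≤ T ^ 100000 ∧ t.2.1 ≠ 0 ∧ |(t.2.1 : ℝ)| ≤ Real.exp (T ^ 250) ∧
      t.2.2 ^ 2 = t.2.1 ^ 3 + t.1 ^ 2) → (S.card : ℝ) ≤ C0 * T ^ 99995 := by
  obtain ⟨T0, hT0, H⟩ := large_count
  obtain ⟨C, hC, G⟩ := small_count
  refine ⟨T0, hT0, C + 6, by linarith, ?_⟩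
  intro T hT S hS
  have hT1 : (1 : ℝ) ≤ T := le_trans hT0 hT
  classical
  have hsplit := card_filter_add_card_filter_not (s := S)
    (fun t : ℤ × ℤ × ℤ => |(t.2.1 : ℝ)| ≤ T ^ 98000)
  have h1 : ((S.filter fun t : ℤ × ℤ × ℤ => |(t.2.1 : ℝ)| ≤ T ^ 98000).card : ℝ) ≤
      C * T ^ 99000 := by
    apply G T hT1
    intro t ht
    obtain ⟨ht1, ht2⟩ := mem_filter.mp ht
    obtain ⟨a1, a2, a3, a4, a5⟩ := hS t ht1
    exact ⟨a1, a3, ht2, a5⟩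
  set S2 := S.filter fun t : ℤ × ℤ × ℤ => ¬ |(t.2.1 : ℝ)| ≤ T ^ 98000 with hS2
  set h : ℤ × ℤ × ℤ → ℕ × ℕ × ℕ := fun t => (t.1.natAbs, t.2.1.natAbs, t.2.2.natAbs) with hh
  have hmem : ∀ t ∈ S2, 1 ≤ t.1 ∧ (t.1 : ℝ) ≤ T ^ 100000 ∧ T ^ 98000 < |(t.2.1 : ℝ)| ∧
      |(t.2.1 : ℝ)| ≤ Real.exp (T ^ 250) ∧ t.2.2 ^ 2 = t.2.1 ^ 3 + t.1 ^ 2 ∧ 0 < t.2.1 := by
    intro t ht
    obtain ⟨ht1, ht2⟩ := mem_filter.mp ht
    obtain ⟨a1, a2, a3, a4, a5⟩ := hS t ht1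
    rw [not_le] at ht2
    exact ⟨a1, a2, ht2, a4, a5, xpos hT1 a1 a2 ht2 a5⟩
  have h2 : S2.card ≤ 2 * (S2.image h).card := by
    apply card_le_mul_card_image
    rintro ⟨a, b, c⟩ -
    refine le_trans (card_le_card (t := {((a : ℤ), (b : ℤ), (c : ℤ)), ((a : ℤ), (b : ℤ), -(c : ℤ))}) ?_)
      card_le_two
    rintro ⟨m, x, y⟩ ht
    obtain ⟨ht1, ht2⟩ := mem_filter.mp ht
    obtain ⟨b1, -, -, -, -, b6⟩ := hmem _ ht1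
    simp only [hh, Prod.mk.injEq] at ht2 b1 b6
    obtain ⟨c1, c2, c3⟩ := ht2
    have d1 : m = a := by rw [← c1]; exact (Int.natAbs_of_nonneg (by linarith)).symm
    have d2 : x = b := by rw [← c2]; exact (Int.natAbs_of_nonneg b6.le).symm
    rw [mem_insert, mem_singleton, Prod.mk.injEq, Prod.mk.injEq, Prod.mk.injEq, Prod.mk.injEq]
    rcases Int.natAbs_eq y with h | h
    · left; exact ⟨d1, d2, by rw [← c3]; exact h⟩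
    · right; exact ⟨d1, d2, by rw [← c3]; exact h⟩
  have h3 : ((S2.image h).card : ℝ) ≤ 3 * T ^ 99995 := by
    apply H T hT
    intro s hs
    obtain ⟨⟨m, x, y⟩, ht, rfl⟩ := mem_image.mp hs
    obtain ⟨b1, b2, b3, b4, b5, b6⟩ := hmem _ ht
    simp only [hh] at b1 b2 b3 b4 b5 b6 ⊢
    have hmR : (0 : ℝ) ≤ m := by
      have : (1 : ℝ) ≤ m := by exact_mod_cast b1
      linarith
    refine ⟨Int.natAbs_pos.mpr (by linarith [b1] |> fun (h : 0 < m) => h.ne'), ?_, ?_, ?_, ?_⟩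
    · rw [Nat.cast_natAbs, Int.cast_abs, abs_of_nonneg hmR]; exact b2
    · rw [Nat.cast_natAbs, Int.cast_abs]; exact b3.le
    · rw [Nat.cast_natAbs, Int.cast_abs]; exact b4
    · have : ((y.natAbs : ℤ)) ^ 2 = (x.natAbs : ℤ) ^ 3 + (m.natAbs : ℤ) ^ 2 := by
        rw [Int.natCast_natAbs, Int.natCast_natAbs, Int.natCast_natAbs, sq_abs, sq_abs,
          abs_of_pos b6]
        exact b5
      exact_mod_cast this
  have h2R : (S2.card : ℝ) ≤ 2 * ((S2.image h).card : ℝ) := by exact_mod_cast h2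
  have hsR : ((S.filter fun t : ℤ × ℤ × ℤ => |(t.2.1 : ℝ)| ≤ T ^ 98000).card : ℝ) +
      (S2.card : ℝ) = (S.card : ℝ) := by exact_mod_cast hsplit
  have h4 : T ^ 99000 ≤ T ^ 99995 := pow_le_pow_right₀ hT1 (by norm_num)
  have h5 : C * T ^ 99000 ≤ C * T ^ 99995 := mul_le_mul_of_nonneg_left h4 hC.le
  have h6 : (C + 6) * T ^ 99995 = C * T ^ 99995 + 2 * (3 * T ^ 99995) := by
    generalize T ^ 99995 = B
    ring
  rw [h6]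
  linarith

theorem hall_squares : ∃ C : ℝ, 0 < C ∧ ∀ N : ℝ, 1 ≤ N →
    {t : ℤ × ℤ × ℤ | 1 ≤ t.1 ∧ (t.1 : ℝ) ≤ N ∧ t.2.1 ≠ 0 ∧
      |(t.2.1 : ℝ)| ≤ Real.exp (N ^ (0.0025 : ℝ)) ∧ t.2.2 ^ 2 = t.2.1 ^ 3 + t.1 ^ 2}.Finite ∧
    ({t : ℤ × ℤ × ℤ | 1 ≤ t.1 ∧ (t.1 : ℝ) ≤ N ∧ t.2.1 ≠ 0 ∧
      |(t.2.1 : ℝ)| ≤ Real.exp (N ^ (0.0025 : ℝ)) ∧
      t.2.2 ^ 2 = t.2.1 ^ 3 + t.1 ^ 2}.ncard : ℝ) ≤ C * N ^ (0.99995 : ℝ) := by
  obtain ⟨T0, hT0, C0, hC0, H⟩ := core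
  set A : ℝ → Set (ℤ × ℤ × ℤ) := fun N => {t : ℤ × ℤ × ℤ | 1 ≤ t.1 ∧ (t.1 : ℝ) ≤ N ∧ t.2.1 ≠ 0 ∧
      |(t.2.1 : ℝ)| ≤ Real.exp (N ^ (0.0025 : ℝ)) ∧ t.2.2 ^ 2 = t.2.1 ^ 3 + t.1 ^ 2} with hA
  have hfin : ∀ N, (A N).Finite := fin_set
  set N0 : ℝ := T0 ^ 100000 with hN0
  refine ⟨C0 + (A N0).ncard, by positivity, ?_⟩
  intro N hN
  refine ⟨hfin N, ?_⟩
  change ((A N).ncard : ℝ) ≤ _
  have hN00 : (0 : ℝ) ≤ N := by linarith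
  have hNp : (1 : ℝ) ≤ N ^ (0.99995 : ℝ) := Real.one_le_rpow hN (by norm_num)
  generalize hT : N ^ (1 / 100000 : ℝ) = T
  have hTnn : 0 ≤ T := by rw [← hT]; exact Real.rpow_nonneg hN00 _
  have e1 : T ^ 100000 = N := by
    rw [← hT, ← Real.rpow_natCast, ← Real.rpow_mul hN00]
    norm_num
  have e2 : T ^ 250 = N ^ (0.0025 : ℝ) := by
    rw [← hT, ← Real.rpow_natCast, ← Real.rpow_mul hN00]
    norm_num
  have e3 : T ^ 99995 = N ^ (0.99995 : ℝ) := by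
    rw [← hT, ← Real.rpow_natCast, ← Real.rpow_mul hN00]
    norm_num
  have hnc : (0 : ℝ) ≤ (A N0).ncard := by positivity
  by_cases hcase : T0 ≤ T
  · have h1 : ((A N).ncard : ℝ) ≤ C0 * T ^ 99995 := by
      rw [Set.ncard_eq_toFinset_card _ (hfin N)]
      apply H T hcase
      intro t ht
      rw [Set.Finite.mem_toFinset] at ht
      obtain ⟨a1, a2, a3, a4, a5⟩ := ht
      rw [e1, e2]
      exact ⟨a1, a2, a3, a4, a5⟩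
    rw [e3] at h1
    nlinarith
  · rw [not_le] at hcase
    have h1 : N ≤ N0 := by
      rw [← e1, hN0]
      exact pow_le_pow_left₀ hTnn hcase.le 100000
    have h2 : A N ⊆ A N0 := by
      rintro t ⟨a1, a2, a3, a4, a5⟩
      refine ⟨a1, le_trans a2 h1, a3, le_trans a4 ?_, a5⟩
      exact Real.exp_le_exp.mpr (Real.rpow_le_rpow hN00 h1 (by norm_num))
    have h3 : ((A N).ncard : ℝ) ≤ (A N0).ncard := by
      exact_mod_cast Set.ncard_le_ncard h2 (hfin N0)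
    nlinarith

end LibSQ
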