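import Mathlib

/-!
R1a. Proof. `l ≠ 0` (its degree is 1). Put `A := C a * P^3`, `B := -(l * V^3)`, `D := -(C c * W^3)`: all nonzero, `A + B + D = 0`.
* Claim `IsCoprime A B`. If not, there is an irreducible `π` with `π ∣ A`, `π ∣ B`
  (`Polynomial.isCoprime_of_irreducible_dvd`, `isCoprime_of_prime_dvd` or `isCoprime_of_irreducible_dvd`), so `π ∣ P`; `π ∤ V` as `P, V` are coprime;
  so `π ∣ l`, and `π ∣ C c * W^3`, so `π ∣ W`. Then `π^3 ∣ C a P^3 - C c W^3 = l * V^3`, `π^3` is coprime to `V^3`, so `π^3 ∣ l`: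
  but `deg π ≥ 1` and `deg l = 1`, contradiction.
* `Polynomial.abc` (Mason-Stothers; `A, B, D ≠ 0`, `IsCoprime A B`, sum zero; characteristic 0): either all three derivatives are `0`
  - impossible, as `derivative B = 0` means `natDegree B = 0` (`Polynomial.natDegree_eq_zero_of_derivative_eq_zero`) while
    `natDegree B = 1 + 3 natDegree V` -
  or `natDegree A + 1`, `natDegree B + 1`, `natDegree D + 1` are all `≤ natDegree (radical (A * B * D))`
  (unfold `Polynomial.abc` in Mathlib to see the exact form). And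
  `natDegree (radical (A * B * D)) ≤ deg P + 1 + deg V + deg W =: r`, because `radical (A * B * D)` divides `P * l * V * W`:
  `radical` is squarefree-product of the prime factors; `A * B * D` divides `(P * l * V * W)^3 * unit`, `radical_dvd_radical`-type lemma
  (`UniqueFactorizationMonoid.radical_dvd_radical`, `radical_pow`, `radical_dvd_self`); and `natDegree_le_of_dvd`.
  So with `p, v, w` the degrees: `3p + 1 ≤ r`, `1 + 3v + 1 ≤ r`, `3w + 1 ≤ r`, `r ≤ p+v+w+1`; the sum gives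
  `4 + 3(p+v+w) ≤ 3(p+v+w) + 3`. omega.
-/

set_option autoImplicit false

open Polynomial

namespace LibSQ

private theorem sq_r1a_coprime (a c : ℚ) (ha : a ≠ 0) (hc : c ≠ 0) (l P V W : ℚ[X])
    (hl : l.natDegree = 1) (hP : P ≠ 0) (hcop : IsCoprime P V)
    (h : C a * P ^ 3 - l * V ^ 3 = C c * W ^ 3) : IsCoprime (C a * P ^ 3) (l * V ^ 3) := by
  have hl0 : l ≠ 0 := by
    rintro rfl
    simp at hl
  have hCa : IsUnit (C a : ℚ[X]) := isUnit_C.2 (isUnit_iff_ne_zero.2 ha)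
  have hCc : IsUnit (C c : ℚ[X]) := isUnit_C.2 (isUnit_iff_ne_zero.2 hc)
  refine isCoprime_of_prime_dvd (fun h0 => mul_ne_zero hCa.ne_zero (pow_ne_zero 3 hP) h0.1) ?_
  intro π hπ h1 h2
  have hπP : π ∣ P := by
    have e : π ∣ P ^ 3 := (hCa.dvd_mul_left).1 h1
    exact hπ.dvd_of_dvd_pow e
  have hπV : ¬ π ∣ V := fun hV => hπ.not_unit (hcop.isUnit_of_dvd' hπP hV)
  have hπW : π ∣ W := by
    have e : π ∣ C c * W ^ 3 := by
      rw [← h]
      exact dvd_sub h1 h2
    exact hπ.dvd_of_dvd_pow ((hCc.dvd_mul_left).1 e)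
  have h3 : π ^ 3 ∣ l * V ^ 3 := by
    have e : l * V ^ 3 = C a * P ^ 3 - C c * W ^ 3 := by
      rw [← h]
      ring
    rw [e]
    exact dvd_sub (Dvd.dvd.mul_left (pow_dvd_pow_of_dvd hπP 3) _)
      (Dvd.dvd.mul_left (pow_dvd_pow_of_dvd hπW 3) _)
  have hcV : IsCoprime π V := (hπ.irreducible.coprime_iff_not_dvd).2 hπV
  have h4 : π ^ 3 ∣ l := (hcV.pow (m := 3) (n := 3)).dvd_of_dvd_mul_right h3
  have h5 := natDegree_le_of_dvd h4 hl0
  rw [natDegree_pow, hl] at h5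
  have h6 : π.natDegree = 0 := by omega
  obtain ⟨q, hq⟩ := natDegree_eq_zero.1 h6
  refine hπ.not_unit ?_
  rw [← hq]
  refine isUnit_C.2 (isUnit_iff_ne_zero.2 ?_)
  rintro rfl
  exact hπ.ne_zero (by rw [← hq, C_0])

theorem mason_coprime (a c : ℚ) (ha : a ≠ 0) (hc : c ≠ 0) (l P V W : ℚ[X])
    (hl : l.natDegree = 1) (hP : P ≠ 0) (hV : V ≠ 0) (hW : W ≠ 0) (hcop : IsCoprime P V)
    (h : C a * P ^ 3 - l * V ^ 3 = C c * W ^ 3) : False := by
  have hl0 : l ≠ 0 := by
    rintro rfl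
    simp at hl
  have hCa : (C a : ℚ[X]) ≠ 0 := C_ne_zero.2 ha
  have hCc : (C c : ℚ[X]) ≠ 0 := C_ne_zero.2 hc
  have hA : C a * P ^ 3 ≠ 0 := mul_ne_zero hCa (pow_ne_zero 3 hP)
  have hB : -(l * V ^ 3) ≠ 0 := neg_ne_zero.2 (mul_ne_zero hl0 (pow_ne_zero 3 hV))
  have hD : -(C c * W ^ 3) ≠ 0 := neg_ne_zero.2 (mul_ne_zero hCc (pow_ne_zero 3 hW))
  have hAB : IsCoprime (C a * P ^ 3) (-(l * V ^ 3)) :=
    (sq_r1a_coprime a c ha hc l P V W hl hP hcop h).neg_right
  have hsum : C a * P ^ 3 + -(l * V ^ 3) + -(C c * W ^ 3) = 0 := by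
    rw [← h]
    ring
  have dA : (C a * P ^ 3).natDegree = 3 * P.natDegree := by
    rw [natDegree_C_mul ha, natDegree_pow]
  have dB : (-(l * V ^ 3)).natDegree = 1 + 3 * V.natDegree := by
    rw [natDegree_neg, natDegree_mul hl0 (pow_ne_zero 3 hV), natDegree_pow, hl]
  have dD : (-(C c * W ^ 3)).natDegree = 3 * W.natDegree := by
    rw [natDegree_neg, natDegree_C_mul hc, natDegree_pow]
  have hrad : (UniqueFactorizationMonoid.radical
      (C a * P ^ 3 * -(l * V ^ 3) * -(C c * W ^ 3))).natDegree ≤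
      P.natDegree + 1 + V.natDegree + W.natDegree := by
    have hne : P * l * V * W ≠ 0 := mul_ne_zero (mul_ne_zero (mul_ne_zero hP hl0) hV) hW
    have h1 : C a * P ^ 3 * -(l * V ^ 3) * -(C c * W ^ 3) ∣ (P * l * V * W) ^ 3 := by
      have e : (P * l * V * W) ^ 3 = C a * P ^ 3 * -(l * V ^ 3) * -(C c * W ^ 3) *
          (C a⁻¹ * C c⁻¹ * l ^ 2) := by
        have e1 : (C a : ℚ[X]) * C a⁻¹ = 1 := by rw [← C_mul, mul_inv_cancel₀ ha, C_1]
        have e2 : (C c : ℚ[X]) * C c⁻¹ = 1 := by rw [← C_mul, mul_inv_cancel₀ hc, C_1]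
        calc (P * l * V * W) ^ 3 = (1 : ℚ[X]) * 1 * (P * l * V * W) ^ 3 := by ring
          _ = (C a * C a⁻¹) * (C c * C c⁻¹) * (P * l * V * W) ^ 3 := by rw [e1, e2]
          _ = _ := by ring
      exact Dvd.intro _ e.symm
    have h2 : UniqueFactorizationMonoid.radical
        (C a * P ^ 3 * -(l * V ^ 3) * -(C c * W ^ 3)) ∣ P * l * V * W := by
      refine (UniqueFactorizationMonoid.radical_dvd_radical h1 (pow_ne_zero 3 hne)).trans ?_
      rw [UniqueFactorizationMonoid.radical_pow _ (by norm_num)]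
      exact UniqueFactorizationMonoid.radical_dvd_self
    have h3 := natDegree_le_of_dvd h2 hne
    rw [natDegree_mul (mul_ne_zero (mul_ne_zero hP hl0) hV) hW,
      natDegree_mul (mul_ne_zero hP hl0) hV, natDegree_mul hP hl0, hl] at h3
    exact h3
  rcases Polynomial.abc hA hB hD hAB hsum with ⟨g1, g2, g3⟩ | ⟨-, g2, -⟩
  · rw [dA] at g1
    rw [dB] at g2
    rw [dD] at g3
    omega
  · have := natDegree_eq_zero_of_derivative_eq_zero g2
    omega

end LibSQ
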