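import Pool.Agent.LibSQ78.Defs
import Pool.Agent.LibSQ78.R1

/-!
R2. Proof. Let `Φ = Phi 3 (kk ..) z₀ U V` (`Phi` is defined in `Pool.Agent.LibHLP.GcdCount`:
`∑ i ∈ range 3, C (k i) * (U^(3-i) * V^i) + (C z₀ + X) * V^3`). One checks (`ring` in `ℤ[X]`, `σ^2 = 1`)
`C (σ*h) * Φ = C A * (C h * U + C s * V)^3 - (C (A*s^3) - C (σ*h) * (C z₀ + X)) * V^3`.
Map to `ℚ[X]`; if `Φ.map = C c * W^3` then `C A * P^3 - l * V'^3 = C (σ h c) * W^3`, with `P` the image of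
`C h * U + C s * V`, `V'` the image of `V`, `l = C (A s^3) - C (σ h) (C z₀ + X)`, of natDegree `1` because `σ h ≠ 0`.
`mason_cubic` gives `V' = 0`, so `V = 0` (`Polynomial.map_injective`, `Int.cast_injective`).
-/

set_option autoImplicit false

open Polynomial Pool.Agent.LibHLP

namespace LibSQ

theorem nonDeg_form (σ A h s : ℤ) (hσ : σ = 1 ∨ σ = -1) (hA : A ≠ 0) (hh : h ≠ 0) :
    NonDeg (kk (σ * A * h ^ 2) (σ * A * h * s) (σ * A * s ^ 2)) := by
  intro z₀ U V hW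
  obtain ⟨c, W, hcW⟩ := hW
  have hσ2 : σ ^ 2 = 1 := by
    rcases hσ with rfl | rfl <;> norm_num
  have hσ0 : σ ≠ 0 := by
    rcases hσ with rfl | rfl <;> norm_num
  have hσC : (C σ : ℤ[X]) ^ 2 = 1 := by
    rw [← C_pow, hσ2, C_1]
  have key : C (σ * h) * Phi 3 (kk (σ * A * h ^ 2) (σ * A * h * s) (σ * A * s ^ 2)) z₀ U V =
      C A * (C h * U + C s * V) ^ 3 - (C (A * s ^ 3) - C (σ * h) * (C z₀ + X)) * V ^ 3 := by
    have h1 : Phi 3 (kk (σ * A * h ^ 2) (σ * A * h * s) (σ * A * s ^ 2)) z₀ U V =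
        C (σ * A * h ^ 2) * U ^ 3 + C (3 * (σ * A * h * s)) * (U ^ 2 * V) +
          C (3 * (σ * A * s ^ 2)) * (U * V ^ 2) + (C z₀ + X) * V ^ 3 := by
      unfold Phi kk
      rw [Finset.sum_range_succ, Finset.sum_range_succ, Finset.sum_range_succ,
        Finset.sum_range_zero]
      norm_num
    rw [h1]
    simp only [C_mul, C_pow, map_ofNat]
    linear_combination (C A * C h ^ 3 * U ^ 3 + 3 * C A * C h ^ 2 * C s * U ^ 2 * V +
      3 * C A * C h * C s ^ 2 * U * V ^ 2) * hσC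
  have hmap := congrArg (Polynomial.map (Int.castRingHom ℚ)) key
  rw [Polynomial.map_mul, hcW] at hmap
  have hV : V.map (Int.castRingHom ℚ) = 0 := by
    refine mason_cubic (A : ℚ) ((σ * h : ℤ) * c) (Int.cast_ne_zero.2 hA)
      (C (((A * s ^ 3 : ℤ)) : ℚ) - C (((σ * h : ℤ)) : ℚ) * (C ((z₀ : ℤ) : ℚ) + X))
      ((C h * U + C s * V).map (Int.castRingHom ℚ)) _ W ?_ ?_
    · have h2 : (((σ * h : ℤ)) : ℚ) ≠ 0 := Int.cast_ne_zero.2 (mul_ne_zero hσ0 hh)
      have h3 : C (((A * s ^ 3 : ℤ)) : ℚ) - C (((σ * h : ℤ)) : ℚ) * (C ((z₀ : ℤ) : ℚ) + X) =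
          C (-(((σ * h : ℤ)) : ℚ)) * X +
            C ((((A * s ^ 3 : ℤ)) : ℚ) - (((σ * h : ℤ)) : ℚ) * ((z₀ : ℤ) : ℚ)) := by
        rw [C_neg, C_sub, C_mul]
        ring
      rw [h3]
      exact natDegree_linear (neg_ne_zero.2 h2)
    · rw [C_mul]
      have h4 := hmap
      simp only [Polynomial.map_mul, Polynomial.map_sub, Polynomial.map_pow, Polynomial.map_add,
        Polynomial.map_C, Polynomial.map_X, eq_intCast (Int.castRingHom ℚ)] at h4 ⊢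
      linear_combination -h4
  exact (Polynomial.map_eq_zero_iff (Int.castRingHom ℚ).injective_int).1 hV

end LibSQ
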