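import Pool.Agent.LibSQ78.Defs
import Pool.Agent.LibHU21.P1

/-!
R3. `LibHU.power_count` with a general condition on the coefficients.
-/

set_option autoImplicit false

open Polynomial Pool.Agent.LibHLP LibHU

namespace LibSQ

/-- The second step. -/
theorem power_countN : ∃ N0 : ℝ, 1 < N0 ∧ ∀ N : ℝ, N0 ≤ N →
    ∀ (m : ℕ) (H : ℝ) (k : ℕ → ℤ) (z₀ : ℤ) (U V : ℤ[X]), 1 ≤ H → NonDeg k →
    U.natDegree ≤ m → V.natDegree ≤ m → (∀ i, |(U.coeff i : ℝ)| ≤ H) →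
    (∀ i, |(V.coeff i : ℝ)| ≤ H) → (U ≠ 0 ∨ V ≠ 0) → (∀ i < 3, |(k i : ℝ)| ≤ H) →
    |(z₀ : ℝ)| ≤ H → ((3 : ℕ) : ℝ) * m + 1 ≤ N ^ (0.1 : ℝ) →
    (((3 : ℕ) : ℝ) + 2) * (m + 1) ^ 3 * H ^ (3 + 1) ≤ Real.exp (N ^ (0.1 : ℝ)) →
    ∀ T : Finset ℤ, (∀ t ∈ T, ∀ t' ∈ T, |((t - t' : ℤ) : ℝ)| ≤ N) →
    (∀ t ∈ T, t ∈ goodT 3 k z₀ U V) → (T.card : ℝ) ≤ m + N ^ (0.81 : ℝ) := by
  obtain ⟨N0, hN0, h⟩ := superelliptic 3 (Or.inl rfl)
  refine ⟨N0, hN0, ?_⟩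
  intro N hN m H k z₀ U V hH hk0 hU hV hUc hVc hUV hk hz hdeg hcoef T hTN hT
  have hNpos : 0 < N := by linarith
  have hN81 : 0 ≤ N ^ (0.81 : ℝ) := Real.rpow_nonneg hNpos.le _
  by_cases hd : ∃ (c : ℚ) (W : ℚ[X]), (Phi 3 k z₀ U V).map (Int.castRingHom ℚ) = C c * W ^ 3
  · have hV0 : V = 0 := hk0 z₀ U V hd
    have hU0 : U ≠ 0 := by
      rcases hUV with h | h
      · exact h
      · exact absurd hV0 h
    have h1 : T.card ≤ m := by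
      apply P1b_card hU0 hU
      intro t ht
      obtain ⟨a, b, hb, -, h1, -⟩ := hT t ht
      rw [hV0, eval_zero, zero_mul] at h1
      exact (mul_eq_zero.mp h1.symm).resolve_right hb
    have h2 : (T.card : ℝ) ≤ m := by exact_mod_cast h1
    linarith
  · have h1 := h N hN (Phi 3 k z₀ U V) ?_ ?_ hd T hTN ?_
    · have : (0 : ℝ) ≤ m := Nat.cast_nonneg m
      linarith
    · have h2 := natDegree_Phi_le 3 k z₀ hU hV
      have h3 : ((Phi 3 k z₀ U V).natDegree : ℝ) ≤ ((3 : ℕ) : ℝ) * m + 1 := by exact_mod_cast h2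
      exact h3.trans hdeg
    · intro i
      exact (Phi_coeff_le 3 m (by omega) k z₀ U V H hH hU hV hUc hVc hk hz i).trans hcoef
    · intro t ht
      obtain ⟨a, b, g, -, -, h3⟩ := P1b_good (hT t ht)
      exact ⟨g, h3⟩

end LibSQ
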