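import Pool.Agent.LibHall43.Defs

/-!
R5. The lattice reduction of `A p^3 - B q^3 = c`.
-/

set_option autoImplicit false

open LibHall

namespace LibSQ

/-- `s < h` with `h ∣ p - s Y`. -/
private theorem exists_inv (p Y h : ℕ) (hh : 0 < h) (hc : Nat.Coprime Y h) :
    ∃ (s : ℕ) (X : ℤ), s < h ∧ (p : ℤ) = h * X + s * Y := by
  obtain ⟨a, b, hab⟩ : ∃ a b : ℤ, a * Y + b * h = 1 := by
    have := Nat.isCoprime_iff_coprime.mpr hc
    exact this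
  have hhz : (h : ℤ) ≠ 0 := by exact_mod_cast hh.ne'
  have hnn : 0 ≤ (p * a) % (h : ℤ) := Int.emod_nonneg _ hhz
  have hlt : (p * a) % (h : ℤ) < h := Int.emod_lt_of_pos _ (by exact_mod_cast hh)
  refine ⟨((p * a) % (h : ℤ)).toNat, p * b + (p * a) / (h : ℤ) * Y, ?_, ?_⟩
  · have : (((p * a) % (h : ℤ)).toNat : ℤ) < h := by rw [Int.toNat_of_nonneg hnn]; exact hlt
    exact_mod_cast this
  · rw [Int.toNat_of_nonneg hnn]
    have h1 := Int.emod_add_mul_ediv (p * a) (h : ℤ)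
    linear_combination (-(p : ℤ)) * hab - (Y : ℤ) * h1

theorem lattice (A B p q : ℕ) (hA : 0 < A) (hp : 0 < p) (hq : 0 < q) (hcop : Nat.Coprime p q)
    (hne : (A : ℤ) * p ^ 3 ≠ B * q ^ 3) :
    ∃ (σ : ℤ) (k h s A' Y : ℕ) (X z : ℤ), (σ = 1 ∨ σ = -1) ∧ 0 < k ∧ 0 < h ∧ s < h ∧ 0 < A' ∧
      0 < Y ∧ (A : ℤ) * p ^ 3 - B * q ^ 3 = σ * (h * k) ∧ A = A' * k ∧ q = Y * k ∧
      (p : ℤ) = h * X + s * Y ∧ (h : ℤ) * z = σ * (A' * s ^ 3 - B * k ^ 2) ∧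
      CF (σ * A' * h ^ 2) (σ * A' * h * s) (σ * A' * s ^ 2) z X Y = 1 := by
  obtain ⟨c, hc⟩ : ∃ c : ℤ, c = (A : ℤ) * p ^ 3 - B * q ^ 3 := ⟨_, rfl⟩
  have hc0 : c ≠ 0 := by rw [hc]; exact sub_ne_zero.mpr hne
  obtain ⟨k, hk⟩ : ∃ k : ℕ, k = Nat.gcd q c.natAbs := ⟨_, rfl⟩
  have hkpos : 0 < k := by rw [hk]; exact Nat.gcd_pos_of_pos_left _ hq
  have hkq : k ∣ q := by rw [hk]; exact Nat.gcd_dvd_left _ _
  have hkc : k ∣ c.natAbs := by rw [hk]; exact Nat.gcd_dvd_right _ _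
  obtain ⟨Y, hY⟩ := hkq
  obtain ⟨h, hh⟩ := hkc
  have hcabs : 0 < c.natAbs := Int.natAbs_pos.mpr hc0
  have hhpos : 0 < h := by
    rcases Nat.eq_zero_or_pos h with h0 | h0
    · rw [h0, mul_zero] at hh; omega
    · exact h0
  have hYpos : 0 < Y := by
    rcases Nat.eq_zero_or_pos Y with h0 | h0
    · rw [h0, mul_zero] at hY; omega
    · exact h0
  have hYh : Nat.Coprime Y h := by
    have h1 := Nat.coprime_div_gcd_div_gcd (m := q) (n := c.natAbs)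
      (by rw [← hk]; exact hkpos)
    rw [← hk] at h1
    rw [hY, hh, Nat.mul_div_cancel_left _ hkpos, Nat.mul_div_cancel_left _ hkpos] at h1
    exact h1
  -- the sign
  obtain ⟨σ, hσ, hσc⟩ : ∃ σ : ℤ, (σ = 1 ∨ σ = -1) ∧ c = σ * c.natAbs := by
    rcases Int.natAbs_eq c with h1 | h1
    · exact ⟨1, Or.inl rfl, by rw [one_mul]; exact h1⟩
    · exact ⟨-1, Or.inr rfl, by rw [neg_one_mul]; exact h1⟩
  have hσ2 : σ * σ = 1 := by rcases hσ with h1 | h1 <;> rw [h1] <;> norm_num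
  have hchk : c = σ * (h * k) := by
    rw [hσc, hh]; push_cast; ring
  -- k divides A
  have hkA : k ∣ A := by
    have h1 : (k : ℤ) ∣ (A : ℤ) * p ^ 3 := by
      have h2 : (A : ℤ) * p ^ 3 = c + B * q ^ 3 := by rw [hc]; ring
      rw [h2, hchk, hY]
      exact ⟨σ * h + B * k ^ 2 * Y ^ 3, by push_cast; ring⟩
    have h3 : k ∣ A * p ^ 3 := by exact_mod_cast h1
    have h4 : Nat.Coprime k (p ^ 3) := by
      apply Nat.Coprime.pow_right
      exact (Nat.Coprime.coprime_dvd_right ⟨Y, hY⟩ hcop).symm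
    exact h4.dvd_of_dvd_mul_right h3
  obtain ⟨A', hA'⟩ := hkA
  have hA'pos : 0 < A' := by
    rcases Nat.eq_zero_or_pos A' with h0 | h0
    · rw [h0, mul_zero] at hA'; omega
    · exact h0
  have hkz : (k : ℤ) ≠ 0 := by exact_mod_cast hkpos.ne'
  have hhz : (h : ℤ) ≠ 0 := by exact_mod_cast hhpos.ne'
  have hE : (A' : ℤ) * p ^ 3 - B * k ^ 2 * Y ^ 3 = σ * h := by
    apply mul_left_cancel₀ hkz
    have h1 : (k : ℤ) * A' = A := by rw [hA']; push_cast; ring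
    have h2 : (q : ℤ) = k * Y := by rw [hY]; push_cast; ring
    have h3 := hchk
    rw [hc, h2] at h3
    linear_combination h3 + (p : ℤ) ^ 3 * h1
  obtain ⟨s, X, hs, hX⟩ := exists_inv p Y h hhpos hYh
  have hdvd : (h : ℤ) ∣ A' * s ^ 3 - B * k ^ 2 := by
    have h1 : (h : ℤ) ∣ (A' * s ^ 3 - B * k ^ 2) * Y ^ 3 := by
      refine ⟨σ - A' * (h ^ 2 * X ^ 3 + 3 * h * X ^ 2 * (s * Y) + 3 * X * (s * Y) ^ 2), ?_⟩
      rw [hX] at hE
      linear_combination hE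
    have h2 : IsCoprime (h : ℤ) ((Y : ℤ) ^ 3) := by
      apply IsCoprime.pow_right
      exact (Nat.isCoprime_iff_coprime.mpr hYh).symm
    exact h2.dvd_of_dvd_mul_right h1
  obtain ⟨z0, hz0⟩ := hdvd
  refine ⟨σ, k, h, s, A', Y, X, σ * z0, hσ, hkpos, hhpos, hs, hA'pos, hYpos, ?_, ?_, ?_, hX, ?_, ?_⟩
  · rw [← hc]; exact hchk
  · rw [hA']; ring
  · rw [hY]; ring
  · rw [hz0]; ring
  · unfold CF
    apply mul_left_cancel₀ hhz
    rw [hX] at hE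
    linear_combination σ * hE + hσ2 * (h : ℤ) - σ * (Y : ℤ) ^ 3 * hz0

end LibSQ
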