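import Pool.Agent.LibHall43.Defs

/-!
R6a. Proof. `A' w^3 = k^2 n^999` and `A' k ≤ B ≤ 2 n^999`, `k ≥ 1`: `w^3 = k^3 n^999 / (A' k) ≥ k^3 / 2 ≥ 1/2`, so `w ≥ 0.79` (`0.79^3 = 0.493`).
`(h k)^4 ≤ n`, so `h ≤ n`, `k ≤ n`, `h^4 ≤ n`, `k^4 ≤ n`.
`CF = 1` (`CF` in `Pool.Agent.LibHall43.Defs`), multiplied by `σ h` (`σ^2 = 1`): (E) `A' p^3 - B k^2 Y^3 = σ h`.
`IsS Θ D c0 c1 c2 (z, X, Y)` (see Defs), `Θ = 4 w`, `D = n^999`: (1) `CF = 1` given. (2) `Y ≠ 0`.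
Put `r = p / Y > 0` (real). (E)/(A' Y^3): `r^3 = B k^2 / A' + σ h / (A' Y^3)`, and `h / (A' Y^3) ≤ h / A' ≤ (B k^2 / A') / 1000`
(`1000 h ≤ 1000 n ≤ n^999 ≤ B`). As `n^999 ≤ B ≤ 2 n^999`: `0.999 w^3 ≤ r^3 ≤ 2.002 w^3`, so `0.99 w ≤ r ≤ 1.27 w`
(`0.99^3 = 0.9703 < 0.999`; `1.27^3 = 2.048 > 2.002`; `lt_of_pow_lt_pow_left₀`, `pow_le_pow_iff_left₀`).
(3) `X / Y = (r - s) / h` so `|X / Y| ≤ r / h + s / h ≤ r + 1 ≤ 1.27 w + 1.27 w ≤ 4 w` (`1.27 * 0.79 = 1.0033 ≥ 1`).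
(4) with `θ = X / Y`: `c0 θ^2 + 2 c1 θ + c2 = σ A' (h θ + s)^2 = σ A' r^2` (`h X + s Y = p`), so
  `Θ * |3 (..)| = 12 A' w r^2 ≥ 12 * 0.98 A' w^3 ≥ 11 k^2 n^999 ≥ n^999`.
`|z| ≤ n^1001`: `|z| ≤ h |z| = |A' s^3 - B k^2| ≤ A' h^3 + 2 n^999 k^2`, `A' ≤ A' k ≤ 2 n^999`,
  so `≤ 2 n^999 h^3 + 2 n^999 k^2 ≤ 4 n^999 n ≤ n^1001` (`h^3 ≤ h^4 ≤ n`, `k^2 ≤ n`).
-/

set_option autoImplicit false

open LibHall

namespace LibSQ

theorem slice_point (n : ℝ) (hn : 10000 ≤ n) (σ : ℤ) (k h s A' B p Y : ℕ) (X z : ℤ) (w : ℝ)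
    (hσ : σ = 1 ∨ σ = -1) (hk : 0 < k) (hh : 0 < h) (hs : s < h) (hA' : 0 < A')
    (h4 : ((h : ℝ) * k) ^ 4 ≤ n) (hw : 0 < w) (hw3 : (A' : ℝ) * w ^ 3 = (k : ℝ) ^ 2 * n ^ 999)
    (hB1 : n ^ 999 ≤ (B : ℝ)) (hB2 : (B : ℝ) ≤ 2 * n ^ 999) (hAB : A' * k ≤ B) (hp : 0 < p)
    (hY : 0 < Y) (hpX : (p : ℤ) = h * X + s * Y)
    (hz : (h : ℤ) * z = σ * (A' * s ^ 3 - B * k ^ 2))
    (hCF : CF (σ * A' * h ^ 2) (σ * A' * h * s) (σ * A' * s ^ 2) z X Y = 1) :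
    IsS (4 * w) (n ^ 999) (σ * A' * h ^ 2) (σ * A' * h * s) (σ * A' * s ^ 2) (z, X, (Y : ℤ)) ∧
      |(z : ℝ)| ≤ n ^ 1001 := by
  have hn0 : (0:ℝ) < n := by linarith
  have hn1 : (1:ℝ) ≤ n := by linarith
  obtain ⟨N, hN⟩ : ∃ N : ℝ, N = n ^ 999 := ⟨_, rfl⟩
  have hN1001 : n ^ 1001 = N * n ^ 2 := by rw [hN, ← pow_add]
  rw [hN1001]
  rw [← hN] at hw3 hB1 hB2 ⊢
  have hNn : 1000 * n ≤ N := by
    rw [hN]
    calc 1000 * n ≤ n * n := mul_le_mul_of_nonneg_right (by linarith) hn0.le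
      _ = n ^ 2 := by ring
      _ ≤ n ^ 999 := pow_le_pow_right₀ hn1 (by norm_num)
  have hNpos : 0 < N := by linarith
  have hσ2 : σ * σ = 1 := by rcases hσ with h | h <;> subst h <;> norm_num
  -- (E)
  have hE : (A' : ℤ) * p ^ 3 - B * k ^ 2 * Y ^ 3 = σ * h := by
    have e1 : (h : ℤ) * CF (σ * A' * h ^ 2) (σ * A' * h * s) (σ * A' * s ^ 2) z X Y
        = σ * (A' * (h * X + s * Y) ^ 3 - B * k ^ 2 * Y ^ 3) := by
      unfold CF
      linear_combination (Y : ℤ) ^ 3 * hz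
    rw [hCF, ← hpX] at e1
    linear_combination (-σ) * e1 - ((A' : ℤ) * p ^ 3 - B * k ^ 2 * Y ^ 3) * hσ2
  -- real variables
  have hER : (A' : ℝ) * (p : ℝ) ^ 3 - B * (k : ℝ) ^ 2 * (Y : ℝ) ^ 3 = σ * h := by exact_mod_cast hE
  have hpXR : (p : ℝ) = h * (X : ℝ) + s * (Y : ℝ) := by exact_mod_cast hpX
  have hzR : (h : ℝ) * (z : ℝ) = σ * (A' * (s : ℝ) ^ 3 - B * (k : ℝ) ^ 2) := by exact_mod_cast hz
  have hABR : (A' : ℝ) * k ≤ B := by exact_mod_cast hAB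
  have hkR : (1 : ℝ) ≤ k := by exact_mod_cast hk
  have hhR : (1 : ℝ) ≤ h := by exact_mod_cast hh
  have hAR : (1 : ℝ) ≤ A' := by exact_mod_cast hA'
  have hpR : (1 : ℝ) ≤ p := by exact_mod_cast hp
  have hYR : (1 : ℝ) ≤ Y := by exact_mod_cast hY
  have hsR : (s : ℝ) ≤ h := by exact_mod_cast hs.le
  have hs0 : (0 : ℝ) ≤ s := Nat.cast_nonneg s
  have hσabs : |(σ : ℝ)| = 1 := by rcases hσ with h | h <;> subst h <;> norm_num
  have hσR : (σ : ℝ) = 1 ∨ (σ : ℝ) = -1 := by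
    rcases hσ with h | h <;> subst h <;> norm_num
  generalize hhx : (h : ℝ) = hr at *
  generalize hkx : (k : ℝ) = kr at *
  generalize hAx : (A' : ℝ) = Ar at *
  generalize hpx : (p : ℝ) = pr at *
  generalize hsx : (s : ℝ) = sr at *
  generalize hBx : (B : ℝ) = Br at *
  generalize hzx : (z : ℝ) = zr at *
  generalize hXx : (X : ℝ) = Xr at *
  generalize hσx : (σ : ℝ) = σr at *
  have hh4 : hr ^ 4 ≤ n := by
    refine le_trans ?_ h4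
    rw [mul_pow]
    exact le_mul_of_one_le_right (by positivity) (one_le_pow₀ hkR)
  have hk4 : kr ^ 4 ≤ n := by
    refine le_trans ?_ h4
    rw [mul_pow]
    exact le_mul_of_one_le_left (by positivity) (one_le_pow₀ hhR)
  have hh1 : hr ≤ n := le_trans (le_self_pow₀ hhR (by norm_num)) hh4
  have hh3 : hr ^ 3 ≤ n := le_trans (pow_le_pow_right₀ hhR (by norm_num)) hh4
  have hk2 : kr ^ 2 ≤ n := le_trans (pow_le_pow_right₀ hkR (by norm_num)) hk4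
  have hk21 : 1 ≤ kr ^ 2 := one_le_pow₀ hkR
  -- lower bound for w
  have hw79 : 0.79 ≤ w := by
    by_contra hcon
    push Not at hcon
    have h1 : w ^ 3 < 0.79 ^ 3 := pow_lt_pow_left₀ hcon hw.le (by norm_num)
    have h2 : kr * (Ar * w ^ 3) = kr ^ 3 * N := by rw [hw3]; ring
    have h3 : N ≤ kr ^ 3 * N := le_mul_of_one_le_left hNpos.le (one_le_pow₀ hkR)
    have h5 : (Ar * kr) * w ^ 3 ≤ (2 * N) * w ^ 3 :=
      mul_le_mul_of_nonneg_right (le_trans hABR hB2) (by positivity)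
    have h6 : N ≤ (2 * N) * w ^ 3 := by
      have h7 : (Ar * kr) * w ^ 3 = kr * (Ar * w ^ 3) := by ring
      linarith only [h2, h3, h5, h7]
    have h8 : (2 * N) * w ^ 3 < (2 * N) * 0.79 ^ 3 := mul_lt_mul_of_pos_left h1 (by linarith only [hNpos])
    norm_num at h8
    linarith only [h6, h8, hNpos]
  -- the ratio r
  have hY0 : (0 : ℝ) < Y := by linarith
  obtain ⟨r, hr'⟩ : ∃ r : ℝ, r = pr / Y := ⟨_, rfl⟩
  have hpr : pr = r * Y := by rw [hr']; field_simp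
  have hr0 : 0 < r := by rw [hr']; positivity
  have hrE : Ar * r ^ 3 = Br * kr ^ 2 + σr * hr / (Y : ℝ) ^ 3 := by
    have e1 : (Ar * r ^ 3 - Br * kr ^ 2) * (Y : ℝ) ^ 3 = σr * hr := by
      rw [← hER, hpr]; ring
    rw [← e1]; field_simp; ring
  have herr : |σr * hr / (Y : ℝ) ^ 3| ≤ hr := by
    rw [abs_div, abs_mul, hσabs, one_mul, abs_of_pos (by linarith : 0 < hr),
      abs_of_pos (by positivity : 0 < (Y : ℝ) ^ 3)]
    exact div_le_self (by linarith) (one_le_pow₀ hYR)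
  have herr' := abs_le.1 herr
  have hBk : N * kr ^ 2 ≤ Br * kr ^ 2 := mul_le_mul_of_nonneg_right hB1 (by positivity)
  have hBk2 : Br * kr ^ 2 ≤ 2 * N * kr ^ 2 := mul_le_mul_of_nonneg_right hB2 (by positivity)
  have hNk : N ≤ N * kr ^ 2 := le_mul_of_one_le_right hNpos.le hk21
  have hw3' : Ar * w ^ 3 = N * kr ^ 2 := by rw [hw3]; ring
  have hA0 : 0 < Ar := by linarith
  have hr3l : 0.999 * w ^ 3 ≤ r ^ 3 := by
    have : Ar * (0.999 * w ^ 3) ≤ Ar * r ^ 3 := by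
      rw [hrE, show Ar * (0.999 * w ^ 3) = 0.999 * (Ar * w ^ 3) by ring, hw3']
      linarith only [herr'.1, hBk, hNk, hh1, hNn, hNpos]
    exact le_of_mul_le_mul_left this hA0
  have hr3u : r ^ 3 ≤ 2.002 * w ^ 3 := by
    have : Ar * r ^ 3 ≤ Ar * (2.002 * w ^ 3) := by
      rw [hrE, show Ar * (2.002 * w ^ 3) = 2.002 * (Ar * w ^ 3) by ring, hw3']
      linarith only [herr'.2, hBk2, hNk, hh1, hNn, hNpos]
    exact le_of_mul_le_mul_left this hA0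
  have hw30 : 0 < w ^ 3 := by positivity
  have hrl : 0.99 * w ≤ r := by
    by_contra hcon
    push Not at hcon
    have h1 : r ^ 3 < (0.99 * w) ^ 3 := pow_lt_pow_left₀ hcon hr0.le (by norm_num)
    rw [mul_pow] at h1
    norm_num at h1 hr3l
    linarith
  have hru : r ≤ 1.27 * w := by
    by_contra hcon
    push Not at hcon
    have h1 : (1.27 * w) ^ 3 < r ^ 3 := pow_lt_pow_left₀ hcon (by positivity) (by norm_num)
    rw [mul_pow] at h1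
    norm_num at h1 hr3u
    linarith
  have hX : |Xr| ≤ (r + 1) * Y := by
    have e1 : hr * Xr = (r - sr) * Y := by
      have e4 : (r - sr) * Y = r * Y - sr * (Y : ℝ) := by ring
      linarith only [hpXR, hpr, e4]
    have e2 : hr * |Xr| ≤ (r + hr) * Y := by
      rw [← abs_of_pos (by linarith : 0 < hr), ← abs_mul, abs_of_pos (by linarith : 0 < hr), e1,
        abs_mul, abs_of_pos hY0]
      refine mul_le_mul_of_nonneg_right ?_ hY0.le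
      rw [abs_le]; constructor <;> linarith
    have e3 : (r + hr) * Y ≤ hr * ((r + 1) * Y) := by
      have e4 := mul_nonneg (mul_nonneg (sub_nonneg.2 hhR) hr0.le) hY0.le
      have e5 : hr * ((r + 1) * Y) - (r + hr) * Y = (hr - 1) * r * Y := by ring
      linarith only [e4, e5]
    exact le_of_mul_le_mul_left (e2.trans e3) (by linarith)
  refine ⟨⟨hCF, ?_, ?_, ?_⟩, ?_⟩
  · show (Y : ℤ) ≠ 0
    exact_mod_cast hY.ne'
  · show |(X : ℝ)| ≤ 4 * w * |((Y : ℤ) : ℝ)|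
    rw [hXx, Int.cast_natCast, abs_of_pos hY0]
    refine hX.trans (mul_le_mul_of_nonneg_right ?_ hY0.le)
    linarith
  · show N ≤ 4 * w * |3 * (((σ * A' * h ^ 2 : ℤ) : ℝ) * ((X : ℝ) / ((Y : ℤ) : ℝ)) ^ 2 +
      2 * ((σ * A' * h * s : ℤ) : ℝ) * ((X : ℝ) / ((Y : ℤ) : ℝ)) + ((σ * A' * s ^ 2 : ℤ) : ℝ))|
    push_cast
    rw [hσx, hAx, hhx, hsx, hXx]
    have e1 : 3 * (σr * Ar * hr ^ 2 * (Xr / (Y : ℝ)) ^ 2 + 2 * (σr * Ar * hr * sr) * (Xr / (Y : ℝ)) +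
        σr * Ar * sr ^ 2) = σr * (3 * (Ar * r ^ 2)) := by
      rw [hr', hpXR]; field_simp; ring
    rw [e1, abs_mul, hσabs, one_mul, abs_of_pos (by positivity)]
    have e2 : (0.99 * w) ^ 2 ≤ r ^ 2 := pow_le_pow_left₀ (by positivity) hrl 2
    have e3 : Ar * w * (0.99 * w) ^ 2 ≤ Ar * w * r ^ 2 :=
      mul_le_mul_of_nonneg_left e2 (by positivity)
    have e4 : Ar * w * (0.99 * w) ^ 2 = 0.9801 * (Ar * w ^ 3) := by ring
    rw [e4, hw3'] at e3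
    have e5 : 4 * w * (3 * (Ar * r ^ 2)) = 12 * (Ar * w * r ^ 2) := by ring
    rw [e5]
    norm_num at e3
    linarith only [e3, hNk, hNpos]
  · have e0 : |zr| ≤ |hr * zr| := by
      rw [abs_mul, abs_of_pos (by linarith : 0 < hr)]
      exact le_mul_of_one_le_left (abs_nonneg _) hhR
    refine e0.trans ?_
    rw [hzR, abs_mul, hσabs, one_mul]
    have hA2 : Ar ≤ 2 * N := le_trans (le_mul_of_one_le_right hA0.le hkR) (hABR.trans hB2)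
    have hs3 : sr ^ 3 ≤ hr ^ 3 := pow_le_pow_left₀ hs0 hsR 3
    have e1 : Ar * sr ^ 3 ≤ 2 * N * n :=
      mul_le_mul hA2 (hs3.trans hh3) (by positivity) (by positivity)
    have e2 : Br * kr ^ 2 ≤ 2 * N * n := hBk2.trans (mul_le_mul_of_nonneg_left hk2 (by positivity))
    have e3 : 0 ≤ Ar * sr ^ 3 := by positivity
    have e4 : 0 ≤ Br * kr ^ 2 := by linarith only [hBk, hNk, hNpos]
    have e5 : 2 * N * n ≤ N * n ^ 2 := by
      have e6 : N * n * 2 ≤ N * n * n :=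
        mul_le_mul_of_nonneg_left (by linarith only [hn]) (mul_nonneg hNpos.le hn0.le)
      have e7 : N * n ^ 2 = N * n * n := by ring
      linarith only [e6, e7]
    rw [abs_le]; constructor <;> linarith only [e1, e2, e3, e4, e5]

end LibSQ
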