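import Pool.Agent.LibSQ78.R2
import Pool.Agent.LibSQ78.R4b
import Pool.Agent.LibSQ78.R6a

/-!
R6. Proof. `n0` is the one of `slice_countN` (it is `≥ 10000`). Fix the data. If `𝓑` is empty there is nothing to prove; so `A' k ≤ B ≤ 2 n^999` for
some `B`. Let `w := (k^2 n^999 / A')^(1/3) > 0` (rpow), so `A' w^3 = k^2 n^999`; `w^3 = k^3 n^999 / (A' k) ≥ 1/2`, so `w ≥ 0.79`; `w^3 ≤ k^2 n^999 ≤ n^1001`
so `w ≤ n^334`. `Θ := 4 w`. `(h k)^4 ≤ n` so `h, k ≤ h k ≤ n` and `(h k)^2 ≤ n`.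
Apply `slice_countN` with `c0 = σ A' h^2`, `c1 = σ A' h s`, `c2 = σ A' s^2` (`nonDeg_form`) and with `S` the image of `𝓑` under
`B ↦ (z, X, Y)` (chosen; `choose` from the hypothesis). The map is injective on `𝓑`: `k^2 B = A' s^3 - σ h z` (`σ^2 = 1`, `k > 0`). Conditions:
* `Θ ≤ 4 n^334 ≤ n^344`. `1 ≤ Θ n^1000`: `Θ ≥ 3`.
* `|c0| Θ^3 = A' h^2 * 64 w^3 = 64 h^2 k^2 n^999 ≤ 64 n n^999 ≤ n^1001`. `|c1| ≤ A' h^2`, `|c2| ≤ A' h^2` (`s < h`) and `Θ ≥ 1`, so the same bound holds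
  for `|c1| Θ^2`, `|c2| Θ`.
* For `B ∈ 𝓑` with `(p, Y, X, z)`: `slice_point`; and `log |Y| ≤ n^5`.
-/

set_option autoImplicit false

open LibHall

namespace LibSQ

/-- The number of `B` in a slice. -/
theorem slice : ∃ n0 : ℝ, 10000 ≤ n0 ∧ ∀ n : ℝ, n0 ≤ n → ∀ (σ : ℤ) (k h s A' : ℕ),
    (σ = 1 ∨ σ = -1) → 0 < k → 0 < h → s < h → 0 < A' → ((h : ℝ) * k) ^ 4 ≤ n →
    ∀ 𝓑 : Finset ℕ, (∀ B ∈ 𝓑, n ^ 999 ≤ (B : ℝ) ∧ (B : ℝ) ≤ 2 * n ^ 999 ∧ A' * k ≤ B ∧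
      ∃ (p Y : ℕ) (X z : ℤ), 0 < p ∧ 0 < Y ∧ Real.log Y ≤ n ^ 5 ∧ (p : ℤ) = h * X + s * Y ∧
        (h : ℤ) * z = σ * (A' * s ^ 3 - B * k ^ 2) ∧
        CF (σ * A' * h ^ 2) (σ * A' * h * s) (σ * A' * s ^ 2) z X Y = 1) →
    (𝓑.card : ℝ) ≤ n ^ 995 := by
  obtain ⟨n0, hn0, H⟩ := slice_countN
  refine ⟨n0, hn0, ?_⟩
  intro n hn σ k h s A' hσ hk hh hs hA' h4 𝓑 h𝓑
  have hn1 : (10000 : ℝ) ≤ n := hn0.trans hn
  have hnpos : (0 : ℝ) < n := by linarith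
  have hnone : (1 : ℝ) ≤ n := by linarith
  rcases 𝓑.eq_empty_or_nonempty with he | ⟨B0, hB0⟩
  · rw [he, Finset.card_empty, Nat.cast_zero]
    positivity
  obtain ⟨-, b2, b3, -⟩ := h𝓑 B0 hB0
  have hk1 : (1 : ℝ) ≤ k := by exact_mod_cast hk
  have hh1 : (1 : ℝ) ≤ h := by exact_mod_cast hh
  have hA1 : (1 : ℝ) ≤ A' := by exact_mod_cast hA'
  have hA0 : (0 : ℝ) < A' := by linarith
  have hs0 : (0 : ℝ) ≤ s := Nat.cast_nonneg s
  have hsh : (s : ℝ) ≤ h := by exact_mod_cast hs.le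
  have hN : (0 : ℝ) < n ^ 999 := by positivity
  -- sizes
  have hm1 : (1 : ℝ) ≤ (h : ℝ) * k := by nlinarith
  have hm2 : ((h : ℝ) * k) ^ 2 ≤ n := by
    refine le_trans ?_ h4
    exact pow_le_pow_right₀ hm1 (by norm_num)
  have hk2 : (k : ℝ) ^ 2 ≤ n := by
    refine le_trans ?_ hm2
    exact pow_le_pow_left₀ (by linarith) (by nlinarith) 2
  have hAk : (A' : ℝ) ≤ 2 * n ^ 999 := by
    have h1 : (A' : ℝ) * k ≤ B0 := by exact_mod_cast b3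
    nlinarith
  -- the cube root
  obtain ⟨w, hw, hw3'⟩ : ∃ w : ℝ, 0 < w ∧ w ^ 3 = (k : ℝ) ^ 2 * n ^ 999 / A' := by
    have hq : 0 < (k : ℝ) ^ 2 * n ^ 999 / A' := by positivity
    refine ⟨((k : ℝ) ^ 2 * n ^ 999 / A') ^ ((1 : ℝ) / 3), Real.rpow_pos_of_pos hq _, ?_⟩
    rw [← Real.rpow_natCast, ← Real.rpow_mul hq.le]
    norm_num
  have hw3 : (A' : ℝ) * w ^ 3 = (k : ℝ) ^ 2 * n ^ 999 := by
    rw [hw3', mul_div_cancel₀ _ hA0.ne']
  have hkn : n ^ 999 ≤ (k : ℝ) ^ 2 * n ^ 999 := by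
    have : (1 : ℝ) ≤ (k : ℝ) ^ 2 := one_le_pow₀ hk1
    nlinarith
  have hwlow : (3 : ℝ) / 4 ≤ w := by
    by_contra hcon
    push Not at hcon
    have h1 : w ^ 3 < (3 / 4) ^ 3 := pow_lt_pow_left₀ hcon hw.le (by norm_num)
    have h2 : (1 : ℝ) / 2 ≤ w ^ 3 := by
      rw [hw3', div_le_div_iff₀ (by norm_num) hA0]
      linarith
    norm_num at h1
    linarith
  have hwup : w ≤ n ^ 334 := by
    have h1 : w ^ 3 ≤ (n ^ 334) ^ 3 := by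
      have h2 : w ^ 3 ≤ (k : ℝ) ^ 2 * n ^ 999 := by
        rw [hw3']
        exact div_le_self (by positivity) hA1
      have h3 : (k : ℝ) ^ 2 * n ^ 999 ≤ n * n ^ 999 :=
        mul_le_mul_of_nonneg_right hk2 hN.le
      have h4 : n * n ^ 999 = n ^ 1000 := by rw [← pow_succ']
      have h5 : n ^ 1000 ≤ n ^ 1002 := pow_le_pow_right₀ hnone (by norm_num)
      have h6 : (n ^ 334) ^ 3 = n ^ 1002 := by rw [← pow_mul]
      rw [h6]
      linarith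
    exact (pow_le_pow_iff_left₀ hw.le (by positivity) (by norm_num)).1 h1
  have hΘ1 : (1 : ℝ) ≤ 4 * w := by linarith
  have hΘup : 4 * w ≤ n ^ 344 := by
    have h1 : 4 * w ≤ n * n ^ 334 := by
      have h2 : (0 : ℝ) ≤ n ^ 334 := by positivity
      nlinarith
    have h2 : n * n ^ 334 = n ^ 335 := by rw [← pow_succ']
    have h3 : n ^ 335 ≤ n ^ 344 := pow_le_pow_right₀ hnone (by norm_num)
    linarith
  have hΘn : 1 ≤ 4 * w * n ^ 1000 := by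
    have h1 : (1 : ℝ) ≤ n ^ 1000 := one_le_pow₀ hnone
    nlinarith
  -- coefficients
  have hσr : |(σ : ℝ)| = 1 := by
    rcases hσ with rfl | rfl <;> norm_num
  have habs : ∀ a b : ℕ, |((σ * A' * a * b : ℤ) : ℝ)| = (A' : ℝ) * (a * b) := by
    intro a b
    push_cast
    rw [abs_mul, abs_mul, abs_mul, hσr, one_mul, Nat.abs_cast, Nat.abs_cast, Nat.abs_cast, mul_assoc]
  have hmain : (A' : ℝ) * (h * h) * (4 * w) ^ 3 ≤ n ^ 1001 := by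
    have h1 : (A' : ℝ) * (h * h) * (4 * w) ^ 3 = 64 * ((h : ℝ) * k) ^ 2 * n ^ 999 := by
      have : (A' : ℝ) * (h * h) * (4 * w) ^ 3 = 64 * (h * h) * (A' * w ^ 3) := by ring
      rw [this, hw3]
      ring
    have h2 : 64 * ((h : ℝ) * k) ^ 2 ≤ n * n := by nlinarith
    have h3 : n * n * n ^ 999 = n ^ 1001 := by
      rw [mul_assoc, ← pow_succ', ← pow_succ']
    rw [h1, ← h3]
    exact mul_le_mul_of_nonneg_right h2 hN.le
  have hΘ3 : ∀ j : ℕ, j ≤ 3 → (4 * w) ^ j ≤ (4 * w) ^ 3 := fun j hj => pow_le_pow_right₀ hΘ1 hj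
  have hcoef : ∀ a b j : ℕ, a ≤ h → b ≤ h → j ≤ 3 →
      |((σ * A' * a * b : ℤ) : ℝ)| * (4 * w) ^ j ≤ n ^ 1001 := by
    intro a b j ha hb hj
    rw [habs]
    refine le_trans ?_ hmain
    have ha' : (a : ℝ) ≤ h := by exact_mod_cast ha
    have hb' : (b : ℝ) ≤ h := by exact_mod_cast hb
    have hab : (a : ℝ) * b ≤ h * h := mul_le_mul ha' hb' (Nat.cast_nonneg b) (by linarith)
    exact mul_le_mul (mul_le_mul_of_nonneg_left hab hA0.le) (hΘ3 j hj) (by positivity) (by positivity)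
  choose! p Y X z hp hY hlog hpX hz hCF using fun B hB => (h𝓑 B hB).2.2.2
  have hinj : Set.InjOn (fun B : ℕ => (z B, X B, (Y B : ℤ))) (𝓑 : Set ℕ) := by
    intro B hB B' hB' heq
    have h1 : z B = z B' := congrArg Prod.fst heq
    have h2 := hz B hB
    have h3 := hz B' hB'
    rw [h1, h3] at h2
    have hσ0 : σ ≠ 0 := by rcases hσ with rfl | rfl <;> norm_num
    have h4' := mul_left_cancel₀ hσ0 h2
    have h5 : (B' : ℤ) * k ^ 2 = B * k ^ 2 := by linarith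
    have hk0 : ((k : ℤ)) ^ 2 ≠ 0 := by
      have : (k : ℤ) ≠ 0 := by exact_mod_cast hk.ne'
      exact pow_ne_zero 2 this
    have h6 := mul_right_cancel₀ hk0 h5
    exact_mod_cast h6.symm
  have hcard := Finset.card_image_of_injOn hinj
  rw [← hcard]
  refine H n hn (4 * w) (by linarith) hΘup hΘn (σ * A' * h ^ 2) (σ * A' * h * s) (σ * A' * s ^ 2)
    (nonDeg_form σ A' h s hσ (by exact_mod_cast hA'.ne') (by exact_mod_cast hh.ne')) ?_ ?_ ?_ _ ?_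
  · have h1 := hcoef h h 3 le_rfl le_rfl le_rfl
    rwa [mul_assoc (σ * (A' : ℤ)), ← pow_two] at h1
  · exact hcoef h s 2 le_rfl hs.le (by norm_num)
  · have h1 := hcoef s s 1 hs.le hs.le (by norm_num)
    rwa [mul_assoc (σ * (A' : ℤ)), ← pow_two, pow_one] at h1
  · intro t ht
    obtain ⟨B, hB, rfl⟩ := Finset.mem_image.1 ht
    have h1 := slice_point n hn1 σ k h s A' B (p B) (Y B) (X B) (z B) w hσ hk hh hs hA' h4 hw hw3
      (h𝓑 B hB).1 (h𝓑 B hB).2.1 (h𝓑 B hB).2.2.1 (hp B hB) (hY B hB) (hpX B hB) (hz B hB) (hCF B hB)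
    refine ⟨h1.1, ?_, h1.2⟩
    have h2 := hlog B hB
    change Real.log |(((Y B : ℕ) : ℤ) : ℝ)| ≤ n ^ 5
    rw [Int.cast_natCast, Nat.abs_cast]
    exact h2

end LibSQ
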