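import Pool.Agent.LibSQ78.R5
import Pool.Agent.LibSQ78.R6

/-!
R7. Proof. `n0` from `slice`. For `P = (A, B) ∈ 𝓟` choose `p, q` (from `IsPair`) and then `σ, k, h, s, A', Y, X, z` by `lattice`.
`h k = |c| ≤ C1`. So `1 ≤ k ≤ C1`, `1 ≤ h ≤ C1`, `s < C1` (naturals), and `A ≤ M / B ≤ M / n^999`.
Map `P ↦ (A, σ, k, h, s)` into the Finset `Icc 1 ⌊M / n^999⌋₊ ×ˢ {1, -1} ×ˢ Icc 1 C1 ×ˢ Icc 1 C1 ×ˢ range C1`, which has at most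
`(M / n^999) * 2 * C1^3` elements. Each fibre has at most `n^995` elements: in a fibre `A`, `σ, k, h, s` are fixed, so `A' = A / k`
is fixed, the second coordinate `P ↦ B` is injective on the fibre and its image satisfies the hypotheses of `slice`
(`(h k)^4 ≤ C1^4 ≤ n`; `A' k = A ≤ B`; `Y ≤ q`, so `log Y ≤ log q ≤ n^5`).
(`Finset.card_le_mul_card_image_of_maps_to` with the natural number `⌊n^995⌋₊`.) So
`card 𝓟 ≤ (M / n^999) * 2 * C1^3 * n^995`; multiply by `n^4`.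
-/

set_option autoImplicit false

open LibHall

namespace LibSQ

/-- Data attached to a pair. -/
lemma pair_data (C1 : ℕ) (L : ℝ) (P : ℕ × ℕ) (h1 : 1 ≤ P.1) (hP : IsPair C1 L P) :
    ∃ D : ℤ × ℕ × ℕ × ℕ, (D.1 = 1 ∨ D.1 = -1) ∧ 0 < D.2.1 ∧ 0 < D.2.2.1 ∧ D.2.2.2 < D.2.2.1 ∧
      D.2.2.1 * D.2.1 ≤ C1 ∧ D.2.1 ∣ P.1 ∧ ∃ (p Y : ℕ) (X z : ℤ), 0 < p ∧ 0 < Y ∧
        Real.log Y ≤ L ∧ (p : ℤ) = D.2.2.1 * X + D.2.2.2 * Y ∧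
        (D.2.2.1 : ℤ) * z = D.1 * ((P.1 / D.2.1 : ℕ) * D.2.2.2 ^ 3 - P.2 * D.2.1 ^ 2) ∧
        CF (D.1 * (P.1 / D.2.1 : ℕ) * D.2.2.1 ^ 2) (D.1 * (P.1 / D.2.1 : ℕ) * D.2.2.1 * D.2.2.2)
          (D.1 * (P.1 / D.2.1 : ℕ) * D.2.2.2 ^ 2) z X Y = 1 := by
  obtain ⟨p, q, hp, hq, hcop, hne, hC, hL⟩ := hP
  obtain ⟨σ, k, h, s, A', Y, X, z, hσ, hk, hh, hs, hA', hY, hc, hA, hqY, hpX, hz, hCF⟩ :=
    lattice P.1 P.2 p q h1 hp hq hcop hne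
  have hdiv : P.1 / k = A' := by rw [hA]; exact Nat.mul_div_cancel _ hk
  refine ⟨(σ, k, h, s), hσ, hk, hh, hs, ?_, ⟨A', by rw [hA, mul_comm]⟩, p, Y, X, z, hp, hY,
    ?_, hpX, ?_, ?_⟩
  · have h2 : |(((P.1 : ℤ) * p ^ 3 - P.2 * q ^ 3 : ℤ) : ℝ)| = (h * k : ℕ) := by
      rw [hc]
      rcases hσ with rfl | rfl
      · push_cast; rw [one_mul]; exact abs_of_nonneg (by positivity)
      · push_cast; rw [neg_one_mul, abs_neg]; exact abs_of_nonneg (by positivity)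
    rw [h2] at hC
    exact_mod_cast hC
  · refine le_trans (Real.log_le_log (by exact_mod_cast hY) ?_) hL
    have : Y ≤ q := by rw [hqY]; exact Nat.le_mul_of_pos_right _ hk
    exact_mod_cast this
  · simp only [hdiv]; exact hz
  · simp only [hdiv]; exact hCF

/-- The number of pairs with `B` in a block. -/
theorem block : ∃ n0 : ℝ, 10000 ≤ n0 ∧ ∀ n : ℝ, n0 ≤ n → ∀ (C1 : ℕ) (M : ℝ),
    (C1 : ℝ) ^ 4 ≤ n → 0 ≤ M → ∀ 𝓟 : Finset (ℕ × ℕ), (∀ P ∈ 𝓟, 1 ≤ P.1 ∧ P.1 ≤ P.2 ∧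
      n ^ 999 ≤ (P.2 : ℝ) ∧ (P.2 : ℝ) ≤ 2 * n ^ 999 ∧ (P.1 : ℝ) * P.2 ≤ M ∧
      IsPair C1 (n ^ 5) P) →
    (𝓟.card : ℝ) * n ^ 4 ≤ 2 * (C1 : ℝ) ^ 3 * M := by
  classical
  obtain ⟨n0, hn0, hslice⟩ := slice
  refine ⟨n0, hn0, fun n hn C1 M hC1 hM 𝓟 h𝓟 => ?_⟩
  have hnpos : (0 : ℝ) < n := by linarith
  have hd : ∀ P : ℕ × ℕ, ∃ D : ℤ × ℕ × ℕ × ℕ, P ∈ 𝓟 → (D.1 = 1 ∨ D.1 = -1) ∧ 0 < D.2.1 ∧
      0 < D.2.2.1 ∧ D.2.2.2 < D.2.2.1 ∧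
      D.2.2.1 * D.2.1 ≤ C1 ∧ D.2.1 ∣ P.1 ∧ ∃ (p Y : ℕ) (X z : ℤ), 0 < p ∧ 0 < Y ∧
        Real.log Y ≤ n ^ 5 ∧ (p : ℤ) = D.2.2.1 * X + D.2.2.2 * Y ∧
        (D.2.2.1 : ℤ) * z = D.1 * ((P.1 / D.2.1 : ℕ) * D.2.2.2 ^ 3 - P.2 * D.2.1 ^ 2) ∧
        CF (D.1 * (P.1 / D.2.1 : ℕ) * D.2.2.1 ^ 2) (D.1 * (P.1 / D.2.1 : ℕ) * D.2.2.1 * D.2.2.2)
          (D.1 * (P.1 / D.2.1 : ℕ) * D.2.2.2 ^ 2) z X Y = 1 := by
    intro P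
    by_cases hP : P ∈ 𝓟
    · obtain ⟨D, hD⟩ := pair_data C1 (n ^ 5) P (h𝓟 P hP).1 (h𝓟 P hP).2.2.2.2.2
      exact ⟨D, fun _ => hD⟩
    · exact ⟨(1, 1, 1, 0), fun h => absurd h hP⟩
  choose D hD using hd
  have hn999 : (0 : ℝ) < n ^ 999 := by positivity
  let T : Finset (ℕ × ℤ × ℕ × ℕ × ℕ) :=
    Finset.Icc 1 ⌊M / n ^ 999⌋₊ ×ˢ ({1, -1} : Finset ℤ) ×ˢ Finset.Icc 1 C1 ×ˢ Finset.Icc 1 C1 ×ˢ
      Finset.range C1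
  have hmaps : ∀ P ∈ 𝓟, (fun P : ℕ × ℕ => (P.1, D P)) P ∈ T := by
    intro P hP
    obtain ⟨h1, h2, h3, h4, h5, h6⟩ := h𝓟 P hP
    obtain ⟨a1, a2, a3, a4, a5, a6, a7⟩ := hD P hP
    have hkC : (D P).2.1 ≤ C1 := le_trans (Nat.le_mul_of_pos_left _ a3) a5
    have hhC : (D P).2.2.1 ≤ C1 := le_trans (Nat.le_mul_of_pos_right _ a2) a5
    simp only [T, Finset.mem_product, Finset.mem_Icc, Finset.mem_insert, Finset.mem_singleton,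
      Finset.mem_range]
    refine ⟨⟨h1, ?_⟩, a1, ⟨a2, hkC⟩, ⟨a3, hhC⟩, lt_of_lt_of_le a4 hhC⟩
    apply Nat.le_floor
    rw [le_div_iff₀ hn999]
    calc (P.1 : ℝ) * n ^ 999 ≤ P.1 * P.2 := by gcongr
      _ ≤ M := h5
  have hfib : ∀ t ∈ T, (𝓟.filter (fun P => (fun P : ℕ × ℕ => (P.1, D P)) P = t)).card ≤
      ⌊n ^ 995⌋₊ := by
    rintro ⟨A, σ, k, h, s⟩ ht
    obtain ⟨F, hF⟩ : ∃ F, F = 𝓟.filter (fun P => (fun P : ℕ × ℕ => (P.1, D P)) P =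
      (A, σ, k, h, s)) := ⟨_, rfl⟩
    rw [← hF]
    have hFm : ∀ P ∈ F, P ∈ 𝓟 ∧ P.1 = A ∧ D P = (σ, k, h, s) := by
      intro P hP
      rw [hF, Finset.mem_filter] at hP
      have := hP.2
      simp only [Prod.mk.injEq] at this
      exact ⟨hP.1, this.1, this.2⟩
    rcases F.eq_empty_or_nonempty with hE | ⟨P0, hP0⟩
    · rw [hE]; simp
    have hinj : Set.InjOn Prod.snd (F : Set (ℕ × ℕ)) := by
      intro P hP P' hP' h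
      exact Prod.ext ((hFm P hP).2.1.trans (hFm P' hP').2.1.symm) h
    rw [← Finset.card_image_of_injOn hinj]
    apply Nat.le_floor
    obtain ⟨hP0a, hP0b, hP0c⟩ := hFm P0 hP0
    obtain ⟨a1, a2, a3, a4, a5, a6, a7⟩ := hD P0 hP0a
    rw [hP0c] at a1 a2 a3 a4 a5 a6
    simp only at a1 a2 a3 a4 a5 a6
    rw [hP0b] at a6
    obtain ⟨h1, h2, h3, h4, h5, h6⟩ := h𝓟 P0 hP0a
    have hA0 : 0 < A / k := by
      apply Nat.div_pos _ a2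
      exact Nat.le_of_dvd (by omega) a6
    refine hslice n hn σ k h s (A / k) a1 a2 a3 a4 hA0 ?_ _ ?_
    · refine le_trans ?_ hC1
      have : ((h : ℝ) * k) ≤ C1 := by exact_mod_cast a5
      gcongr
    · intro B hB
      rw [Finset.mem_image] at hB
      obtain ⟨P, hP, rfl⟩ := hB
      obtain ⟨b1, b2, b3⟩ := hFm P hP
      obtain ⟨c1, c2, c3, c4, c5, c6⟩ := h𝓟 P b1
      obtain ⟨-, -, -, -, -, -, p, Y, X, z, d1, d2, d3, d4, d5, d6⟩ := hD P b1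
      rw [b3] at d4 d5 d6
      simp only at d4 d5 d6
      rw [b2] at d5 d6
      refine ⟨c3, c4, ?_, p, Y, X, z, d1, d2, d3, d4, ?_, d6⟩
      · rw [Nat.div_mul_cancel a6, ← b2]; exact c2
      · exact d5
  have hcard : 𝓟.card ≤ ⌊n ^ 995⌋₊ * T.card := by
    exact Finset.card_le_mul_card_image_of_maps_to hmaps _ hfib
  have hT : (T.card : ℝ) ≤ M / n ^ 999 * (2 * (C1 : ℝ) ^ 3) := by
    have h1 : T.card = ⌊M / n ^ 999⌋₊ * (2 * (C1 * (C1 * C1))) := by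
      simp only [T, Finset.card_product, Nat.card_Icc, Finset.card_range]
      rfl
    rw [h1]; push_cast
    have h2 : (⌊M / n ^ 999⌋₊ : ℝ) ≤ M / n ^ 999 := Nat.floor_le (by positivity)
    calc (⌊M / n ^ 999⌋₊ : ℝ) * (2 * (C1 * (C1 * C1))) ≤ M / n ^ 999 * (2 * (C1 * (C1 * C1))) := by
          gcongr
      _ = M / n ^ 999 * (2 * (C1 : ℝ) ^ 3) := by ring
  have hfin : (𝓟.card : ℝ) ≤ n ^ 995 * (M / n ^ 999 * (2 * (C1 : ℝ) ^ 3)) := by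
    calc (𝓟.card : ℝ) ≤ (⌊n ^ 995⌋₊ : ℝ) * T.card := by exact_mod_cast hcard
      _ ≤ n ^ 995 * (M / n ^ 999 * (2 * (C1 : ℝ) ^ 3)) := by
        gcongr
        exact Nat.floor_le (by positivity)
  calc (𝓟.card : ℝ) * n ^ 4 ≤ n ^ 995 * (M / n ^ 999 * (2 * (C1 : ℝ) ^ 3)) * n ^ 4 := by gcongr
    _ = 2 * (C1 : ℝ) ^ 3 * M * ((n ^ 995 * n ^ 4) / n ^ 999) := by ring
    _ = 2 * (C1 : ℝ) ^ 3 * M := by
      rw [← pow_add, show 995 + 4 = 999 by norm_num, div_self hn999.ne', mul_one]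

end LibSQ
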