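import Pool.Agent.LibSQ78.R7

/-!
R8. Proof. Take `T0` large: `T0 ≥ 2^25`, `T0 ≥ n0` (of `block`). Let `C1 = ⌊2 T^12⌋₊` (`IsPair (2 T^12) ..` gives
`IsPair C1 ..`: the integer `|..| ≤ 2 T^12` is `≤ ⌊2 T^12⌋`), `M = 2 T^100000`. For `P ∈ 𝓟` let
`n(P) = ⌊(P.2 : ℝ)^(1/999)⌋₊` (or `Nat.findGreatest`), so `n^999 ≤ B < (n+1)^999`.
* `(2 T^50)^999 = 2^999 T^49950 ≤ T^49994 ≤ B < (n+1)^999` (`T^44 ≥ 2^999`, `T ≥ 2^25`), so `n + 1 > 2 T^50`, `n ≥ T^50`, also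
  `n ≥ 10000`, `n ≥ n0`, and `(n+1)^999 ≤ 2 n^999` (`(1 + 1/n)^999 ≤ exp (999/n) ≤ exp 0.1 ≤ 2`, `Real.add_one_le_exp`).
* `n^999 ≤ B ≤ A B ≤ 2 T^100000 ≤ (T^101)^999` so `n ≤ T^101`.
* `C1^4 ≤ 16 T^48 ≤ T^50 ≤ n`. `log q ≤ T^250 ≤ n^5`.
So the fibre of `n(P) = n` has, by `block`, at most `2 (2 T^12)^3 * 2 T^100000 / n^4 ≤ 32 T^36 T^100000 / T^200` elements; the
number of values of `n` is at most `T^101 + 1 ≤ 2 T^101`. Total `≤ 64 T^99937 ≤ T^99950`.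
-/

set_option autoImplicit false

namespace LibSQ

theorem exists_root999 (B : ℕ) : ∃ n : ℕ, n ^ 999 ≤ B ∧ B < (n + 1) ^ 999 := by
  have hex : ∃ m : ℕ, B < (m + 1) ^ 999 :=
    ⟨B, lt_of_lt_of_le (Nat.lt_succ_self B) (Nat.le_self_pow (n := 999) (by omega) (B + 1))⟩
  classical
  obtain ⟨m, hm, hmin⟩ : ∃ m : ℕ, B < (m + 1) ^ 999 ∧ ∀ k < m, ¬ B < (k + 1) ^ 999 :=
    ⟨Nat.find hex, Nat.find_spec hex, fun k hk => Nat.find_min hex hk⟩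
  refine ⟨m, ?_, hm⟩
  rcases Nat.eq_zero_or_pos m with h0 | h0
  · subst h0
    rw [zero_pow (by norm_num)]
    exact Nat.zero_le _
  · have h1 := hmin (m - 1) (by omega)
    rw [Nat.sub_add_cancel h0] at h1
    exact not_lt.1 h1

theorem root_ge (T : ℝ) (hT : 2 ^ 25 ≤ T) (n B : ℕ) (hB : T ^ 49994 ≤ (B : ℝ))
    (hn : B < (n + 1) ^ 999) : T ^ 50 ≤ (n : ℝ) := by
  have hT1 : (1 : ℝ) ≤ T := le_trans (by norm_num) hT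
  by_contra hcon
  push Not at hcon
  have h1 : (n : ℝ) + 1 ≤ 2 * T ^ 50 := by
    have := one_le_pow₀ hT1 (n := 50)
    linarith
  have h0 : (0 : ℝ) ≤ (n : ℝ) + 1 := add_nonneg (Nat.cast_nonneg n) zero_le_one
  have h2 : ((n : ℝ) + 1) ^ 999 ≤ (2 * T ^ 50) ^ 999 := pow_le_pow_left₀ h0 h1 999
  have h3 : (2 * T ^ 50) ^ 999 ≤ T ^ 49990 := by
    rw [mul_pow, ← pow_mul]
    have h4 : (2 : ℝ) ^ 999 ≤ T ^ 40 := by
      have h7 : (2 : ℝ) ^ 999 ≤ 2 ^ (25 * 40) :=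
        pow_le_pow_right₀ (by norm_num) (by norm_num)
      have h8 : (2 : ℝ) ^ (25 * 40) = (2 ^ 25) ^ 40 := pow_mul 2 25 40
      rw [h8] at h7
      exact h7.trans (pow_le_pow_left₀ (pow_nonneg zero_le_two 25) hT 40)
    calc (2 : ℝ) ^ 999 * T ^ (50 * 999) ≤ T ^ 40 * T ^ (50 * 999) :=
          mul_le_mul_of_nonneg_right h4 (pow_nonneg (by linarith) _)
      _ = T ^ 49990 := by rw [← pow_add]
  have h5 : T ^ 49990 ≤ T ^ 49994 := pow_le_pow_right₀ hT1 (by norm_num)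
  have h6 : (B : ℝ) < ((n : ℝ) + 1) ^ 999 := by exact_mod_cast hn
  exact absurd (h6.trans_le (h2.trans (h3.trans (h5.trans hB)))) (lt_irrefl _)

theorem succ_pow_le (n : ℕ) (hn : 10000 ≤ n) : ((n : ℝ) + 1) ^ 999 ≤ 2 * (n : ℝ) ^ 999 := by
  have hnR : (10000 : ℝ) ≤ n := by exact_mod_cast hn
  have h0 : (0 : ℝ) < (n : ℝ) + 1 := by linarith
  obtain ⟨x, hx⟩ : ∃ x : ℝ, x = 1 / ((n : ℝ) + 1) := ⟨_, rfl⟩
  have hx0 : 0 < x := by rw [hx]; positivity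
  have hx1 : x ≤ 1 / 10000 := by rw [hx]; exact one_div_le_one_div_of_le (by norm_num) (by linarith)
  have h1 := one_add_mul_le_pow (a := -x) (by linarith) 999
  have h2 : (1 / 2 : ℝ) ≤ 1 + ((999 : ℕ) : ℝ) * (-x) := by
    push_cast
    linarith only [hx1]
  have h4 : (1 / 2 : ℝ) ≤ (1 + -x) ^ 999 := h2.trans h1
  have h3 : (n : ℝ) = (1 + -x) * ((n : ℝ) + 1) := by rw [hx]; field_simp; ring
  have h5 : (n : ℝ) ^ 999 = (1 + -x) ^ 999 * ((n : ℝ) + 1) ^ 999 := by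
    rw [← mul_pow, ← h3]
  rw [h5]
  have h6 : 0 ≤ ((n : ℝ) + 1) ^ 999 := pow_nonneg h0.le 999
  generalize ((n : ℝ) + 1) ^ 999 = y at h6 ⊢
  generalize (1 + -x) ^ 999 = z at h4 ⊢
  nlinarith only [h4, h6]

theorem root_le (T : ℝ) (hT : 2 ^ 25 ≤ T) (n A B : ℕ) (hA : 1 ≤ A)
    (hAB : (A : ℝ) * B ≤ 2 * T ^ 100000) (hn : n ^ 999 ≤ B) : (n : ℝ) ≤ T ^ 101 := by
  have hT1 : (1 : ℝ) ≤ T := le_trans (by norm_num) hT
  have hAR : (1 : ℝ) ≤ A := by exact_mod_cast hA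
  have h1 : (n : ℝ) ^ 999 ≤ B := by exact_mod_cast hn
  have h2 : (B : ℝ) ≤ A * B := le_mul_of_one_le_left (Nat.cast_nonneg _) hAR
  have h3 : (2 : ℝ) * T ^ 100000 ≤ T ^ 100001 := by
    rw [pow_succ' T 100000]
    exact mul_le_mul_of_nonneg_right (le_trans (by norm_num) hT) (pow_nonneg (by linarith) _)
  have h4 : T ^ 100001 ≤ (T ^ 101) ^ 999 := by
    rw [← pow_mul]
    exact pow_le_pow_right₀ hT1 (by norm_num)
  exact (pow_le_pow_iff_left₀ (Nat.cast_nonneg n) (pow_nonneg (by linarith) _)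
    (by norm_num : (999 : ℕ) ≠ 0)).1 (by linarith)

theorem isPair_mono (T : ℝ) (hT : 2 ^ 25 ≤ T) (n : ℝ) (hn : T ^ 50 ≤ n) (P : ℕ × ℕ)
    (h : IsPair (2 * T ^ 12) (T ^ 250) P) : IsPair (⌊2 * T ^ 12⌋₊ : ℕ) (n ^ 5) P := by
  have hT1 : (1 : ℝ) ≤ T := le_trans (by norm_num) hT
  obtain ⟨p, q, hp, hq, hpq, hne, hle, hlog⟩ := h
  refine ⟨p, q, hp, hq, hpq, hne, ?_, ?_⟩
  · have h1 : (((P.1 : ℤ) * p ^ 3 - P.2 * q ^ 3 : ℤ).natAbs : ℝ)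
        = |(((P.1 : ℤ) * p ^ 3 - P.2 * q ^ 3 : ℤ) : ℝ)| := by
      rw [← Int.cast_abs, Int.abs_eq_natAbs]
      simp
    rw [← h1] at hle ⊢
    exact_mod_cast Nat.le_floor hle
  · refine hlog.trans ?_
    calc T ^ 250 = (T ^ 50) ^ 5 := by rw [← pow_mul]
      _ ≤ n ^ 5 := pow_le_pow_left₀ (by positivity) hn 5

/-- The number of pairs of large coefficients. -/
theorem pairs_large : ∃ T0 : ℝ, 1 ≤ T0 ∧ ∀ T : ℝ, T0 ≤ T → ∀ 𝓟 : Finset (ℕ × ℕ),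
    (∀ P ∈ 𝓟, 1 ≤ P.1 ∧ P.1 ≤ P.2 ∧ (P.1 : ℝ) * P.2 ≤ 2 * T ^ 100000 ∧ T ^ 49994 ≤ (P.2 : ℝ) ∧
      IsPair (2 * T ^ 12) (T ^ 250) P) → (𝓟.card : ℝ) ≤ T ^ 99950 := by
  obtain ⟨n0, hn0, hblock⟩ := block
  refine ⟨max (2 ^ 25) n0, le_trans (by norm_num) (le_max_left _ _), ?_⟩
  intro T hTT 𝓟 h𝓟
  have hT : (2 : ℝ) ^ 25 ≤ T := (le_max_left _ _).trans hTT
  have hTn : n0 ≤ T := (le_max_right _ _).trans hTT
  have hT1 : (1 : ℝ) ≤ T := le_trans (by norm_num) hT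
  have hT0 : (0 : ℝ) < T := by linarith
  choose ν hν1 hν2 using exists_root999
  have hνge : ∀ P ∈ 𝓟, T ^ 50 ≤ (ν P.2 : ℝ) := fun P hP =>
    root_ge T hT _ _ (h𝓟 P hP).2.2.2.1 (hν2 P.2)
  have hνle : ∀ P ∈ 𝓟, (ν P.2 : ℝ) ≤ T ^ 101 := fun P hP =>
    root_le T hT _ P.1 _ (h𝓟 P hP).1 (h𝓟 P hP).2.2.1 (hν1 P.2)
  have hmaps : ∀ P ∈ 𝓟, ν P.2 ∈ Finset.range (⌊T ^ 101⌋₊ + 1) := fun P hP =>
    Finset.mem_range.2 (Nat.lt_succ_of_le (Nat.le_floor (hνle P hP)))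
  have hC : ((⌊2 * T ^ 12⌋₊ : ℕ) : ℝ) ≤ 2 * T ^ 12 := Nat.floor_le (by positivity)
  have hfib : ∀ b ∈ Finset.range (⌊T ^ 101⌋₊ + 1),
      (𝓟.filter (fun P => ν P.2 = b)).card ≤ ⌊32 * T ^ 99836⌋₊ := by
    intro b _
    refine Nat.le_floor ?_
    rcases (𝓟.filter (fun P => ν P.2 = b)).eq_empty_or_nonempty with he | ⟨P0, hP0⟩
    · rw [he]; simp; positivity
    rw [Finset.mem_filter] at hP0
    have hb : T ^ 50 ≤ (b : ℝ) := by rw [← hP0.2]; exact hνge P0 hP0.1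
    have hTb : T ≤ (b : ℝ) := (le_self_pow₀ hT1 (by norm_num)).trans hb
    have hb4 : 10000 ≤ b := by
      have : (10000 : ℝ) ≤ b := by linarith
      exact_mod_cast this
    have h16 : ((⌊2 * T ^ 12⌋₊ : ℕ) : ℝ) ^ 4 ≤ (b : ℝ) := by
      calc ((⌊2 * T ^ 12⌋₊ : ℕ) : ℝ) ^ 4 ≤ (2 * T ^ 12) ^ 4 :=
            pow_le_pow_left₀ (Nat.cast_nonneg _) hC 4
        _ = 16 * T ^ 48 := by ring
        _ ≤ T * T ^ 48 := mul_le_mul_of_nonneg_right (le_trans (by norm_num) hT) (by positivity)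
        _ = T ^ 49 := by ring
        _ ≤ T ^ 50 := pow_le_pow_right₀ hT1 (by norm_num)
        _ ≤ b := hb
    have key := hblock (b : ℝ) (hTn.trans hTb) ⌊2 * T ^ 12⌋₊ (2 * T ^ 100000) h16 (by positivity)
      (𝓟.filter (fun P => ν P.2 = b)) (by
        intro P hP
        rw [Finset.mem_filter] at hP
        obtain ⟨hP1, rfl⟩ := hP
        obtain ⟨g1, g2, g3, g4, g5⟩ := h𝓟 P hP1
        refine ⟨g1, g2, ?_, ?_, g3, isPair_mono T hT _ hb P g5⟩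
        · exact_mod_cast hν1 P.2
        · have h1 : (P.2 : ℝ) < ((ν P.2 : ℝ) + 1) ^ 999 := by exact_mod_cast hν2 P.2
          exact h1.le.trans (succ_pow_le _ hb4))
    have hb200 : T ^ 200 ≤ (b : ℝ) ^ 4 := by
      calc T ^ 200 = (T ^ 50) ^ 4 := by rw [← pow_mul]
        _ ≤ (b : ℝ) ^ 4 := pow_le_pow_left₀ (by positivity) hb 4
    have h8 : 2 * ((⌊2 * T ^ 12⌋₊ : ℕ) : ℝ) ^ 3 * (2 * T ^ 100000) ≤ 32 * T ^ 99836 * T ^ 200 := by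
      calc 2 * ((⌊2 * T ^ 12⌋₊ : ℕ) : ℝ) ^ 3 * (2 * T ^ 100000)
          ≤ 2 * (2 * T ^ 12) ^ 3 * (2 * T ^ 100000) := by gcongr
        _ = 32 * T ^ 99836 * T ^ 200 := by ring
    have h9 : ((𝓟.filter (fun P => ν P.2 = b)).card : ℝ) * T ^ 200 ≤ 32 * T ^ 99836 * T ^ 200 :=
      le_trans (mul_le_mul_of_nonneg_left hb200 (Nat.cast_nonneg _)) (key.trans h8)
    exact le_of_mul_le_mul_right h9 (by positivity)
  have hcard := Finset.card_le_mul_card_image_of_maps_to hmaps _ hfib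
  rw [Finset.card_range] at hcard
  have h1 : ((𝓟.card : ℕ) : ℝ) ≤ (⌊32 * T ^ 99836⌋₊ : ℝ) * ((⌊T ^ 101⌋₊ : ℝ) + 1) := by
    exact_mod_cast hcard
  have h2 : (⌊32 * T ^ 99836⌋₊ : ℝ) ≤ 32 * T ^ 99836 := Nat.floor_le (by positivity)
  have h3 : (⌊T ^ 101⌋₊ : ℝ) ≤ T ^ 101 := Nat.floor_le (by positivity)
  have h4 : (1 : ℝ) ≤ T ^ 101 := one_le_pow₀ hT1
  calc (𝓟.card : ℝ) ≤ (⌊32 * T ^ 99836⌋₊ : ℝ) * ((⌊T ^ 101⌋₊ : ℝ) + 1) := h1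
    _ ≤ (32 * T ^ 99836) * (T ^ 101 + T ^ 101) := by gcongr
    _ = 64 * T ^ 99937 := by ring
    _ ≤ T * T ^ 99937 := mul_le_mul_of_nonneg_right (le_trans (by norm_num) hT) (by positivity)
    _ = T ^ 99938 := by rw [← pow_succ']
    _ ≤ T ^ 99950 := pow_le_pow_right₀ hT1 (by norm_num)

end LibSQ
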