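import Pool.Agent.LibSQ78.R9a

/-!
R9. Proof. `y > m` as `x > 0`. Let `d1 = y - m > 0`, `d2 = y + m`, `d1 d2 = x^3`. `cube_split`: `d1 = α β^2 U^3`, `α, β, U > 0`.
(ii) `α^2 β x^3 = α^2 β d1 d2 = (α β U)^3 d2`. Let `e = gcd (α β U) x`, `α β U = e s`, `x = e r`, `s, r` coprime: `s^3 d2 = α^2 β r^3`,
so `s^3 ∣ α^2 β` and `s = 1` by `cubefree_cube`. So `x = α β U V` with `V = r`, and `d2 = α^2 β V^3`.
(iii) `g = gcd U V`, `U = g u`, `V = g v`, `u, v` coprime. Then `y = m + d1 = m + α β^2 (g u)^3`, `y + m = α^2 β (g v)^3`,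
`x = α β g^2 u v`; and `2 m + α β g^3 (β u^3) = 2 m + d1 = y + m = α β g^3 (α v^3)`.
-/

set_option autoImplicit false

namespace LibSQ

theorem decomp (m x y : ℕ) (hm : 0 < m) (hx : 0 < x) (h : y ^ 2 = x ^ 3 + m ^ 2) :
    ∃ α β g u v : ℕ, 0 < α ∧ 0 < β ∧ 0 < g ∧ 0 < u ∧ 0 < v ∧ Nat.Coprime u v ∧
      y = m + α * β ^ 2 * (g * u) ^ 3 ∧ y + m = α ^ 2 * β * (g * v) ^ 3 ∧
      x = α * β * g ^ 2 * u * v ∧
      2 * m + α * β * g ^ 3 * (β * u ^ 3) = α * β * g ^ 3 * (α * v ^ 3) := by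
  have hx3 : 0 < x ^ 3 := pow_pos hx 3
  have hmy : m < y := lt_of_pow_lt_pow_left₀ 2 (Nat.zero_le y) (by rw [h]; omega)
  obtain ⟨d1, rfl⟩ := Nat.exists_eq_add_of_lt hmy
  obtain ⟨d, hd⟩ : ∃ d, d = d1 + 1 := ⟨_, rfl⟩
  have hd0 : 0 < d := by omega
  have hy : m + d1 + 1 = m + d := by omega
  rw [hy] at h ⊢
  have hprod : d * (d + 2 * m) = x ^ 3 := by nlinarith
  obtain ⟨α, β, U, hα, hβ, hc, hU, hdU⟩ := cube_split d hd0
  have hα0 : 0 < α := Nat.pos_of_ne_zero hα.ne_zero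
  have hβ0 : 0 < β := Nat.pos_of_ne_zero hβ.ne_zero
  have hkey : (α * β * U) ^ 3 * (d + 2 * m) = α ^ 2 * β * x ^ 3 := by
    rw [← hprod]
    calc (α * β * U) ^ 3 * (d + 2 * m) = α ^ 2 * β * ((α * β ^ 2 * U ^ 3) * (d + 2 * m)) := by ring
      _ = α ^ 2 * β * (d * (d + 2 * m)) := by rw [← hdU]
  obtain ⟨s, r, hsr, hs, hr⟩ := Nat.exists_coprime (α * β * U) x
  have he : 0 < Nat.gcd (α * β * U) x := Nat.gcd_pos_of_pos_right _ hx
  generalize Nat.gcd (α * β * U) x = e at hs hr he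
  have hkey2 : s ^ 3 * (d + 2 * m) = α ^ 2 * β * r ^ 3 := by
    have e3 : 0 < e ^ 3 := pow_pos he 3
    refine Nat.eq_of_mul_eq_mul_left e3 ?_
    rw [hs, hr] at hkey
    calc e ^ 3 * (s ^ 3 * (d + 2 * m)) = (s * e) ^ 3 * (d + 2 * m) := by ring
      _ = α ^ 2 * β * (r * e) ^ 3 := hkey
      _ = e ^ 3 * (α ^ 2 * β * r ^ 3) := by ring
  have hdvd : s ^ 3 ∣ α ^ 2 * β := by
    have h1 : s ^ 3 ∣ α ^ 2 * β * r ^ 3 := ⟨_, hkey2.symm⟩
    exact (Nat.Coprime.pow 3 3 hsr).dvd_of_dvd_mul_right h1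
  have hs1 : s = 1 := cubefree_cube α β s hα hβ hc hdvd
  subst hs1
  rw [one_mul] at hs
  rw [one_pow, one_mul] at hkey2
  obtain ⟨u, v, huv, hu, hv⟩ := Nat.exists_coprime U r
  have hr0 : 0 < r := by
    rcases Nat.eq_zero_or_pos r with h0 | h0
    · rw [h0, zero_mul] at hr
      omega
    · exact h0
  have hg : 0 < Nat.gcd U r := Nat.gcd_pos_of_pos_left _ hU
  generalize Nat.gcd U r = g at hu hv hg
  have hu0 : 0 < u := by
    rcases Nat.eq_zero_or_pos u with h0 | h0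
    · rw [h0, zero_mul] at hu
      omega
    · exact h0
  have hv0 : 0 < v := by
    rcases Nat.eq_zero_or_pos v with h0 | h0
    · rw [h0, zero_mul] at hv
      omega
    · exact h0
  have hd1 : d = α * β ^ 2 * (g * u) ^ 3 := by
    rw [hdU, hu]
    ring
  have hd2 : d + 2 * m = α ^ 2 * β * (g * v) ^ 3 := by
    rw [hkey2, hv]
    ring
  refine ⟨α, β, g, u, v, hα0, hβ0, hg, hu0, hv0, huv, ?_, ?_, ?_, ?_⟩
  · rw [← hd1]
  · rw [← hd2]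
    ring
  · rw [hr, ← hs, hv, hu]
    ring
  · calc 2 * m + α * β * g ^ 3 * (β * u ^ 3) = α * β ^ 2 * (g * u) ^ 3 + 2 * m := by ring
      _ = d + 2 * m := by rw [← hd1]
      _ = α ^ 2 * β * (g * v) ^ 3 := hd2
      _ = α * β * g ^ 3 * (α * v ^ 3) := by ring

end LibSQ
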