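import Mathlib

/-!
R9a. `cube_split`, `cubefree_cube`.
-/

set_option autoImplicit false

namespace LibSQ

theorem cube_split (d : ℕ) (hd : 0 < d) : ∃ α β U : ℕ, Squarefree α ∧ Squarefree β ∧
    Nat.Coprime α β ∧ 0 < U ∧ d = α * β ^ 2 * U ^ 3 := by
  induction d using Nat.strong_induction_on with
  | _ d ih =>
    by_cases h3 : ∃ p : ℕ, p.Prime ∧ p ^ 3 ∣ d
    · obtain ⟨p, hp, e, rfl⟩ := h3
      have he : 0 < e := Nat.pos_of_ne_zero (by rintro rfl; simp at hd)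
      have hlt : e < p ^ 3 * e := by
        have h1 : 1 < p ^ 3 := Nat.one_lt_pow (by norm_num) hp.one_lt
        nlinarith
      obtain ⟨α, β, U, hα, hβ, hc, hU, hE⟩ := ih e hlt he
      refine ⟨α, β, p * U, hα, hβ, hc, Nat.mul_pos hp.pos hU, ?_⟩
      rw [hE]
      ring
    · push Not at h3
      obtain ⟨a, b, ha, hb, hab, hsq⟩ := Nat.sq_mul_squarefree_of_pos hd
      refine ⟨a, b, 1, hsq, ?_, ?_, Nat.one_pos, by rw [← hab]; ring⟩
      · rw [Nat.squarefree_iff_prime_squarefree]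
        intro p hp hpb
        apply h3 p hp
        obtain ⟨c, hc⟩ := hpb
        rw [← hab, hc]
        exact ⟨p * c ^ 2 * a, by ring⟩
      · rw [Nat.coprime_iff_gcd_eq_one]
        by_contra hg
        obtain ⟨p, hp, hpg⟩ := Nat.exists_prime_and_dvd hg
        obtain ⟨c, hc⟩ := hpg.trans (Nat.gcd_dvd_left a b)
        obtain ⟨e, he⟩ := hpg.trans (Nat.gcd_dvd_right a b)
        apply h3 p hp
        rw [← hab, hc, he]
        exact ⟨e ^ 2 * c, by ring⟩

theorem cubefree_cube (α β s : ℕ) (hα : Squarefree α) (hβ : Squarefree β) (hc : Nat.Coprime α β)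
    (h : s ^ 3 ∣ α ^ 2 * β) : s = 1 := by
  by_contra hs
  obtain ⟨p, hp, hps⟩ := Nat.exists_prime_and_dvd hs
  have h3 : p ^ 3 ∣ α ^ 2 * β := (pow_dvd_pow_of_dvd hps 3).trans h
  by_cases hpa : p ∣ α
  · have hpb : ¬ p ∣ β := by
      intro hpb
      have := Nat.dvd_gcd hpa hpb
      rw [hc] at this
      exact hp.one_lt.ne' (Nat.dvd_one.mp this)
    have hcop : Nat.Coprime (p ^ 3) β :=
      Nat.Coprime.pow_left 3 ((Nat.Prime.coprime_iff_not_dvd hp).mpr hpb)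
    have h4 : p ^ 3 ∣ α ^ 2 := hcop.dvd_of_dvd_mul_right h3
    obtain ⟨c, rfl⟩ := hpa
    have h5 : p ^ 2 * p ∣ p ^ 2 * c ^ 2 := by
      have e1 : p ^ 2 * p = p ^ 3 := by ring
      have e2 : p ^ 2 * c ^ 2 = (p * c) ^ 2 := by ring
      rw [e1, e2]
      exact h4
    have h6 : p ∣ c ^ 2 := Nat.dvd_of_mul_dvd_mul_left (pow_pos hp.pos 2) h5
    have h7 : p ∣ c := hp.dvd_of_dvd_pow h6
    have h8 : p * p ∣ p * c := Nat.mul_dvd_mul_left p h7
    exact (Nat.squarefree_iff_prime_squarefree.mp hα) p hp h8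
  · have hcop : Nat.Coprime (p ^ 3) (α ^ 2) :=
      Nat.Coprime.pow 3 2 ((Nat.Prime.coprime_iff_not_dvd hp).mpr hpa)
    have h4 : p ^ 3 ∣ β := hcop.dvd_of_dvd_mul_left h3
    have h5 : p * p ∣ β := (Dvd.intro p (by ring : p * p * p = p ^ 3)).trans h4
    exact (Nat.squarefree_iff_prime_squarefree.mp hβ) p hp h5

end LibSQ
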